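import Mathlib

/-!
Two commuting continuous maps of an interval without common fixed point: some fixed point of the
composition is moved by the two maps in opposite directions.
-/

namespace Pool.Agent.MP4545

open Set Function

/-- commuting continuous maps of the line with values in `[a,b]`. -/
structure Sys (f g : ℝ → ℝ) (a b : ℝ) : Prop where
  cf : Continuous f
  cg : Continuous g
  comm : ∀ x, f (g x) = g (f x)
  rf : ∀ x, f x ∈ Icc a b
  rg : ∀ x, g x ∈ Icc a b

lemma Sys.reflect {f g : ℝ → ℝ} {a b : ℝ} (h : Sys f g a b) :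
    Sys (fun x => - f (-x)) (fun x => - g (-x)) (-b) (-a) where
  cf := by have := h.cf; fun_prop
  cg := by have := h.cg; fun_prop
  comm x := by simp [h.comm]
  rf x := by
    have := h.rf (-x)
    exact ⟨by linarith [this.2], by linarith [this.1]⟩
  rg x := by
    have := h.rg (-x)
    exact ⟨by linarith [this.2], by linarith [this.1]⟩

lemma Sys.swap {f g : ℝ → ℝ} {a b : ℝ} (h : Sys f g a b) : Sys g f a b where
  cf := h.cg
  cg := h.cf
  comm x := (h.comm x).symm
  rf := h.rg
  rg := h.rf

/-- IVT for a continuous function of two signs. -/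
lemma ivt_zero {F : ℝ → ℝ} (hF : Continuous F) {u v : ℝ} (huv : u ≤ v) (hu : 0 ≤ F u)
    (hv : F v ≤ 0) : ∃ x ∈ Icc u v, F x = 0 := by
  have := intermediate_value_Icc' huv hF.continuousOn
  obtain ⟨x, hx, ex⟩ := this ⟨hv, hu⟩
  exact ⟨x, hx, ex⟩

lemma ivt_zero' {F : ℝ → ℝ} (hF : Continuous F) {u v : ℝ} (huv : u ≤ v) (hu : F u ≤ 0)
    (hv : 0 ≤ F v) : ∃ x ∈ Icc u v, F x = 0 := by
  have := intermediate_value_Icc huv hF.continuousOn
  obtain ⟨x, hx, ex⟩ := this ⟨hu, hv⟩
  exact ⟨x, hx, ex⟩

/-- first case of Lemma A: `f > id` between two consecutive fixed points of `f`. -/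
lemma lemA_pos {f g : ℝ → ℝ} (cf : Continuous f) (cg : Continuous g)
    (comm : ∀ x, f (g x) = g (f x)) {e e' : ℝ} (hee : e < e')
    (he : f e = e) (he' : f e' = e') (hge : e' ≤ g e) (hge' : g e' ≤ e)
    (hpos : ∀ x ∈ Ioo e e', x < f x) :
    ∃ y, f (g y) = y ∧ (f y - y) * (g y - y) < 0 := by
  have ch : Continuous (fun x => f (g x) - x) := by fun_prop
  have h1 : f (g e) = g e := by rw [comm, he]
  have h2 : f (g e') = g e' := by rw [comm, he']
  -- the greatest fixed point of `h`
  have hA : IsCompact (Icc e e' ∩ (fun x => f (g x) - x) ⁻¹' {0}) :=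
    isCompact_Icc.inter_right ((isClosed_singleton).preimage ch)
  obtain ⟨x0, hx0, ex0⟩ := ivt_zero ch hee.le (by simp only [h1]; linarith)
    (by simp only [h2]; linarith)
  obtain ⟨y, hy, hmax⟩ := hA.exists_isGreatest ⟨x0, hx0, ex0⟩
  have ey : f (g y) = y := by
    have := hy.2; simp only [mem_preimage, mem_singleton_iff] at this; linarith
  have y1 : e < y := by
    refine lt_of_le_of_ne hy.1.1 ?_
    rintro rfl
    rw [h1] at ey; linarith
  have y2 : y < e' := by
    refine lt_of_le_of_ne hy.1.2 ?_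
    rintro rfl
    rw [h2] at ey; linarith
  have hfy : y < f y := hpos y ⟨y1, y2⟩
  refine ⟨y, ey, ?_⟩
  suffices hlt : g y < y by nlinarith
  by_contra hge2
  push Not at hge2
  have hne : g y ≠ y := by
    intro hc
    rw [hc] at ey; linarith
  -- fixed point of g to the right
  obtain ⟨r, hr, er⟩ := ivt_zero (F := fun x => g x - x) (by fun_prop) y2.le
    (by linarith) (by linarith)
  have er' : g r = r := by linarith
  have hry : y < r := by
    refine lt_of_le_of_ne hr.1 ?_
    rintro rfl
    exact hne er'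
  have hre : r < e' := by
    refine lt_of_le_of_ne hr.2 ?_
    rintro rfl
    rw [er'] at hge'
    linarith
  have hfr : r < f r := hpos r ⟨by linarith, hre⟩
  obtain ⟨s, hs, es⟩ := ivt_zero ch hre.le (by simp only [er']; linarith)
    (by simp only [h2]; linarith)
  have : s ≤ y := hmax ⟨⟨by linarith [hs.1], hs.2⟩, es⟩
  linarith [hs.1]

/-- Lemma A. -/
theorem lemA {f g : ℝ → ℝ} {a b : ℝ} (S : Sys f g a b) (hno : ∀ x, ¬ (f x = x ∧ g x = x)) :
    ∃ y, f (g y) = y ∧ (f y - y) * (g y - y) < 0 := by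
  have hab : a ≤ b := (S.rf 0).1.trans (S.rf 0).2
  have cf := S.cf
  have cg := S.cg
  -- compactness of the fixed point set of `f`
  have hfa : a ≤ f a := (S.rf a).1
  have hfb : f b ≤ b := (S.rf b).2
  have hFsub : ∀ x, f x = x → x ∈ Icc a b := fun x hx => hx ▸ S.rf x
  -- E = fixed points e of f with g e ≥ e
  have hFc : IsCompact (Icc a b ∩ (fun x => f x - x) ⁻¹' {0}) :=
    isCompact_Icc.inter_right ((isClosed_singleton).preimage (by fun_prop))
  obtain ⟨x0, hx0, ex0⟩ := ivt_zero (F := fun x => f x - x) (by fun_prop) hab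
    (by linarith) (by linarith)
  obtain ⟨m, hm, hmin⟩ := hFc.exists_isLeast ⟨x0, hx0, ex0⟩
  have em : f m = m := by
    have := hm.2; simp only [mem_preimage, mem_singleton_iff] at this; linarith
  have hgF : ∀ x, f x = x → f (g x) = g x := fun x hx => by rw [S.comm, hx]
  have hgm : m ≤ g m := hmin ⟨hFsub _ (hgF m em), by simp [hgF m em]⟩
  have hEc : IsCompact ((Icc a b ∩ (fun x => f x - x) ⁻¹' {0}) ∩ {x | x ≤ g x}) :=
    hFc.inter_right (isClosed_le continuous_id cg)
  obtain ⟨e, he, hemax⟩ := hEc.exists_isGreatest ⟨m, hm, hgm⟩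
  have fe : f e = e := by
    have := he.1.2; simp only [mem_preimage, mem_singleton_iff] at this; linarith
  have ge : e < g e := lt_of_le_of_ne he.2 (fun h => hno e ⟨fe, h.symm⟩)
  have hright : ∀ x, f x = x → e < x → g x < x := by
    intro x hx hex
    by_contra hc
    push Not at hc
    have := hemax (show x ∈ (Icc a b ∩ (fun x => f x - x) ⁻¹' {0}) ∩ {x | x ≤ g x} from
      ⟨⟨hFsub x hx, by simp [hx]⟩, hc⟩)
    linarith
  -- e' = next fixed point
  have hE'c : IsCompact ((Icc a b ∩ (fun x => f x - x) ⁻¹' {0}) ∩ ({x | g x ≤ x} ∩ Ici e)) :=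
    hFc.inter_right ((isClosed_le cg continuous_id).inter isClosed_Ici)
  obtain ⟨e', he', hemin⟩ := hE'c.exists_isLeast
    ⟨g e, ⟨⟨S.rg e, by simp [hgF e fe]⟩, (hright _ (hgF e fe) ge).le, ge.le⟩⟩
  have fe' : f e' = e' := by
    have := he'.1.2; simp only [mem_preimage, mem_singleton_iff] at this; linarith
  have hee : e < e' := by
    refine lt_of_le_of_ne he'.2.2 ?_
    rintro rfl
    have : g e ≤ e := he'.2.1
    linarith
  have ge' : g e' < e' := hright e' fe' hee
  have hnoF : ∀ x, f x = x → x ≤ e ∨ e' ≤ x := by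
    intro x hx
    by_contra hc
    push Not at hc
    have := hemin (show x ∈ (Icc a b ∩ (fun x => f x - x) ⁻¹' {0}) ∩ ({x | g x ≤ x} ∩ Ici e) from
      ⟨⟨hFsub x hx, by simp [hx]⟩, (hright x hx hc.1).le, hc.1.le⟩)
    linarith
  have h1 : e' ≤ g e := (hnoF _ (hgF e fe)).resolve_left (by linarith)
  have h2 : g e' ≤ e := (hnoF _ (hgF e' fe')).resolve_right (by linarith)
  -- constant sign
  have hsign : (∀ x ∈ Ioo e e', x < f x) ∨ (∀ x ∈ Ioo e e', f x < x) := by
    by_contra hc
    push Not at hc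
    obtain ⟨⟨x, hx, hfx⟩, ⟨y, hy, hfy⟩⟩ := hc
    rcases le_total x y with hxy | hxy
    · obtain ⟨z, hz, ez⟩ := ivt_zero' (F := fun x => f x - x) (by fun_prop) hxy
        (by linarith) (by linarith)
      rcases hnoF z (by linarith) with h | h
      · linarith [hx.1, hz.1]
      · linarith [hy.2, hz.2]
    · obtain ⟨z, hz, ez⟩ := ivt_zero (F := fun x => f x - x) (by fun_prop) hxy
        (by linarith) (by linarith)
      rcases hnoF z (by linarith) with h | h
      · linarith [hy.1, hz.1]
      · linarith [hx.2, hz.2]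
  rcases hsign with hs | hs
  · exact lemA_pos cf cg S.comm hee fe fe' h1 h2 hs
  · obtain ⟨y, h3, h4⟩ := lemA_pos (f := fun x => - f (-x)) (g := fun x => - g (-x))
      (by fun_prop) (by fun_prop) (fun x => by simp [S.comm]) (e := -e') (e' := -e)
      (by linarith) (by simp [fe']) (by simp [fe]) (by simp; linarith) (by simp; linarith)
      (fun x hx => by
        have := hs (-x) ⟨by linarith [hx.2], by linarith [hx.1]⟩
        linarith)
    refine ⟨-y, ?_, ?_⟩
    · simp only [neg_neg] at h3; linarith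
    · have : (f (-y) - -y) * (g (-y) - -y) = (-f (-y) - y) * (-g (-y) - y) := by ring
      rw [this]; exact h4

end Pool.Agent.MP4545
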