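import Mathlib
import Pool.Agent.Work.MP_4545a8_an.LemmaA

/-!
A monotone interval map has zero topological entropy.
-/

namespace Pool.Agent.MP4545

open Set Function Filter Topology Dynamics Uniformity ENNReal EReal ExpGrowth UniformSpace
open scoped SetRel

/-- linear growth has exponential growth rate at most zero. -/
lemma expGrowth_linear {u : ℕ → ℝ≥0∞} {C : ℕ}
    (h : ∀ n, 0 < n → u n ≤ ((n * C : ℕ) : ℝ≥0∞)) :
    expGrowthSup u ≤ 0 := by
  have key : ∀ r : ℝ, 0 < r → expGrowthSup u ≤ (r : EReal) := by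
    intro r hr
    apply Eventually.expGrowthSup_le
    obtain ⟨N, hN⟩ := exists_nat_gt (2 * C / r ^ 2)
    filter_upwards [eventually_ge_atTop N, eventually_gt_atTop 0] with n hn hn0
    refine (h n hn0).trans ?_
    have e : (r : EReal) * (n : EReal) = ((r * n : ℝ) : EReal) := by
      push_cast; rfl
    rw [e, EReal.exp_coe]
    have hreal : ((n * C : ℕ) : ℝ) ≤ Real.exp (r * n) := by
      have h1 := Real.quadratic_le_exp_of_nonneg (x := r * n) (by positivity)
      have hnN : (N : ℝ) ≤ n := by exact_mod_cast hn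
      have h2 : 2 * C / r ^ 2 < n := by linarith
      rw [div_lt_iff₀ (by positivity)] at h2
      have h3 : (0:ℝ) ≤ n := by positivity
      push_cast
      nlinarith [mul_le_mul_of_nonneg_left h2.le h3, mul_nonneg hr.le h3]
    rw [← ENNReal.ofReal_natCast]
    exact ENNReal.ofReal_le_ofReal hreal
  refine le_of_forall_gt_imp_ge_of_dense ?_
  intro a ha
  obtain ⟨r, hr0, hra⟩ := EReal.lt_iff_exists_real_btwn.1 ha
  exact (key r (by exact_mod_cast hr0)).trans hra.le

theorem entropy_mono {f : ℝ → ℝ} (cf : Continuous f) {x y : ℝ} (hxy : x ≤ y)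
    (fx : f x = x) (fy : f y = y) (hmono : MonotoneOn f (Icc x y)) :
    coverEntropy f (Icc x y) ≤ 0 := by
  classical
  refine iSup₂_le fun U hU => ?_
  obtain ⟨ε, hε, hεU⟩ := Metric.mem_uniformity_dist.1 hU
  set δ := ε / 2 with hδ
  have hδ0 : 0 < δ := by positivity
  obtain ⟨K, hK⟩ := exists_nat_gt ((y - x) / δ)
  refine expGrowth_linear (C := K + 1) fun n hn => ?_
  -- invariance
  have hmaps : ∀ w ∈ Icc x y, f w ∈ Icc x y := fun w hw =>
    ⟨by rw [← fx]; exact hmono (left_mem_Icc.2 hxy) hw hw.1,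
      by rw [← fy]; exact hmono hw (right_mem_Icc.2 hxy) hw.2⟩
  have hiter : ∀ i, ∀ w ∈ Icc x y, f^[i] w ∈ Icc x y := by
    intro i
    induction i with
    | zero => intro w hw; exact hw
    | succ i ih => intro w hw; rw [iterate_succ_apply']; exact hmaps _ (ih w hw)
  have hitermono : ∀ i, MonotoneOn f^[i] (Icc x y) := by
    intro i
    induction i with
    | zero => intro u _ v _ h; exact h
    | succ i ih =>
      intro u hu v hv h
      rw [iterate_succ_apply', iterate_succ_apply']
      exact hmono (hiter i u hu) (hiter i v hv) (ih hu hv h)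
  have fxi : ∀ i, f^[i] x = x := fun i => iterate_fixed fx i
  have fyi : ∀ i, f^[i] y = y := fun i => iterate_fixed fy i
  have hsurj : ∀ i : ℕ, ∀ k : ℕ, ∃ e ∈ Icc x y, x + k * δ ∈ Icc x y → f^[i] e = x + k * δ := by
    intro i k
    by_cases hk : x + k * δ ∈ Icc x y
    · obtain ⟨e, he, hee⟩ := intermediate_value_Icc hxy (cf.iterate i).continuousOn
        (by rw [fxi, fyi]; exact hk)
      exact ⟨e, he, fun _ => hee⟩
    · exact ⟨x, left_mem_Icc.2 hxy, fun h => absurd h hk⟩
  choose e he hee using hsurj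
  let s : Finset ℝ := (Finset.range n ×ˢ Finset.range (K + 1)).image (fun p => e p.1 p.2)
  have hscard : s.card ≤ n * (K + 1) := by
    refine Finset.card_image_le.trans ?_
    simp
  have hcov : IsDynCoverOf f (Icc x y) U n (s : Set ℝ) := by
    intro w hw
    have hx0 : x ∈ s := by
      refine Finset.mem_image.2 ⟨(0, 0), by simp [hn], ?_⟩
      have := hee 0 0 (by simpa using hxy)
      simpa using this
    obtain ⟨e0, he0, hmax⟩ : ∃ e0 ∈ s.filter (· ≤ w), ∀ e' ∈ s.filter (· ≤ w), e' ≤ e0 := by
      have hne : (s.filter (· ≤ w)).Nonempty := ⟨x, by simp [hx0, hw.1]⟩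
      exact ⟨_, Finset.max'_mem _ hne, fun e' he' => Finset.le_max' _ e' he'⟩
    rw [Finset.mem_filter] at he0
    have he0I : e0 ∈ Icc x y := by
      obtain ⟨p, -, hp⟩ := Finset.mem_image.1 he0.1
      rw [← hp]; exact he _ _
    refine ⟨e0, he0.1, ?_⟩
    rw [mem_dynEntourage]
    intro i hi
    apply hεU
    have hle : f^[i] e0 ≤ f^[i] w := hitermono i he0I hw he0.2
    rw [Real.dist_eq, abs_of_nonneg (by linarith)]
    by_contra hcon
    push Not at hcon
    -- a grid point strictly between
    have hfe := hiter i e0 he0I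
    have hfw := hiter i w hw
    set k := ⌊(f^[i] e0 - x) / δ⌋₊ + 1 with hk
    have hq0 : 0 ≤ (f^[i] e0 - x) / δ := div_nonneg (by linarith [hfe.1]) hδ0.le
    have k1 : (f^[i] e0 - x) / δ < k := by rw [hk]; push_cast; exact Nat.lt_floor_add_one _
    have k2 : (k : ℝ) ≤ (f^[i] e0 - x) / δ + 1 := by
      rw [hk]; push_cast; linarith [Nat.floor_le hq0]
    have k3 : f^[i] e0 < x + k * δ := by
      rw [div_lt_iff₀ hδ0] at k1; linarith
    have k4 : x + k * δ ≤ f^[i] e0 + δ := by
      have : (k : ℝ) * δ ≤ ((f^[i] e0 - x) / δ + 1) * δ := mul_le_mul_of_nonneg_right k2 hδ0.le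
      rw [add_mul, div_mul_cancel₀ _ hδ0.ne'] at this
      linarith
    have k5 : x + k * δ < f^[i] w := by linarith
    have kI : x + k * δ ∈ Icc x y := ⟨by linarith [hfe.1], by linarith [hfw.2]⟩
    have kK : k < K + 1 := by
      have : (k : ℝ) * δ ≤ y - x := by linarith [kI.2]
      rw [← le_div_iff₀ hδ0] at this
      have : (k : ℝ) < K := by linarith
      have : k < K := by exact_mod_cast this
      omega
    have hmem : e i k ∈ s := Finset.mem_image.2 ⟨(i, k), by simp [hi, kK], rfl⟩
    have hval := hee i k kI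
    rcases le_total (e i k) w with h1 | h1
    · have h2 := hmax _ (Finset.mem_filter.2 ⟨hmem, h1⟩)
      have h3 := hitermono i (he i k) he0I h2
      rw [hval] at h3
      linarith
    · have h3 := hitermono i hw (he i k) h1
      rw [hval] at h3
      linarith
  have h1 := hcov.coverMincard_le_card
  refine (ENat.toENNReal_mono (h1.trans (by exact_mod_cast hscard :
    ((s.card : ℕ∞)) ≤ ((n * (K + 1) : ℕ) : ℕ∞)))).trans ?_
  simp

end Pool.Agent.MP4545
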