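import Mathlib

/-!
Horseshoe lemma: two closed intervals `[u,z]`, `[z,v]` with a common end point `z`, each of which
covers `[u,v]` under the continuous map `F`, with `F z ≠ z`, give a point of period three of `F`.
-/

namespace Pool.Agent.MP4545

open Set Function

lemma exists_fixed {G : ℝ → ℝ} (hG : Continuous G) {s t : ℝ} (hst : s ≤ t)
    (h : Icc s t ⊆ G '' Icc s t) : ∃ x ∈ Icc s t, G x = x := by
  obtain ⟨x1, hx1, e1⟩ := h (left_mem_Icc.2 hst)
  obtain ⟨x2, hx2, e2⟩ := h (right_mem_Icc.2 hst)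
  have hc : ContinuousOn (fun x => G x - x) (Icc s t) := by fun_prop
  have hpc : IsPreconnected (Icc s t) := isPreconnected_Icc
  have := hpc.intermediate_value hx1 hx2 hc
  have h0 : (0:ℝ) ∈ Icc (G x1 - x1) (G x2 - x2) := by
    constructor
    · rw [e1]; linarith [hx1.1]
    · rw [e2]; linarith [hx2.2]
  obtain ⟨x, hx, ex⟩ := this h0
  exact ⟨x, hx, by simpa [sub_eq_zero] using ex⟩

lemma exists_sub_aux {F : ℝ → ℝ} (hF : Continuous F) {u v p q : ℝ} (huv : u ≤ v) (hpq : p ≤ q)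
    (hu : F u = p) (hv : F v = q) :
    ∃ s' t', u ≤ s' ∧ s' ≤ t' ∧ t' ≤ v ∧ F '' Icc s' t' = Icc p q := by
  have hA : IsCompact (Icc u v ∩ F ⁻¹' {p}) :=
    isCompact_Icc.inter_right ((isClosed_singleton).preimage hF)
  obtain ⟨s', hs', hmax⟩ := hA.exists_isGreatest ⟨u, ⟨le_refl _, huv⟩, hu⟩
  have hB : IsCompact (Icc s' v ∩ F ⁻¹' {q}) :=
    isCompact_Icc.inter_right ((isClosed_singleton).preimage hF)
  obtain ⟨t', ht', hmin⟩ := hB.exists_isLeast ⟨v, ⟨hs'.1.2, le_refl _⟩, hv⟩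
  have es : F s' = p := hs'.2
  have et : F t' = q := ht'.2
  refine ⟨s', t', hs'.1.1, ht'.1.1, ht'.1.2, ?_⟩
  apply Subset.antisymm
  · rintro _ ⟨x, hx, rfl⟩
    constructor
    · by_contra hlt
      push Not at hlt
      have : p ∈ F '' Icc x t' :=
        intermediate_value_Icc hx.2 hF.continuousOn ⟨hlt.le, by rw [et]; exact hpq⟩
      obtain ⟨r, hr, er⟩ := this
      have : r ≤ s' := hmax ⟨⟨by linarith [hs'.1.1, hx.1, hr.1], by linarith [hr.2, ht'.1.2]⟩, er⟩
      have hrx : r = x := le_antisymm (by linarith [hx.1]) hr.1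
      rw [hrx] at er
      linarith
    · by_contra hlt
      push Not at hlt
      have : q ∈ F '' Icc s' x :=
        intermediate_value_Icc hx.1 hF.continuousOn ⟨by rw [es]; exact hpq, hlt.le⟩
      obtain ⟨r, hr, er⟩ := this
      have : t' ≤ r := hmin ⟨⟨hr.1, by linarith [hr.2, hx.2, ht'.1.2]⟩, er⟩
      have hrx : r = x := le_antisymm hr.2 (by linarith [hx.2])
      rw [hrx] at er
      linarith
  · rw [← es, ← et]
    exact intermediate_value_Icc ht'.1.1 hF.continuousOn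

lemma exists_sub {F : ℝ → ℝ} (hF : Continuous F) {s t p q : ℝ} (hpq : p ≤ q)
    (h : Icc p q ⊆ F '' Icc s t) :
    ∃ s' t', s ≤ s' ∧ s' ≤ t' ∧ t' ≤ t ∧ F '' Icc s' t' = Icc p q := by
  obtain ⟨x1, hx1, e1⟩ := h (left_mem_Icc.2 hpq)
  obtain ⟨x2, hx2, e2⟩ := h (right_mem_Icc.2 hpq)
  rcases le_total x1 x2 with h12 | h12
  · obtain ⟨s', t', h1, h2, h3, h4⟩ := exists_sub_aux hF h12 hpq e1 e2
    exact ⟨s', t', by linarith [hx1.1], h2, by linarith [hx2.2], h4⟩
  · obtain ⟨s', t', h1, h2, h3, h4⟩ := exists_sub_aux (F := fun x => - F x) (p := -q) (q := -p)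
      (by fun_prop) h12 (by linarith) (by simp [e2]) (by simp [e1])
    refine ⟨s', t', by linarith [hx2.1], h2, by linarith [hx1.2], ?_⟩
    have : F '' Icc s' t' = Neg.neg '' ((fun x => - F x) '' Icc s' t') := by
      rw [image_image]; simp
    rw [this, h4]
    simp

/-- Horseshoe lemma. -/
lemma period_three {F : ℝ → ℝ} (hF : Continuous F) {u z v : ℝ} (huz : u ≤ z) (hzv : z ≤ v)
    (hU : Icc u v ⊆ F '' Icc u z) (hV : Icc u v ⊆ F '' Icc z v) (hz : F z ≠ z) :
    ∃ x, F (F (F x)) = x ∧ F x ≠ x := by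
  obtain ⟨s1, t1, a1, b1, c1, d1⟩ := exists_sub hF (p := u) (q := z) huz
    ((Icc_subset_Icc_right hzv).trans hV)
  obtain ⟨s2, t2, a2, b2, c2, d2⟩ := exists_sub hF (p := s1) (q := t1) b1
    ((Icc_subset_Icc (by linarith) c1).trans hV)
  obtain ⟨s3, t3, a3, b3, c3, d3⟩ := exists_sub hF (p := s2) (q := t2) b2
    ((Icc_subset_Icc (by linarith) c2).trans hU)
  have h3 : (fun x => F (F (F x))) '' Icc s3 t3 = Icc u z := by
    rw [← d1, ← d2, ← d3, image_image, image_image]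
  obtain ⟨x, hx, ex⟩ := exists_fixed (G := fun x => F (F (F x))) (by fun_prop) b3
    (by rw [h3]; exact Icc_subset_Icc a3 c3)
  refine ⟨x, ex, fun hfx => hz ?_⟩
  have hFx : F x ∈ Icc s2 t2 := by rw [← d3]; exact mem_image_of_mem _ hx
  have : x = z := le_antisymm (by linarith [hx.2]) (by rw [← hfx]; linarith [hFx.1])
  rw [this] at hfx
  exact hfx

end Pool.Agent.MP4545
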