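import Mathlib
import Pool.Agent.Work.MP_4545a8_an.Horse

/-!
An aperiodic minimal set of an interval map without horseshoes is swapped by a fixed point.
-/

namespace Pool.Agent.MP4545

open Set Function

/-- no iterate `f^[N]` has a point of (minimal) period three. -/
def NoThree (f : ℝ → ℝ) : Prop :=
  ∀ N, 0 < N → ∀ x, f^[N] (f^[N] (f^[N] x)) = x → f^[N] x = x

lemma cov_of {F : ℝ → ℝ} (hF : Continuous F) {s t x y p q : ℝ} (hx : x ∈ Icc s t)
    (hy : y ∈ Icc s t) (h1 : F x ≤ p) (h2 : q ≤ F y) : Icc p q ⊆ F '' Icc s t := fun _ hr =>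
  isPreconnected_Icc.intermediate_value hx hy hF.continuousOn ⟨h1.trans hr.1, hr.2.trans h2⟩

lemma cov_comp {f : ℝ → ℝ} {m n : ℕ} {I J L : Set ℝ} (h1 : J ⊆ f^[m] '' I)
    (h2 : L ⊆ f^[n] '' J) : L ⊆ f^[n + m] '' I := by
  rw [iterate_add, image_comp]
  exact h2.trans (image_mono h1)

lemma cov_pow {f : ℝ → ℝ} {m : ℕ} {I : Set ℝ} (h : I ⊆ f^[m] '' I) (n : ℕ) :
    I ⊆ f^[n * m] '' I := by
  induction n with
  | zero => simp
  | succ n ih =>
    have := cov_comp ih h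
    rwa [show (n + 1) * m = m + n * m by ring]

/-- The horseshoe contradiction. -/
lemma NoThree.absurd {f : ℝ → ℝ} (h3 : NoThree f) (cf : Continuous f) {N : ℕ} (hN : 0 < N)
    {u z v : ℝ} (huz : u ≤ z) (hzv : z ≤ v) (hU : Icc u v ⊆ f^[N] '' Icc u z)
    (hV : Icc u v ⊆ f^[N] '' Icc z v) (hz : f^[N] z ≠ z) : False := by
  obtain ⟨x, hx, hx'⟩ := period_three (cf.iterate N) huz hzv hU hV hz
  exact hx' (h3 N hN x hx)

/-- An aperiodic minimal set `M` of the map `f` without horseshoes, with points on both sides of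
the fixed point `c`. -/
structure Dyn (f : ℝ → ℝ) (M : Set ℝ) (c : ℝ) : Prop where
  cf : Continuous f
  three : NoThree f
  comp : IsCompact M
  inv : ∀ x ∈ M, f x ∈ M
  aper : ∀ x ∈ M, ∀ n, 0 < n → f^[n] x ≠ x
  dense : ∀ m ∈ M, ∀ O : Set ℝ, IsOpen O → (O ∩ M).Nonempty → ∃ k, f^[k] m ∈ O
  fc : f c = c
  left : ∃ x ∈ M, x < c
  right : ∃ x ∈ M, c < x

lemma iterate_reflect (f : ℝ → ℝ) (n : ℕ) (x : ℝ) :
    (fun x => - f (-x))^[n] x = - (f^[n] (-x)) := by
  induction n with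
  | zero => simp
  | succ n ih => rw [iterate_succ_apply', iterate_succ_apply', ih]; simp

lemma NoThree.reflect {f : ℝ → ℝ} (h : NoThree f) : NoThree (fun x => - f (-x)) := by
  intro N hN x hx
  simp only [iterate_reflect, neg_neg] at hx ⊢
  have := h N hN (-x) (by linarith)
  linarith

namespace Dyn

variable {f : ℝ → ℝ} {M : Set ℝ} {c : ℝ}

lemma reflect (D : Dyn f M c) : Dyn (fun x => - f (-x)) (-M) (-c) where
  cf := by have := D.cf; fun_prop
  three := D.three.reflect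
  comp := D.comp.neg
  inv x hx := by
    simp only [Set.mem_neg, neg_neg] at hx ⊢
    exact D.inv _ hx
  aper x hx n hn h := by
    rw [iterate_reflect] at h
    exact D.aper (-x) hx n hn (by linarith)
  dense m hm O hO hOM := by
    obtain ⟨k, hk⟩ := D.dense (-m) hm (-O) hO.neg (by
      obtain ⟨y, hy1, hy2⟩ := hOM
      exact ⟨-y, by simpa using hy1, hy2⟩)
    exact ⟨k, by rw [iterate_reflect]; exact hk⟩
  fc := by simp [D.fc]
  left := by
    obtain ⟨x, hx, hc⟩ := D.right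
    exact ⟨-x, by simpa using hx, by linarith⟩
  right := by
    obtain ⟨x, hx, hc⟩ := D.left
    exact ⟨-x, by simpa using hx, by linarith⟩

lemma iter_mem (D : Dyn f M c) {x : ℝ} (hx : x ∈ M) (n : ℕ) : f^[n] x ∈ M := by
  induction n with
  | zero => exact hx
  | succ n ih => rw [iterate_succ_apply']; exact D.inv _ ih

lemma ne_c (D : Dyn f M c) {x : ℝ} (hx : x ∈ M) : x ≠ c := by
  rintro rfl
  exact D.aper x hx 1 one_pos D.fc

lemma fnc (D : Dyn f M c) (n : ℕ) : f^[n] c = c := by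
  induction n with
  | zero => rfl
  | succ n ih => rw [iterate_succ_apply, D.fc, ih]

lemma sign (D : Dyn f M c) {u : ℝ} (hu : u ∈ M) (huc : u < c) : u < f u := by
  by_contra hcon
  push Not at hcon
  have cf := D.cf
  obtain ⟨p, hp, hpmin⟩ := D.comp.exists_isLeast ⟨u, hu⟩
  have hfp : p < f p := lt_of_le_of_ne (hpmin (D.inv p hp)) (Ne.symm (D.aper p hp 1 one_pos))
  obtain ⟨u2, hu2, hu2min⟩ := (D.comp.inter_right ((isClosed_Iic (a := c)).inter
    (isClosed_le D.cf continuous_id))).exists_isLeast ⟨u, hu, huc.le, hcon⟩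
  obtain ⟨u1, hu1, hu1max⟩ := (D.comp.inter_right ((isClosed_Iic (a := u2)).inter
    (isClosed_le continuous_id D.cf))).exists_isGreatest ⟨p, hp, hpmin hu2.1, hfp.le⟩
  have h2c : u2 < c := lt_of_le_of_ne hu2.2.1 (D.ne_c hu2.1)
  have hf1 : u1 ≤ f u1 := hu1.2.2
  have hf2 : f u2 ≤ u2 := hu2.2.2
  have hf2' : f u2 < u2 := lt_of_le_of_ne hf2 (D.aper u2 hu2.1 1 one_pos)
  have hf1' : u1 < f u1 := lt_of_le_of_ne hf1 (Ne.symm (D.aper u1 hu1.1 1 one_pos))
  have h12 : u1 < u2 := by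
    refine lt_of_le_of_ne hu1.2.1 ?_
    rintro rfl
    linarith
  have gap : ∀ w ∈ M, w ≤ u1 ∨ u2 ≤ w := by
    intro w hw
    by_contra hcc
    push Not at hcc
    rcases le_total w (f w) with h | h
    · have := hu1max (show w ∈ M ∩ (Iic u2 ∩ {b | id b ≤ f b}) from ⟨hw, hcc.2.le, h⟩)
      linarith
    · have := hu2min (show w ∈ M ∩ (Iic c ∩ {b | f b ≤ id b}) from
        ⟨hw, by simp only [mem_Iic]; linarith, h⟩)
      linarith
  have a1 : u2 ≤ f u1 := (gap _ (D.inv _ hu1.1)).resolve_left (by linarith)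
  have a2 : f u2 ≤ u1 := (gap _ (D.inv _ hu2.1)).resolve_right (by linarith)
  obtain ⟨k, hk⟩ := D.dense u1 hu1.1 (Ioi c) isOpen_Ioi (by
    obtain ⟨x, hx, hxc⟩ := D.right; exact ⟨x, hxc, hx⟩)
  have hk' : c < f^[k] u1 := hk
  have hk0 : 0 < k := by
    rcases Nat.eq_zero_or_pos k with rfl | h
    · simp only [iterate_zero, id_eq] at hk'; linarith
    · exact h
  obtain ⟨k', rfl⟩ : ∃ k', k = 1 + k' := ⟨k - 1, by omega⟩
  -- U = [u1,u2]
  have cU : Icc u1 u2 ⊆ f^[1] '' Icc u1 u2 :=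
    cov_of (cf.iterate 1) (x := u2) (y := u1) ⟨h12.le, le_refl _⟩ ⟨le_refl _, h12.le⟩ a2 a1
  have cU' : Icc u1 u2 ⊆ f^[1 + k'] '' Icc u1 u2 := by
    have := cov_pow cU (1 + k')
    rwa [mul_one] at this
  obtain ⟨x, hx, ex⟩ := cU' (left_mem_Icc.2 h12.le)
  have cU2 : Icc u1 c ⊆ f^[1 + k'] '' Icc u1 u2 :=
    cov_of (cf.iterate _) (x := x) (y := u1) hx ⟨le_refl _, h12.le⟩ ex.le hk'.le
  -- V = [u2,c]
  have cV : Icc u1 c ⊆ f^[1] '' Icc u2 c :=
    cov_of (cf.iterate 1) (x := u2) (y := c) ⟨le_refl _, h2c.le⟩ ⟨h2c.le, le_refl _⟩ a2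
      (by rw [D.fnc])
  have cV1 : Icc u2 c ⊆ f^[k'] '' Icc u2 c := by
    have := cov_pow ((Icc_subset_Icc_left h12.le).trans cV) k'
    rwa [mul_one] at this
  have cV2 : Icc u1 c ⊆ f^[1 + k'] '' Icc u2 c := cov_comp cV1 cV
  exact D.three.absurd cf hk0 h12.le h2c.le cU2 cV2 (D.aper u2 hu2.1 _ hk0)

lemma signR (D : Dyn f M c) {u : ℝ} (hu : u ∈ M) (huc : c < u) : f u < u := by
  have := D.reflect.sign (u := -u) (by simpa using hu) (by linarith)
  simp only [neg_neg] at this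
  linarith

lemma swapL (D : Dyn f M c) {u : ℝ} (hu : u ∈ M) (huc : u < c) : c < f u := by
  by_contra hcon
  push Not at hcon
  have cf := D.cf
  obtain ⟨a, ha, hamax⟩ := (D.comp.inter_right (isClosed_Iic (a := c))).exists_isGreatest
    ⟨u, hu, huc.le⟩
  have hac : a < c := lt_of_le_of_ne ha.2 (D.ne_c ha.1)
  have hfa1 : a < f a := D.sign ha.1 hac
  have hfa : c < f a := by
    by_contra h
    push Not at h
    have := hamax (show f a ∈ M ∩ Iic c from ⟨D.inv _ ha.1, h⟩)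
    linarith
  obtain ⟨y, hy, hymax⟩ := (D.comp.inter_right ((isClosed_Iic (a := c)).inter
    (isClosed_le D.cf (continuous_const (y := c))))).exists_isGreatest ⟨u, hu, huc.le, hcon⟩
  have hfy : f y ≤ c := hy.2.2
  have hfy' : f y < c := lt_of_le_of_ne hfy (D.ne_c (D.inv _ hy.1))
  have hfya : f y ≤ a := hamax ⟨D.inv _ hy.1, hfy⟩
  have hya : y < a := by
    refine lt_of_le_of_ne (hamax ⟨hy.1, hy.2.1⟩) ?_
    rintro rfl
    linarith
  obtain ⟨y', hy', hymin⟩ := (D.comp.inter_right ((isClosed_Icc (a := y) (b := c)).inter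
    (isClosed_le (continuous_const (y := c)) D.cf))).exists_isLeast
    ⟨a, ha.1, ⟨hya.le, hac.le⟩, hfa.le⟩
  have hfyp : c ≤ f y' := hy'.2.2
  have hyy' : y < y' := by
    refine lt_of_le_of_ne hy'.2.1.1 ?_
    rintro rfl
    linarith
  have hy'a : y' ≤ a := hymin ⟨ha.1, ⟨hya.le, hac.le⟩, hfa.le⟩
  have gap : ∀ w ∈ M, w < y' → w ≤ y := by
    intro w hw hwy
    by_contra hcc
    push Not at hcc
    rcases le_total (f w) c with h | h
    · have := hymax (show w ∈ M ∩ (Iic c ∩ {b | f b ≤ c}) from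
        ⟨hw, by simp only [mem_Iic]; linarith, h⟩)
      linarith
    · have := hymin (show w ∈ M ∩ (Icc y c ∩ {b | c ≤ f b}) from
        ⟨hw, ⟨hcc.le, by linarith⟩, h⟩)
      linarith
  obtain ⟨c1, hc1, ec1⟩ := intermediate_value_Icc hyy'.le cf.continuousOn ⟨hfy, hfyp⟩
  have hc1c : c1 < c := by linarith [hc1.2]
  obtain ⟨i, hi⟩ := D.dense a ha.1 (Iio y') isOpen_Iio ⟨y, hyy', hy.1⟩
  have hi' : f^[i] a ≤ y := gap _ (D.iter_mem ha.1 i) hi
  obtain ⟨j, hj⟩ := D.dense (f y') (D.inv _ hy'.1) (Iio c) isOpen_Iio (by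
    obtain ⟨x, hx, hxc⟩ := D.left; exact ⟨x, hxc, hx⟩)
  have hj' : f^[j + 1] y' ≤ a := by
    rw [iterate_succ_apply]
    have hj2 : f^[j] (f y') < c := hj
    exact hamax ⟨D.iter_mem (D.inv _ hy'.1) j, hj2.le⟩
  have hfc1 : ∀ n, f^[n + 1] c1 = c := fun n => by rw [iterate_succ_apply, ec1, D.fnc]
  have q1 : Icc y c ⊆ f^[i] '' Icc a c :=
    cov_of (cf.iterate i) (x := a) (y := c) ⟨le_refl _, hac.le⟩ ⟨hac.le, le_refl _⟩ hi'
      (by rw [D.fnc])
  have q1' : Icc a c ⊆ f^[1] '' Icc y y' :=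
    cov_of (cf.iterate 1) (x := y) (y := y') ⟨le_refl _, hyy'.le⟩ ⟨hyy'.le, le_refl _⟩ hfya hfyp
  have q2 : Icc a c ⊆ f^[1 + i] '' Icc a c :=
    cov_comp ((Icc_subset_Icc_right (by linarith)).trans q1) q1'
  have q3 : Icc a c ⊆ f^[i] '' Icc a c := (Icc_subset_Icc_left hya.le).trans q1
  have q4 := cov_pow q3 j
  have q5 := cov_pow q2 j
  have e1 : Icc a c ⊆ f^[1] '' Icc y c1 :=
    cov_of (cf.iterate 1) (x := y) (y := c1) ⟨le_refl _, hc1.1⟩ ⟨hc1.1, le_refl _⟩ hfya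
      (by rw [hfc1 0])
  have e2 : Icc a c ⊆ f^[j + 1] '' Icc c1 y' :=
    cov_of (cf.iterate _) (x := y') (y := c1) ⟨hc1.2, le_refl _⟩ ⟨le_refl _, hc1.2⟩ hj'
      (by rw [hfc1 j])
  have r1 : Icc y c ⊆ f^[i + (j * (1 + i) + 1)] '' Icc y c1 := cov_comp (cov_comp e1 q5) q1
  have r2 : Icc y c ⊆ f^[i + (j * i + (j + 1))] '' Icc c1 y' := cov_comp (cov_comp e2 q4) q1
  have eN : i + (j * i + (j + 1)) = i + (j * (1 + i) + 1) := by ring
  rw [eN] at r2
  have hsub : Icc y y' ⊆ Icc y c := Icc_subset_Icc_right (by linarith)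
  refine D.three.absurd cf (N := i + (j * (1 + i) + 1)) (by omega) hc1.1 hc1.2 (hsub.trans r1)
    (hsub.trans r2) ?_
  have := hfc1 (i + j * (1 + i))
  rw [show i + j * (1 + i) + 1 = i + (j * (1 + i) + 1) by ring] at this
  rw [this]
  exact hc1c.ne'

lemma swapR (D : Dyn f M c) {u : ℝ} (hu : u ∈ M) (huc : c < u) : f u < c := by
  have := D.reflect.swapL (u := -u) (by simpa using hu) (by linarith)
  simp only [neg_neg] at this
  linarith

/-- orbits of points of `M` to the left of `c` alternate. -/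
lemma alt (D : Dyn f M c) {u : ℝ} (hu : u ∈ M) (huc : u < c) (n : ℕ) :
    (Even n → f^[n] u < c) ∧ (Odd n → c < f^[n] u) := by
  induction n with
  | zero => simp [huc]
  | succ n ih =>
    rw [iterate_succ_apply']
    constructor
    · intro h
      have : Odd n := by
        rcases Nat.even_or_odd n with h' | h'
        · exact absurd h (by rw [Nat.even_add_one]; simpa using h')
        · exact h'
      exact D.swapR (D.iter_mem hu n) (ih.2 this)
    · intro h
      have : Even n := by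
        rcases Nat.even_or_odd n with h' | h'
        · exact h'
        · exact absurd h (by rw [Nat.odd_add_one]; simpa using h')
      exact D.swapL (D.iter_mem hu n) (ih.1 this)

lemma infinite_left (D : Dyn f M c) : {x | x ∈ M ∧ x < c}.Infinite := by
  obtain ⟨u, hu, huc⟩ := D.left
  have hinj : Injective (fun k : ℕ => f^[2 * k] u) := by
    have key : ∀ k l : ℕ, k < l → f^[2 * k] u ≠ f^[2 * l] u := by
      intro k l hkl h
      have : f^[2 * (l - k)] (f^[2 * k] u) = f^[2 * k] u := by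
        rw [← iterate_add_apply, show 2 * (l - k) + 2 * k = 2 * l by omega, ← h]
      exact D.aper _ (D.iter_mem hu _) _ (by omega) this
    intro k l h
    rcases lt_trichotomy k l with hkl | hkl | hkl
    · exact absurd h (key k l hkl)
    · exact hkl
    · exact absurd h.symm (key l k hkl)
  refine (infinite_range_of_injective hinj).mono ?_
  rintro _ ⟨k, rfl⟩
  exact ⟨D.iter_mem hu _, (D.alt hu huc (2 * k)).1 (by simp)⟩

end Dyn

lemma exists_four {s : Set ℝ} (hs : s.Infinite) :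
    ∃ x0 x1 x2 x3, x0 ∈ s ∧ x1 ∈ s ∧ x2 ∈ s ∧ x3 ∈ s ∧ x0 < x1 ∧ x1 < x2 ∧ x2 < x3 := by
  obtain ⟨t, hts, ht⟩ := hs.exists_subset_card_eq 4
  have hm := fun i => hts (Finset.orderEmbOfFin_mem t ht i)
  have hlt := fun (i j : Fin 4) (h : i < j) => (Finset.orderEmbOfFin t ht).strictMono h
  exact ⟨_, _, _, _, hm 0, hm 1, hm 2, hm 3, hlt 0 1 (by decide), hlt 1 2 (by decide),
    hlt 2 3 (by decide)⟩

end Pool.Agent.MP4545
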