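import Mathlib
import Pool.Agent.Work.MP_4545a8_an.LemmaA

/-!
The set `K = Fix (f ∘ g)` for commuting maps; minimal sets of `f | K`.
-/

namespace Pool.Agent.MP4545

open Set Function Filter Topology

/-- cluster values of a sequence. -/
def W (u : ℕ → ℝ) : Set ℝ := {y | MapClusterPt y atTop u}

lemma isClosed_W (u : ℕ → ℝ) : IsClosed (W u) := isClosed_setOf_clusterPt

lemma W_nonempty {u : ℕ → ℝ} {C : Set ℝ} (hC : IsCompact C) (hu : ∀ n, u n ∈ C) :
    (W u).Nonempty := by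
  obtain ⟨y, -, hy⟩ := hC.exists_clusterPt (f := map u atTop)
    (by rw [le_principal_iff, mem_map]; exact Eventually.of_forall hu)
  exact ⟨y, hy⟩

lemma W_subset {u : ℕ → ℝ} {C : Set ℝ} (hC : IsClosed C) (hu : ∀ n, u n ∈ C) :
    W u ⊆ C := by
  intro y hy
  have : ClusterPt y (𝓟 C) := by
    refine ClusterPt.mono hy ?_
    rw [le_principal_iff, mem_map]
    exact Eventually.of_forall hu
  exact (isClosed_iff_clusterPt.1 hC) y this

lemma mem_W_iff {u : ℕ → ℝ} {y : ℝ} :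
    y ∈ W u ↔ ∀ s ∈ 𝓝 y, ∀ N, ∃ n ≥ N, u n ∈ s := by
  unfold W
  rw [mem_setOf_eq, mapClusterPt_iff_frequently]
  simp only [frequently_atTop]

lemma W_map {u : ℕ → ℝ} {φ : ℝ → ℝ} (hφ : Continuous φ) (h : ∀ n, φ (u n) = u (n + 1))
    {y : ℝ} (hy : y ∈ W u) : φ y ∈ W u := by
  rw [mem_W_iff] at hy ⊢
  intro s hs N
  obtain ⟨n, hn, hun⟩ := hy _ (hφ.continuousAt hs) N
  exact ⟨n + 1, by omega, by rw [← h]; exact hun⟩

lemma W_map' {u : ℕ → ℝ} {φ : ℝ → ℝ} (hφ : Continuous φ) (h : ∀ n, φ (u (n + 1)) = u n)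
    {y : ℝ} (hy : y ∈ W u) : φ y ∈ W u := by
  rw [mem_W_iff] at hy ⊢
  intro s hs N
  obtain ⟨n, hn, hun⟩ := hy _ (hφ.continuousAt hs) (N + 1)
  obtain ⟨k, rfl⟩ : ∃ k, n = k + 1 := ⟨n - 1, by omega⟩
  exact ⟨k, by omega, by rw [← h]; exact hun⟩

section
variable {f g : ℝ → ℝ} {a b : ℝ}

/-- Fixed point set of the composition. -/
def K (f g : ℝ → ℝ) : Set ℝ := {x | f (g x) = x}

lemma isClosed_K (S : Sys f g a b) : IsClosed (K f g) :=
  isClosed_eq (S.cf.comp S.cg) continuous_id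

lemma K_subset (S : Sys f g a b) : K f g ⊆ Icc a b := fun x hx => by
  have h : f (g x) = x := hx
  rw [← h]; exact S.rf _

lemma fg (S : Sys f g a b) {x : ℝ} (hx : x ∈ K f g) : f (g x) = x := hx

lemma gf (S : Sys f g a b) {x : ℝ} (hx : x ∈ K f g) : g (f x) = x := by
  rw [← S.comm]; exact hx

lemma K_f (S : Sys f g a b) {x : ℝ} (hx : x ∈ K f g) : f x ∈ K f g := by
  show f (g (f x)) = f x
  rw [gf S hx]

lemma K_g (S : Sys f g a b) {x : ℝ} (hx : x ∈ K f g) : g x ∈ K f g := by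
  show f (g (g x)) = g x
  rw [S.comm, fg S hx]

lemma K_fn (S : Sys f g a b) {x : ℝ} (hx : x ∈ K f g) (n : ℕ) : f^[n] x ∈ K f g := by
  induction n with
  | zero => exact hx
  | succ n ih => rw [iterate_succ_apply']; exact K_f S ih

lemma K_gn (S : Sys f g a b) {x : ℝ} (hx : x ∈ K f g) (n : ℕ) : g^[n] x ∈ K f g := by
  induction n with
  | zero => exact hx
  | succ n ih => rw [iterate_succ_apply']; exact K_g S ih

lemma fn_gn (S : Sys f g a b) {x : ℝ} (hx : x ∈ K f g) (n : ℕ) : f^[n] (g^[n] x) = x := by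
  induction n with
  | zero => rfl
  | succ n ih => rw [iterate_succ_apply, iterate_succ_apply', fg S (K_gn S hx n), ih]

lemma gn_fn (S : Sys f g a b) {x : ℝ} (hx : x ∈ K f g) (n : ℕ) : g^[n] (f^[n] x) = x := by
  induction n with
  | zero => rfl
  | succ n ih => rw [iterate_succ_apply, iterate_succ_apply', gf S (K_fn S hx n), ih]

lemma f_inj (S : Sys f g a b) {x y : ℝ} (hx : x ∈ K f g) (hy : y ∈ K f g) (h : f x = f y) :
    x = y := by
  rw [← gf S hx, ← gf S hy, h]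

/-- no common periodic point -/
def NoCommon (f g : ℝ → ℝ) : Prop := ∀ x n m, 0 < n → 0 < m → f^[n] x = x → g^[m] x ≠ x

lemma not_per (S : Sys f g a b) (hno : NoCommon f g) {x : ℝ} (hx : x ∈ K f g) {n : ℕ}
    (hn : 0 < n) : f^[n] x ≠ x := by
  intro h
  apply hno x n n hn hn h
  have := gn_fn S hx n
  rwa [h] at this

/-- the minimal sets used in the proof -/
structure MinSet (f g : ℝ → ℝ) (M : Set ℝ) : Prop where
  closed : IsClosed M
  ne : M.Nonempty
  sub : M ⊆ K f g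
  inv : ∀ x ∈ M, f x ∈ M
  dense : ∀ m ∈ M, ∀ O : Set ℝ, IsOpen O → (O ∩ M).Nonempty → ∃ k, f^[k] m ∈ O

theorem exists_min (S : Sys f g a b) {x : ℝ} (hx : x ∈ K f g) :
    ∃ M, MinSet f g M ∧ M ⊆ W (fun n => g^[n] x) := by
  set A := W (fun n => g^[n] x) with hA
  have hAK : A ⊆ K f g := W_subset (isClosed_K S) (fun n => K_gn S hx n)
  have hAc : IsClosed A := isClosed_W _
  have hAne : A.Nonempty := W_nonempty isCompact_Icc (fun n => K_subset S (K_gn S hx n))
  have hAf : ∀ y ∈ A, f y ∈ A := fun y hy => W_map' S.cf (fun n => by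
    show f (g^[n+1] x) = g^[n] x
    rw [iterate_succ_apply', fg S (K_gn S hx n)]) hy
  have hAg : ∀ y ∈ A, g y ∈ A := fun y hy => W_map S.cg (fun n => by
    show g (g^[n] x) = g^[n+1] x
    rw [iterate_succ_apply']) hy
  let 𝒞 : Set (Set ℝ) :=
    {C | IsClosed C ∧ C.Nonempty ∧ C ⊆ A ∧ (∀ y ∈ C, f y ∈ C) ∧ (∀ y ∈ C, g y ∈ C)}
  have hcomp : ∀ C ∈ 𝒞, IsCompact C := fun C hC =>
    (isCompact_Icc (a := a) (b := b)).of_isClosed_subset hC.1
      (hC.2.2.1.trans (hAK.trans (K_subset S)))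
  obtain ⟨M, hM⟩ := zorn_superset 𝒞 (by
    intro c hc hchain
    rcases c.eq_empty_or_nonempty with rfl | hne
    · exact ⟨A, ⟨hAc, hAne, Subset.rfl, hAf, hAg⟩, by simp⟩
    · haveI : Nonempty c := hne.to_subtype
      refine ⟨⋂₀ c, ⟨isClosed_sInter fun C hC => (hc hC).1, ?_, ?_, ?_, ?_⟩,
        fun s hs => sInter_subset_of_mem hs⟩
      · apply IsCompact.nonempty_sInter_of_directed_nonempty_isCompact_isClosed
        · intro s hs t ht
          rcases hchain.total hs ht with h | h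
          · exact ⟨s, hs, Subset.rfl, h⟩
          · exact ⟨t, ht, h, Subset.rfl⟩
        · exact fun U hU => (hc hU).2.1
        · exact fun U hU => hcomp U (hc hU)
        · exact fun U hU => (hc hU).1
      · obtain ⟨C, hC⟩ := hne
        exact (sInter_subset_of_mem hC).trans (hc hC).2.2.1
      · intro y hy C hC
        exact (hc hC).2.2.2.1 y (hy C hC)
      · intro y hy C hC
        exact (hc hC).2.2.2.2 y (hy C hC))
  have hMm : M ∈ 𝒞 := hM.prop
  refine ⟨M, ⟨hMm.1, hMm.2.1, hMm.2.2.1.trans hAK, hMm.2.2.2.1, ?_⟩, hMm.2.2.1⟩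
  intro m hm O hO hOM
  have hmK : m ∈ K f g := hAK (hMm.2.2.1 hm)
  have hit : ∀ n, f^[n] m ∈ M := by
    intro n
    induction n with
    | zero => exact hm
    | succ n ih => rw [iterate_succ_apply']; exact hMm.2.2.2.1 _ ih
  have hWM : W (fun n => f^[n] m) ⊆ M := W_subset hMm.1 hit
  have hW : W (fun n => f^[n] m) ∈ 𝒞 := by
    refine ⟨isClosed_W _, W_nonempty (hcomp M hMm) hit, hWM.trans hMm.2.2.1, ?_, ?_⟩
    · intro y hy
      exact W_map S.cf (fun n => by
        show f (f^[n] m) = f^[n+1] m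
        rw [iterate_succ_apply']) hy
    · intro y hy
      exact W_map' S.cg (fun n => by
        show g (f^[n+1] m) = f^[n] m
        rw [iterate_succ_apply', gf S (K_fn S hmK n)]) hy
  have hMW : M ⊆ W (fun n => f^[n] m) := hM.le_of_le hW hWM
  obtain ⟨y, hyO, hyM⟩ := hOM
  have := mem_W_iff.1 (hMW hyM) O (hO.mem_nhds hyO) 0
  obtain ⟨n, -, hn⟩ := this
  exact ⟨n, hn⟩

end

end Pool.Agent.MP4545
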