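import Mathlib
import Pool.Agent.Work.MP_4545a8_an.Min
import Pool.Agent.Work.MP_4545a8_an.Dyn

/-!
Core theorem: commuting `f, g`, no horseshoe for `f`: common periodic point.
-/

namespace Pool.Agent.MP4545

open Set Function Filter Topology

variable {f g : ℝ → ℝ} {a b : ℝ}

lemma exists_dyn (S : Sys f g a b) (hno : NoCommon f g) (h3 : NoThree f) {M : Set ℝ}
    (hM : MinSet f g M) : ∃ c, Dyn f M c := by
  have cf := S.cf
  have hcomp : IsCompact M := (isCompact_Icc (a := a) (b := b)).of_isClosed_subset hM.closed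
    (hM.sub.trans (K_subset S))
  obtain ⟨p, hp, hpmin⟩ := hcomp.exists_isLeast hM.ne
  obtain ⟨q, hq, hqmax⟩ := hcomp.exists_isGreatest hM.ne
  have haper : ∀ x ∈ M, ∀ n, 0 < n → f^[n] x ≠ x := fun x hx n hn =>
    not_per S hno (hM.sub hx) hn
  have hfp : p < f p := lt_of_le_of_ne (hpmin (hM.inv p hp)) (Ne.symm (haper p hp 1 one_pos))
  have hfq : f q < q := lt_of_le_of_ne (hqmax (hM.inv q hq)) (haper q hq 1 one_pos)
  obtain ⟨c, hc, ec⟩ := ivt_zero (F := fun x => f x - x) (by fun_prop) (hpmin hq)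
    (by linarith) (by linarith)
  have fc : f c = c := by linarith
  refine ⟨c, ⟨cf, h3, hcomp, hM.inv, haper, hM.dense, fc, ⟨p, hp, ?_⟩, ⟨q, hq, ?_⟩⟩⟩
  · refine lt_of_le_of_ne hc.1 ?_
    rintro rfl
    linarith
  · refine lt_of_le_of_ne hc.2 ?_
    rintro rfl
    linarith

theorem key (S : Sys f g a b) (hno : NoCommon f g) (h3 : NoThree f) {x : ℝ}
    (hx : x ∈ K f g) : 0 < (f x - x) * (g x - x) := by
  have cf := S.cf
  obtain ⟨M, hM, hMW⟩ := exists_min S hx
  obtain ⟨c, D⟩ := exists_dyn S hno h3 hM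
  obtain ⟨x0, x1, x2, x3, m0, m1, m2, m3, l01, l12, l23⟩ := exists_four D.infinite_left
  -- a' = max L
  obtain ⟨a', ha', hamax⟩ := (D.comp.inter_right (isClosed_Iic (a := c))).exists_isGreatest
    ⟨x0, m0.1, m0.2.le⟩
  have hac : a' < c := lt_of_le_of_ne ha'.2 (D.ne_c ha'.1)
  obtain ⟨b', hb', hbmin⟩ := (D.comp.inter_right (isClosed_Ici (a := c))).exists_isLeast
    ⟨_, (D.right.choose_spec).1, (D.right.choose_spec).2.le⟩
  have hcb : c < b' := lt_of_le_of_ne hb'.2 (D.ne_c hb'.1).symm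
  -- z
  obtain ⟨n, hn, hz⟩ := mem_W_iff.1 (hMW m2.1) (Ioo x1 x3) (Ioo_mem_nhds l12 l23) 1
  have hz' : g^[n] x ∈ Ioo x1 x3 := hz
  set z := g^[n] x with hzdef
  have hzK : z ∈ K f g := K_gn S hx n
  have hzper : ∀ k, 0 < k → f^[k] z ≠ z := fun k hk => not_per S hno hzK hk
  have hznc : ∀ m, f^[m] z ≠ c := by
    intro m h
    have := not_per S hno (K_fn S hzK m) (n := 1) one_pos
    rw [h] at this
    exact this D.fc
  obtain ⟨j, hj⟩ := D.dense a' ha'.1 (Iio x1) isOpen_Iio ⟨x0, l01, m0.1⟩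
  have hj' : f^[j] a' < x1 := hj
  have hx3a : x3 ≤ a' := hamax ⟨m3.1, m3.2.le⟩
  have endgame : ∀ e, Icc a' c ⊆ f^[e] '' Icc x1 z → Icc a' c ⊆ f^[e] '' Icc z x3 → False := by
    intro e h1 h2
    have h0 : Icc x1 x3 ⊆ f^[j] '' Icc a' c :=
      cov_of (cf.iterate j) (x := a') (y := c) ⟨le_refl _, hac.le⟩ ⟨hac.le, le_refl _⟩ hj'.le
        (by rw [D.fnc]; linarith)
    have hjpos : 0 < j := by
      rcases Nat.eq_zero_or_pos j with rfl | h
      · simp only [iterate_zero, id_eq] at hj'; linarith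
      · exact h
    exact h3.absurd cf (N := j + e) (by omega) hz'.1.le hz'.2.le (cov_comp h1 h0)
      (cov_comp h2 h0) (hzper _ (by omega))
  have halt : ∀ m, (Even m → f^[m] z < c) ∧ (Odd m → c < f^[m] z) := by
    intro m
    constructor
    · intro hm
      by_contra hcon
      push Not at hcon
      have k1 : f^[m] x1 ≤ a' := hamax ⟨D.iter_mem m1.1 m, ((D.alt m1.1 m1.2 m).1 hm).le⟩
      have k3 : f^[m] x3 ≤ a' := hamax ⟨D.iter_mem m3.1 m, ((D.alt m3.1 m3.2 m).1 hm).le⟩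
      refine endgame m ?_ ?_
      · exact cov_of (cf.iterate m) (x := x1) (y := z) ⟨le_refl _, hz'.1.le⟩
          ⟨hz'.1.le, le_refl _⟩ k1 hcon
      · exact cov_of (cf.iterate m) (x := x3) (y := z) ⟨hz'.2.le, le_refl _⟩
          ⟨le_refl _, hz'.2.le⟩ k3 hcon
    · intro hm
      by_contra hcon
      push Not at hcon
      have k1 : b' ≤ f^[m] x1 := hbmin ⟨D.iter_mem m1.1 m, ((D.alt m1.1 m1.2 m).2 hm).le⟩
      have k3 : b' ≤ f^[m] x3 := hbmin ⟨D.iter_mem m3.1 m, ((D.alt m3.1 m3.2 m).2 hm).le⟩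
      have kb : f b' ≤ a' := hamax ⟨D.inv _ hb'.1, (D.swapR hb'.1 hcb).le⟩
      have q : Icc a' c ⊆ f^[1] '' Icc c b' :=
        cov_of (cf.iterate 1) (x := b') (y := c) ⟨hcb.le, le_refl _⟩ ⟨le_refl _, hcb.le⟩ kb
          (by rw [D.fnc])
      refine endgame (1 + m) (cov_comp ?_ q) (cov_comp ?_ q)
      · exact cov_of (cf.iterate m) (x := z) (y := x1) ⟨hz'.1.le, le_refl _⟩
          ⟨le_refl _, hz'.1.le⟩ hcon k1
      · exact cov_of (cf.iterate m) (x := z) (y := x3) ⟨le_refl _, hz'.2.le⟩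
          ⟨hz'.2.le, le_refl _⟩ hcon k3
  have e0 : f^[n] z = x := fn_gn S hx n
  have e1 : f^[n + 1] z = f x := by rw [iterate_succ_apply', e0]
  obtain ⟨k, rfl⟩ : ∃ k, n = k + 1 := ⟨n - 1, by omega⟩
  have e2 : f^[k] z = g x := by
    rw [← e0, iterate_succ_apply' f k z, gf S (K_fn S hzK k)]
  rcases Nat.even_or_odd k with hk | hk
  · -- k even: x > c
    have i1 := (halt k).1 hk
    have i2 := (halt (k + 1)).2 hk.add_one
    have i3 := (halt (k + 1 + 1)).1 (hk.add_one).add_one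
    rw [e2] at i1; rw [e0] at i2; rw [e1] at i3
    exact mul_pos_of_neg_of_neg (by linarith) (by linarith)
  · have i1 := (halt k).2 hk
    have i2 := (halt (k + 1)).1 hk.add_one
    have i3 := (halt (k + 1 + 1)).2 (hk.add_one).add_one
    rw [e2] at i1; rw [e0] at i2; rw [e1] at i3
    exact mul_pos (by linarith) (by linarith)

/-- Core theorem. -/
theorem core (S : Sys f g a b) (h3 : NoThree f) :
    ∃ x n m, 0 < n ∧ 0 < m ∧ f^[n] x = x ∧ g^[m] x = x := by
  by_contra hcon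
  push Not at hcon
  have hno : NoCommon f g := fun x n m hn hm h => hcon x n m hn hm h
  obtain ⟨y, hy, hlt⟩ := lemA S (fun x hx => hno x 1 1 one_pos one_pos hx.1 hx.2)
  have := key S hno h3 (x := y) hy
  linarith

end Pool.Agent.MP4545
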