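import Mathlib

/-!
Topological entropy (Mathlib's `Dynamics.coverEntropy`): a horseshoe gives positive entropy, and a
monotone interval map has zero entropy.
-/

namespace Pool.Agent.MP4545

open Set Function Filter Topology Dynamics Uniformity ENNReal EReal ExpGrowth UniformSpace
open scoped SetRel

section horseshoe

variable {X : Type*} {F : X → X} {J : Bool → Set X} {n : ℕ}

lemma exists_itin (hne : ∀ b, (J b).Nonempty) (hJ : ∀ b c, J c ⊆ F^[n] '' J b) (m : ℕ) :
    ∀ s : ℕ → Bool, ∃ x ∈ J (s 0), ∀ i ≤ m, F^[n * i] x ∈ J (s i) := by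
  induction m with
  | zero =>
    intro s
    obtain ⟨x, hx⟩ := hne (s 0)
    exact ⟨x, hx, fun i hi => by obtain rfl : i = 0 := by omega
                                 simpa using hx⟩
  | succ m ih =>
    intro s
    obtain ⟨x', hx', h'⟩ := ih (fun i => s (i + 1))
    obtain ⟨x, hx, hxx⟩ := hJ (s 0) (s 1) hx'
    refine ⟨x, hx, ?_⟩
    intro i hi
    rcases i with _ | i
    · simpa using hx
    · rw [show n * (i + 1) = n * i + n by ring, iterate_add_apply, hxx]
      exact h' i (by omega)

/-- Horseshoes have positive entropy. -/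
theorem entropy_pos {X : Type*} [PseudoMetricSpace X] {F : X → X} {J : Bool → Set X} {n : ℕ}
    (hn : n ≠ 0) {ε : ℝ} (hε : 0 < ε) (hsep : ∀ u ∈ J true, ∀ v ∈ J false, ε ≤ dist u v)
    (hne : ∀ b, (J b).Nonempty) (hJ : ∀ b c, J c ⊆ F^[n] '' J b) :
    0 < coverEntropy F (J true ∪ J false) := by
  classical
  have hsep' : ∀ b c, b ≠ c → ∀ u ∈ J b, ∀ v ∈ J c, ε ≤ dist u v := by
    intro b c hbc u hu v hv
    rcases b with _ | _ <;> rcases c with _ | _
    · exact absurd rfl hbc
    · rw [dist_comm]; exact hsep v hv u hu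
    · exact hsep u hu v hv
    · exact absurd rfl hbc
  have hJu : ∀ b, J b ⊆ J true ∪ J false := by
    intro b
    rcases b with _ | _
    · exact subset_union_right
    · exact subset_union_left
  let E : SetRel X X := {p | dist p.1 p.2 < ε / 2}
  have hE : E ∈ 𝓤 X := Metric.dist_mem_uniformity (by linarith)
  have hcard : ∀ m : ℕ, ((2 ^ m : ℕ) : ℕ∞) ≤ netMaxcard F (J true ∪ J false) E (n * m) := by
    intro m
    have hex : ∀ w : Fin m → Bool, ∃ x ∈ J true ∪ J false, ∀ i : Fin m, F^[n * i] x ∈ J (w i) := by
      intro w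
      obtain ⟨x, hx, h⟩ := exists_itin hne hJ m (fun i => if h : i < m then w ⟨i, h⟩ else true)
      refine ⟨x, hJu _ hx, fun i => ?_⟩
      have := h i i.2.le
      simpa using this
    choose x hx hxi using hex
    have hfar : ∀ w w' : Fin m → Bool, w ≠ w' → ∃ i : Fin m,
        ε ≤ dist (F^[n * i] (x w)) (F^[n * i] (x w')) := by
      intro w w' hww
      obtain ⟨i, hi⟩ := Function.ne_iff.1 hww
      exact ⟨i, hsep' _ _ hi _ (hxi w i) _ (hxi w' i)⟩
    have hinj : Injective x := by
      intro w w' h
      by_contra hww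
      obtain ⟨i, hi⟩ := hfar w w' hww
      rw [h, dist_self] at hi
      linarith
    have hnet : IsDynNetIn F (J true ∪ J false) E (n * m)
        ((Finset.univ.image x : Finset X) : Set X) := by
      refine ⟨?_, ?_⟩
      · intro y hy
        simp only [Finset.coe_image, Finset.coe_univ, image_univ, mem_range] at hy
        obtain ⟨w, rfl⟩ := hy
        exact hx w
      · intro y hy y' hy' hyy
        simp only [Finset.coe_image, Finset.coe_univ, image_univ, mem_range] at hy hy'
        obtain ⟨w, rfl⟩ := hy
        obtain ⟨w', rfl⟩ := hy'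
        have hww : w ≠ w' := fun h => hyy (by rw [h])
        obtain ⟨i, hi⟩ := hfar w w' hww
        rw [Function.onFun, Set.disjoint_left]
        intro z hz hz'
        rw [mem_ball_dynEntourage] at hz hz'
        have hlt : n * i < n * m := Nat.mul_lt_mul_of_pos_left i.2 (Nat.pos_of_ne_zero hn)
        have h1 : dist (F^[n * i] (x w)) (F^[n * i] z) < ε / 2 := hz _ hlt
        have h2 : dist (F^[n * i] (x w')) (F^[n * i] z) < ε / 2 := hz' _ hlt
        have := dist_triangle_right (F^[n * i] (x w)) (F^[n * i] (x w')) (F^[n * i] z)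
        linarith
    have := hnet.card_le_netMaxcard
    rw [Finset.card_image_of_injective _ hinj] at this
    simpa using this
  have hmono : Monotone fun m => ((netMaxcard F (J true ∪ J false) E m : ℕ∞) : ℝ≥0∞) :=
    fun _ _ h => ENat.toENNReal_mono (netMaxcard_monotone_time F _ E h)
  have h1 : ENNReal.log 2 ≤ n * netEntropyEntourage F (J true ∪ J false) E := by
    rw [netEntropyEntourage, ← hmono.expGrowthSup_comp_mul hn, ← expGrowthSup_pow (b := 2)]
    refine expGrowthSup_monotone fun m => ?_
    have := ENat.toENNReal_mono (hcard m)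
    simpa using this
  have h2 : (0 : EReal) < ENNReal.log 2 := by simp
  have h3 : 0 < netEntropyEntourage F (J true ∪ J false) E := by
    by_contra hcon
    push Not at hcon
    have : (n : EReal) * netEntropyEntourage F (J true ∪ J false) E ≤ 0 :=
      mul_nonpos_iff.2 (Or.inl ⟨by positivity, hcon⟩)
    exact absurd (h2.trans_le (h1.trans this)) (lt_irrefl _)
  exact h3.trans_le (netEntropyEntourage_le_coverEntropy F (J true ∪ J false) hE)

end horseshoe

end Pool.Agent.MP4545
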