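import Mathlib
import Pool.Agent.Work.MP_4545a8_an.Dyn
import Pool.Agent.Work.MP_4545a8_an.Entropy

/-!
A 3-cycle of an iterate of an interval map gives positive topological entropy on the hull.
-/

namespace Pool.Agent.MP4545

open Set Function Dynamics

lemma strict_horse {H : ℝ → ℝ} (hH : Continuous H) {u z v : ℝ} (huz : u ≤ z) (hzv : z ≤ v)
    (hU : Icc u v ⊆ H '' Icc u z) (hV : Icc u v ⊆ H '' Icc z v) (hz : H z ≠ z) :
    ∃ s t s' t', u ≤ s ∧ s ≤ t ∧ t < s' ∧ s' ≤ t' ∧ t' ≤ v ∧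
      Icc u v ⊆ H^[2] '' Icc s t ∧ Icc u v ⊆ H^[2] '' Icc s' t' := by
  have two : ∀ S : Set ℝ, H^[2] '' S = H '' (H '' S) := fun S => by
    rw [image_image]; rfl
  by_cases hc : H z ∈ Icc z v
  · -- target [u,z]
    obtain ⟨s, t, a1, b1, c1, d1⟩ := exists_sub hH (p := u) (q := z) huz
      ((Icc_subset_Icc_right hzv).trans hU)
    obtain ⟨s', t', a2, b2, c2, d2⟩ := exists_sub hH (p := u) (q := z) huz
      ((Icc_subset_Icc_right hzv).trans hV)
    have htz : t < z := by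
      refine lt_of_le_of_ne c1 ?_
      rintro rfl
      have : H t ∈ Icc u t := by rw [← d1]; exact mem_image_of_mem _ ⟨b1, le_refl _⟩
      exact hz (le_antisymm this.2 hc.1)
    exact ⟨s, t, s', t', a1, b1, by linarith, b2, c2, by rw [two, d1]; exact hU,
      by rw [two, d2]; exact hU⟩
  · obtain ⟨s, t, a1, b1, c1, d1⟩ := exists_sub hH (p := z) (q := v) hzv
      ((Icc_subset_Icc_left huz).trans hU)
    obtain ⟨s', t', a2, b2, c2, d2⟩ := exists_sub hH (p := z) (q := v) hzv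
      ((Icc_subset_Icc_left huz).trans hV)
    have htz : t < z := by
      refine lt_of_le_of_ne c1 ?_
      rintro rfl
      exact hc (by rw [← d1]; exact mem_image_of_mem _ ⟨b1, le_refl _⟩)
    exact ⟨s, t, s', t', a1, b1, by linarith, b2, c2, by rw [two, d1]; exact hV,
      by rw [two, d2]; exact hV⟩

lemma cov1 {F : ℝ → ℝ} (hF : Continuous F) {s t x y p q : ℝ} (hx : x ∈ Icc s t)
    (hy : y ∈ Icc s t) (h1 : F x ≤ p) (h2 : q ≤ F y) : Icc p q ⊆ F '' Icc s t :=
  cov_of hF hx hy h1 h2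

lemma horse_of_cycle {G : ℝ → ℝ} (hG : Continuous G) {p q r : ℝ} (hpq : p < q) (hpr : p < r)
    (hqr : q ≠ r) (h1 : G p = q) (h2 : G q = r) (h3 : G r = p) :
    ∃ s t s' t', p ≤ s ∧ s ≤ t ∧ t < s' ∧ s' ≤ t' ∧ t' ≤ max q r ∧
      Icc p (max q r) ⊆ (G^[2])^[2] '' Icc s t ∧ Icc p (max q r) ⊆ (G^[2])^[2] '' Icc s' t' := by
  have two : ∀ S : Set ℝ, G^[2] '' S = G '' (G '' S) := fun S => by
    rw [image_image]; rfl
  rcases lt_or_gt_of_ne hqr with h | h
  · rw [max_eq_right h.le]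
    have a1 : Icc q r ⊆ G '' Icc p q :=
      cov_of hG (x := p) (y := q) ⟨le_refl _, hpq.le⟩ ⟨hpq.le, le_refl _⟩ h1.le h2.ge
    have a2 : Icc p r ⊆ G '' Icc q r :=
      cov_of hG (x := r) (y := q) ⟨h.le, le_refl _⟩ ⟨le_refl _, h.le⟩ h3.le h2.ge
    have a3 : Icc q r ⊆ G '' Icc q r := (Icc_subset_Icc_left hpq.le).trans a2
    refine strict_horse (hG.iterate 2) (u := p) (z := q) (v := r) hpq.le h.le ?_ ?_ ?_
    · rw [two]; exact a2.trans (image_mono a1)
    · rw [two]; exact a2.trans (image_mono a3)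
    · show G (G q) ≠ q
      rw [h2, h3]; exact hpq.ne
  · rw [max_eq_left h.le]
    have a1 : Icc p q ⊆ G '' Icc p r :=
      cov_of hG (x := r) (y := p) ⟨hpr.le, le_refl _⟩ ⟨le_refl _, hpr.le⟩ h3.le h1.ge
    have a2 : Icc p r ⊆ G '' Icc r q :=
      cov_of hG (x := r) (y := q) ⟨le_refl _, h.le⟩ ⟨h.le, le_refl _⟩ h3.le h2.ge
    have a3 : Icc p r ⊆ G '' Icc p r := (Icc_subset_Icc_right h.le).trans a1
    refine strict_horse (hG.iterate 2) (u := p) (z := r) (v := q) hpr.le h.le ?_ ?_ ?_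
    · rw [two]; exact a1.trans (image_mono a3)
    · rw [two]; exact a1.trans (image_mono a2)
    · show G (G r) ≠ r
      rw [h3, h1]; exact h.ne'

lemma entropy_pos_aux {f : ℝ → ℝ} (cf : Continuous f) {N : ℕ} (hN : N ≠ 0) {p q r : ℝ}
    (hpq : p < q) (hpr : p < r) (hqr : q ≠ r) (h1 : f^[N] p = q) (h2 : f^[N] q = r)
    (h3 : f^[N] r = p) : 0 < coverEntropy f (Icc p (max q r)) := by
  obtain ⟨s, t, s', t', k1, k2, k3, k4, k5, k6, k7⟩ :=
    horse_of_cycle (cf.iterate N) hpq hpr hqr h1 h2 h3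
  have e4 : ((f^[N])^[2])^[2] = f^[N * 2 * 2] := by rw [iterate_mul, iterate_mul]
  rw [e4] at k6 k7
  let J : Bool → Set ℝ := fun b => if b then Icc s t else Icc s' t'
  have hJt : J true = Icc s t := rfl
  have hJf : J false = Icc s' t' := rfl
  have hsub : ∀ b, J b ⊆ Icc p (max q r) := by
    intro b
    cases b
    · rw [hJf]; exact Icc_subset_Icc (by linarith) k5
    · rw [hJt]; exact Icc_subset_Icc k1 (by linarith)
  have hpos : 0 < coverEntropy f (J true ∪ J false) := by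
    refine entropy_pos (n := N * 2 * 2) (by omega) (ε := s' - t) (by linarith) ?_ ?_ ?_
    · intro u hu v hv
      rw [hJt] at hu
      rw [hJf] at hv
      rw [Real.dist_eq]
      have := neg_abs_le (u - v)
      linarith [hu.2, hv.1]
    · intro b
      cases b
      · exact ⟨s', le_refl _, k4⟩
      · exact ⟨s, le_refl _, k2⟩
    · intro b c
      refine (hsub c).trans ?_
      cases b
      · exact k7
      · exact k6
  exact hpos.trans_le (coverEntropy_monotone f (union_subset (hsub _) (hsub _)))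

theorem entropy_pos_of_cycle {f : ℝ → ℝ} (cf : Continuous f) {N : ℕ} {z : ℝ}
    (h3 : f^[N] (f^[N] (f^[N] z)) = z) (h1 : f^[N] z ≠ z) {C : Set ℝ} (hC : C.OrdConnected)
    (m0 : z ∈ C) (m1 : f^[N] z ∈ C) (m2 : f^[N] (f^[N] z) ∈ C) : 0 < coverEntropy f C := by
  have hN : N ≠ 0 := by
    rintro rfl
    exact h1 rfl
  set q := f^[N] z with hq
  set r := f^[N] q with hr
  have hr3 : f^[N] r = z := h3
  have hqz : q ≠ z := h1
  have hrq : r ≠ q := by
    intro h
    have e : f^[N] q = q := hr.symm.trans h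
    rw [h] at hr3
    exact h1 (e.symm.trans hr3)
  have hrz : r ≠ z := by
    intro h
    rw [h] at hr3
    exact h1 hr3
  have hmax : ∀ x y, x ∈ C → y ∈ C → max x y ∈ C := fun x y hx hy => by
    rcases max_choice x y with h | h <;> rw [h] <;> assumption
  have key : ∀ x y w : ℝ, x ∈ C → y ∈ C → w ∈ C → x < y → x < w → y ≠ w → f^[N] x = y →
      f^[N] y = w → f^[N] w = x → 0 < coverEntropy f C := by
    intro x y w hx hy hw hxy hxw hyw e1 e2 e3
    exact (entropy_pos_aux cf hN hxy hxw hyw e1 e2 e3).trans_le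
      (coverEntropy_monotone f (hC.out hx (hmax _ _ hy hw)))
  rcases lt_or_gt_of_ne hqz with a1 | a1
  · -- q < z
    rcases lt_or_gt_of_ne hrq with a2 | a2
    · -- r < q < z : min r
      exact key r z q m2 m0 m1 (a2.trans a1) a2 hqz.symm hr3 hq.symm hr.symm
    · -- q < r, q < z: min q
      exact key q r z m1 m2 m0 a2 a1 hrz hr.symm hr3 hq.symm
  · -- z < q
    rcases lt_or_gt_of_ne hrz with a2 | a2
    · -- r < z < q: min r
      exact key r z q m2 m0 m1 a2 (a2.trans a1) hqz.symm hr3 hq.symm hr.symm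
    · exact key z q r m0 m1 m2 a1 a2 hrq.symm hq.symm hr.symm hr3

end Pool.Agent.MP4545
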