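import Mathlib
import Pool.Agent.Work.MP_4545a8_an.Core
import Pool.Agent.Work.MP_4545a8_an.Cycle

/-!
Spreading: an interval of zero `f`-entropy which meets its images under `f` and `g` produces a
common periodic point.
-/

namespace Pool.Agent.MP4545

open Set Function Dynamics

/-- the increasing family of intervals generated by `J`. -/
def grow (f g : ℝ → ℝ) (J : Set ℝ) : ℕ → Set ℝ
  | 0 => J
  | n + 1 => (grow f g J n ∪ f '' grow f g J n) ∪ g '' (grow f g J n ∪ f '' grow f g J n)

section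
variable {f g : ℝ → ℝ} {a b : ℝ} {J : Set ℝ}

lemma grow_sub (n : ℕ) : grow f g J n ⊆ grow f g J (n + 1) :=
  subset_union_left.trans subset_union_left

lemma grow_mono : Monotone (grow f g J) := monotone_nat_of_le_succ grow_sub

lemma grow_f (n : ℕ) : f '' grow f g J n ⊆ grow f g J (n + 1) :=
  subset_union_right.trans subset_union_left

lemma grow_g (n : ℕ) : g '' grow f g J n ⊆ grow f g J (n + 1) :=
  (image_mono subset_union_left).trans subset_union_right

lemma J_sub_grow (n : ℕ) : J ⊆ grow f g J n := grow_mono (Nat.zero_le n)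

lemma grow_Icc (S : Sys f g a b) (hJ : J ⊆ Icc a b) (n : ℕ) : grow f g J n ⊆ Icc a b := by
  induction n with
  | zero => exact hJ
  | succ n ih =>
    refine union_subset (union_subset ih ?_) ?_
    · rintro _ ⟨x, -, rfl⟩; exact S.rf x
    · rintro _ ⟨x, -, rfl⟩; exact S.rg x

lemma grow_preconn (S : Sys f g a b) (hJ : IsPreconnected J) (hf : (J ∩ f '' J).Nonempty)
    (hg : (J ∩ g '' J).Nonempty) (n : ℕ) : IsPreconnected (grow f g J n) := by
  induction n with
  | zero => exact hJ
  | succ n ih =>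
    obtain ⟨x, hx, y, hy, exy⟩ := hf
    obtain ⟨x', hx', y', hy', exy'⟩ := hg
    have h1 : IsPreconnected (grow f g J n ∪ f '' grow f g J n) :=
      ih.union x (J_sub_grow n hx) ⟨y, J_sub_grow n hy, exy⟩ (ih.image _ S.cf.continuousOn)
    exact h1.union x' (Or.inl (J_sub_grow n hx')) ⟨y', Or.inl (J_sub_grow n hy'), exy'⟩
      (h1.image _ S.cg.continuousOn)

lemma grow_entropy (S : Sys f g a b) (uf : UniformContinuous f) (ug : UniformContinuous g)
    (h0 : coverEntropy f J ≤ 0) (n : ℕ) : coverEntropy f (grow f g J n) ≤ 0 := by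
  induction n with
  | zero => exact h0
  | succ n ih =>
    have h1 : coverEntropy f (f '' grow f g J n) ≤ 0 :=
      (coverEntropy_image_le_of_uniformContinuous (S := f) (T := f) (φ := f)
        (fun x => rfl) uf _).trans ih
    have h2 : coverEntropy f (grow f g J n ∪ f '' grow f g J n) ≤ 0 := by
      rw [coverEntropy_union]; exact max_le ih h1
    have h3 : coverEntropy f (g '' (grow f g J n ∪ f '' grow f g J n)) ≤ 0 :=
      (coverEntropy_image_le_of_uniformContinuous (S := f) (T := f) (φ := g)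
        (fun x => (S.comm x).symm) ug _).trans h2
    show coverEntropy f ((grow f g J n ∪ f '' grow f g J n) ∪
      g '' (grow f g J n ∪ f '' grow f g J n)) ≤ 0
    rw [coverEntropy_union]
    exact max_le h2 h3

/-- restriction of a system to an invariant closed interval -/
lemma core_on (S : Sys f g a b) {α β : ℝ} (hαβ : α ≤ β) (if' : ∀ x ∈ Icc α β, f x ∈ Icc α β)
    (ig : ∀ x ∈ Icc α β, g x ∈ Icc α β)
    (h3 : ∀ N, 0 < N → ∀ x ∈ Icc α β, f^[N] (f^[N] (f^[N] x)) = x → f^[N] x = x) :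
    ∃ x ∈ Icc α β, ∃ n m, 0 < n ∧ 0 < m ∧ f^[n] x = x ∧ g^[m] x = x := by
  have cf := S.cf
  have cg := S.cg
  set p : ℝ → ℝ := fun x => max α (min x β) with hp
  have cp : Continuous p := by fun_prop
  have pm : ∀ x, p x ∈ Icc α β := fun x => ⟨le_max_left _ _, max_le hαβ (min_le_right _ _)⟩
  have pid : ∀ x ∈ Icc α β, p x = x := fun x hx => by
    simp only [hp]; rw [min_eq_left hx.2, max_eq_right hx.1]
  have iter : ∀ (φ : ℝ → ℝ), (∀ x ∈ Icc α β, φ x ∈ Icc α β) → ∀ n, ∀ x ∈ Icc α β,
      (fun y => φ (p y))^[n] x = φ^[n] x ∧ φ^[n] x ∈ Icc α β := by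
    intro φ hφ n
    induction n with
    | zero => intro x hx; exact ⟨rfl, hx⟩
    | succ n ih =>
      intro x hx
      obtain ⟨h1, h2⟩ := ih x hx
      rw [iterate_succ_apply', iterate_succ_apply', h1, pid _ h2]
      exact ⟨rfl, hφ _ h2⟩
  have S' : Sys (fun y => f (p y)) (fun y => g (p y)) α β := by
    refine ⟨by fun_prop, by fun_prop, ?_, fun x => if' _ (pm x), fun x => ig _ (pm x)⟩
    intro x
    show f (p (g (p x))) = g (p (f (p x)))
    rw [pid _ (ig _ (pm x)), pid _ (if' _ (pm x)), S.comm]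
  have hrange : ∀ (φ : ℝ → ℝ), (∀ x ∈ Icc α β, φ x ∈ Icc α β) → ∀ n, 0 < n → ∀ x,
      (fun y => φ (p y))^[n] x ∈ Icc α β := by
    intro φ hφ n hn x
    obtain ⟨k, rfl⟩ : ∃ k, n = k + 1 := ⟨n - 1, by omega⟩
    rw [iterate_succ_apply']
    exact hφ _ (pm _)
  have N3 : NoThree (fun y => f (p y)) := by
    intro N hN x hx
    have hxm : x ∈ Icc α β := by
      have := hrange f if' N hN ((fun y => f (p y))^[N] ((fun y => f (p y))^[N] x))
      rwa [hx] at this
    have e1 := iter f if' N x hxm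
    have e2 := iter f if' N _ e1.2
    have e3 := iter f if' N _ e2.2
    rw [e1.1, e2.1, e3.1] at hx
    rw [e1.1]
    exact h3 N hN x hxm hx
  obtain ⟨x, n, m, hn, hm, h1, h2⟩ := core S' N3
  have hxm : x ∈ Icc α β := by rw [← h1]; exact hrange f if' n hn x
  refine ⟨x, hxm, n, m, hn, hm, ?_, ?_⟩
  · rw [← (iter f if' n x hxm).1]; exact h1
  · rw [← (iter g ig m x hxm).1]; exact h2

theorem spread (S : Sys f g a b) (uf : UniformContinuous f) (ug : UniformContinuous g)
    (hJ : J.OrdConnected) (hJab : J ⊆ Icc a b) (hf : (J ∩ f '' J).Nonempty)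
    (hg : (J ∩ g '' J).Nonempty) (h0 : coverEntropy f J ≤ 0) :
    ∃ x ∈ Icc a b, ∃ n m, 0 < n ∧ 0 < m ∧ f^[n] x = x ∧ g^[m] x = x := by
  set B : Set ℝ := ⋃ n, grow f g J n with hB
  have hBab : B ⊆ Icc a b := iUnion_subset fun n => grow_Icc S hJab n
  have hBf : ∀ x ∈ B, f x ∈ B := by
    intro x hx
    obtain ⟨n, hn⟩ := mem_iUnion.1 hx
    exact mem_iUnion.2 ⟨n + 1, grow_f n (mem_image_of_mem _ hn)⟩
  have hBg : ∀ x ∈ B, g x ∈ B := by
    intro x hx
    obtain ⟨n, hn⟩ := mem_iUnion.1 hx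
    exact mem_iUnion.2 ⟨n + 1, grow_g n (mem_image_of_mem _ hn)⟩
  have hpre : ∀ n, IsPreconnected (grow f g J n) :=
    grow_preconn S hJ.isPreconnected hf hg
  have hBne : B.Nonempty := by
    obtain ⟨x, hx, -⟩ := hf
    exact ⟨x, mem_iUnion.2 ⟨0, hx⟩⟩
  have hBpre : IsPreconnected B := by
    obtain ⟨x, hx, -⟩ := hf
    exact isPreconnected_iUnion ⟨x, mem_iInter.2 fun n => J_sub_grow n hx⟩ hpre
  have hBord : B.OrdConnected := hBpre.ordConnected
  have hbb : BddBelow B := ⟨a, fun x hx => (hBab hx).1⟩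
  have hba : BddAbove B := ⟨b, fun x hx => (hBab hx).2⟩
  set α := sInf B with hα
  set β := sSup B with hβ
  have hsub : B ⊆ Icc α β := fun x hx => ⟨csInf_le hbb hx, le_csSup hba hx⟩
  have hαβ : α ≤ β := by
    obtain ⟨x, hx⟩ := hBne
    exact (hsub hx).1.trans (hsub hx).2
  have hcases : ∀ x ∈ Icc α β, x ∈ B ∨ x = α ∨ x = β := by
    intro x hx
    rcases eq_or_lt_of_le hx.1 with h | h
    · exact Or.inr (Or.inl h.symm)
    rcases eq_or_lt_of_le hx.2 with h' | h'
    · exact Or.inr (Or.inr h')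
    obtain ⟨y, hy, hyx⟩ := exists_lt_of_csInf_lt hBne h
    obtain ⟨z, hz, hxz⟩ := exists_lt_of_lt_csSup hBne h'
    exact Or.inl (hBord.out hy hz ⟨hyx.le, hxz.le⟩)
  have hcl : Icc α β ⊆ closure B := by
    intro x hx
    rcases hcases x hx with h | rfl | rfl
    · exact subset_closure h
    · exact csInf_mem_closure hBne hbb
    · exact csSup_mem_closure hBne hba
  have hcl' : closure B ⊆ Icc α β := closure_minimal hsub isClosed_Icc
  have if' : ∀ x ∈ Icc α β, f x ∈ Icc α β := fun x hx =>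
    hcl' (map_mem_closure S.cf (hcl hx) hBf)
  have ig : ∀ x ∈ Icc α β, g x ∈ Icc α β := fun x hx =>
    hcl' (map_mem_closure S.cg (hcl hx) hBg)
  have hαβab : Icc α β ⊆ Icc a b := hcl.trans (closure_minimal hBab isClosed_Icc)
  have ifN : ∀ N, ∀ x ∈ Icc α β, f^[N] x ∈ Icc α β := by
    intro N
    induction N with
    | zero => intro x hx; exact hx
    | succ N ih => intro x hx; rw [iterate_succ_apply']; exact if' _ (ih x hx)
  have hBfN : ∀ N, ∀ x ∈ B, f^[N] x ∈ B := by
    intro N
    induction N with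
    | zero => intro x hx; exact hx
    | succ N ih => intro x hx; rw [iterate_succ_apply']; exact hBf _ (ih x hx)
  obtain ⟨x, hx, n, m, hn, hm, h1, h2⟩ := core_on S hαβ if' ig (by
    intro N hN x hx h3
    by_contra h1
    set q := f^[N] x with hq
    set r := f^[N] q with hr
    have hqI : q ∈ Icc α β := ifN N x hx
    have hrI : r ∈ Icc α β := ifN N q hqI
    have hqr : q ≠ r := by
      intro h
      have e : f^[N] q = q := hr.symm.trans h.symm
      rw [← h] at h3
      exact h1 (e.symm.trans h3)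
    have hrx : r ≠ x := by
      intro h
      rw [h] at h3
      exact h1 h3
    have hxB : x ∉ B := by
      intro hxB
      have hqB : q ∈ B := hBfN N x hxB
      have hrB : r ∈ B := hBfN N q hqB
      obtain ⟨n1, k1⟩ := mem_iUnion.1 hxB
      obtain ⟨n2, k2⟩ := mem_iUnion.1 hqB
      obtain ⟨n3, k3⟩ := mem_iUnion.1 hrB
      have l1 : n1 ≤ n1 + n2 + n3 := by omega
      have l2 : n2 ≤ n1 + n2 + n3 := by omega
      have l3 : n3 ≤ n1 + n2 + n3 := by omega
      have hpos := entropy_pos_of_cycle S.cf (N := N) (z := x) h3 h1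
        (C := grow f g J (n1 + n2 + n3)) (hpre _).ordConnected (grow_mono l1 k1)
        (grow_mono l2 k2) (grow_mono l3 k3)
      exact absurd (grow_entropy S uf ug h0 (n1 + n2 + n3)) (not_le.2 hpos)
    have hrB : r ∉ B := fun h => hxB (by rw [← h3]; exact hBfN N r h)
    have hqB : q ∉ B := fun h => hrB (hBfN N q h)
    rcases (hcases x hx).resolve_left hxB with e1 | e1 <;>
    rcases (hcases q hqI).resolve_left hqB with e2 | e2 <;>
    rcases (hcases r hrI).resolve_left hrB with e3 | e3 <;>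
    first
      | exact h1 (e2.trans e1.symm)
      | exact hqr (e2.trans e3.symm)
      | exact hrx (e3.trans e1.symm))
  exact ⟨x, hαβab hx, n, m, hn, hm, h1, h2⟩

end

end Pool.Agent.MP4545
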