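import Mathlib
import Pool.Agent.Work.MP_4545a8_an.Spread
import Pool.Agent.Work.MP_4545a8_an.Mono

/-!
Local criteria: minimal sets of `g` inside the fixed point set of `f`.
-/

namespace Pool.Agent.MP4545

open Set Function Filter Topology Dynamics

variable {f g : ℝ → ℝ} {a b : ℝ}

/-- minimal closed `g`-invariant subsets of `Fix f`. -/
theorem exists_gmin (S : Sys f g a b) : ∃ M : Set ℝ, IsClosed M ∧ M.Nonempty ∧
    (∀ x ∈ M, f x = x) ∧ (∀ x ∈ M, g x ∈ M) ∧ ∀ m ∈ M, M ⊆ W (fun n => g^[n] m) := by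
  have cf := S.cf
  have hab : a ≤ b := (S.rf 0).1.trans (S.rf 0).2
  set A : Set ℝ := {x | f x = x} with hA
  have hAc : IsClosed A := isClosed_eq S.cf continuous_id
  have hAab : A ⊆ Icc a b := fun x hx => by
    have h : f x = x := hx
    rw [← h]; exact S.rf x
  have hAne : A.Nonempty := by
    obtain ⟨x, hx, ex⟩ := ivt_zero (F := fun x => f x - x) (by fun_prop) hab
      (by linarith [(S.rf a).1]) (by linarith [(S.rf b).2])
    exact ⟨x, show f x = x by linarith⟩
  have hAg : ∀ y ∈ A, g y ∈ A := fun y hy => by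
    show f (g y) = g y
    rw [S.comm, show f y = y from hy]
  let 𝒞 : Set (Set ℝ) := {C | IsClosed C ∧ C.Nonempty ∧ C ⊆ A ∧ (∀ y ∈ C, g y ∈ C)}
  have hcomp : ∀ C ∈ 𝒞, IsCompact C := fun C hC =>
    (isCompact_Icc (a := a) (b := b)).of_isClosed_subset hC.1 (hC.2.2.1.trans hAab)
  obtain ⟨M, hM⟩ := zorn_superset 𝒞 (by
    intro c hc hchain
    rcases c.eq_empty_or_nonempty with rfl | hne
    · exact ⟨A, ⟨hAc, hAne, Subset.rfl, hAg⟩, by simp⟩
    · have : Nonempty c := hne.to_subtype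
      refine ⟨⋂₀ c, ⟨isClosed_sInter fun C hC => (hc hC).1, ?_, ?_, ?_⟩,
        fun s hs => sInter_subset_of_mem hs⟩
      · apply IsCompact.nonempty_sInter_of_directed_nonempty_isCompact_isClosed
        · intro s hs t ht
          rcases hchain.total hs ht with h | h
          · exact ⟨s, hs, Subset.rfl, h⟩
          · exact ⟨t, ht, h, Subset.rfl⟩
        · exact fun U hU => (hc hU).2.1
        · exact fun U hU => hcomp U (hc hU)
        · exact fun U hU => (hc hU).1
      · obtain ⟨C, hC⟩ := hne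
        exact (sInter_subset_of_mem hC).trans (hc hC).2.2.1
      · intro y hy C hC
        exact (hc hC).2.2.2 y (hy C hC))
  have hMm : M ∈ 𝒞 := hM.prop
  refine ⟨M, hMm.1, hMm.2.1, fun x hx => hMm.2.2.1 hx, hMm.2.2.2, ?_⟩
  intro m hm
  have hit : ∀ n, g^[n] m ∈ M := by
    intro n
    induction n with
    | zero => exact hm
    | succ n ih => rw [iterate_succ_apply']; exact hMm.2.2.2 _ ih
  have hWM : W (fun n => g^[n] m) ⊆ M := W_subset hMm.1 hit
  have hW : W (fun n => g^[n] m) ∈ 𝒞 := by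
    refine ⟨isClosed_W _, W_nonempty (hcomp M hMm) hit, hWM.trans hMm.2.2.1, ?_⟩
    intro y hy
    exact W_map S.cg (fun n => by
      show g (g^[n] m) = g^[n+1] m
      rw [iterate_succ_apply']) hy
  exact hM.le_of_le hW hWM

lemma Sys.iterate_right (S : Sys f g a b) {n : ℕ} (hn : 0 < n) : Sys f g^[n] a b := by
  refine ⟨S.cf, S.cg.iterate n, ?_, S.rf, ?_⟩
  · intro x
    have : Function.Commute f g := fun x => S.comm x
    exact (this.iterate_right n) x
  · intro x
    obtain ⟨k, rfl⟩ : ∃ k, n = k + 1 := ⟨n - 1, by omega⟩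
    rw [iterate_succ_apply']
    exact S.rg _

/-- Main local criterion. -/
theorem perfect_case (S : Sys f g a b) (uf : UniformContinuous f) (ug : UniformContinuous g)
    (H : ∀ M : Set ℝ, Perfect M → M.Nonempty → (∀ x ∈ M, f x = x) →
      ∃ x y : ℝ, (Ioo x y ∩ M).Nonempty ∧ coverEntropy f (Icc x y ∩ Icc a b) ≤ 0) :
    ∃ x ∈ Icc a b, ∃ n m, 0 < n ∧ 0 < m ∧ f^[n] x = x ∧ g^[m] x = x := by
  by_contra hcon
  push Not at hcon
  obtain ⟨M, hMc, hMne, hMf, hMinv, hMg⟩ := exists_gmin S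
  have hMab : M ⊆ Icc a b := fun x hx => by rw [← hMf x hx]; exact S.rf x
  have hper : ∀ m ∈ M, ∀ n, 0 < n → g^[n] m ≠ m := fun m hm n hn h =>
    hcon m (hMab hm) 1 n one_pos hn (hMf m hm) h
  have hperf : Perfect M := by
    refine ⟨hMc, ?_⟩
    rw [preperfect_iff_nhds]
    intro m hm U hU
    obtain ⟨n, hn, hnU⟩ := mem_W_iff.1 (hMg m hm hm) U hU 1
    refine ⟨g^[n] m, ⟨hnU, ?_⟩, hper m hm n hn⟩
    -- g^[n] m ∈ M
    have : ∀ n, g^[n] m ∈ M := by
      intro n
      induction n with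
      | zero => exact hm
      | succ n ih => rw [iterate_succ_apply']; exact hMinv _ ih
    exact this n
  obtain ⟨x, y, ⟨m, hmI, hmM⟩, h0⟩ := H M hperf hMne hMf
  obtain ⟨n, hn, hnU⟩ := mem_W_iff.1 (hMg m hmM hmM) (Ioo x y) (isOpen_Ioo.mem_nhds hmI) 1
  have hn' : 0 < n := hn
  have hnI : g^[n] m ∈ Ioo x y := hnU
  have S' := S.iterate_right hn'
  obtain ⟨z, hz, p, q, hp, hq, h1, h2⟩ := spread S' uf (by
      have : ∀ k, UniformContinuous g^[k] := fun k => by
        induction k with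
        | zero => exact uniformContinuous_id
        | succ k ih => rw [iterate_succ']; exact ug.comp ih
      exact this n) (J := Icc x y ∩ Icc a b)
    (ordConnected_Icc.inter ordConnected_Icc) inter_subset_right
    ⟨m, ⟨⟨hmI.1.le, hmI.2.le⟩, hMab hmM⟩, m, ⟨⟨hmI.1.le, hmI.2.le⟩, hMab hmM⟩, hMf m hmM⟩
    ⟨g^[n] m, ⟨⟨hnI.1.le, hnI.2.le⟩, S'.rg m⟩, m, ⟨⟨hmI.1.le, hmI.2.le⟩, hMab hmM⟩, rfl⟩ h0
  refine hcon z hz p (n * q) hp (Nat.mul_pos hn' hq) h1 ?_
  rw [iterate_mul]; exact h2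

/-- local monotonicity relative to `[a,b]`. -/
def LM (f : ℝ → ℝ) (a b x : ℝ) : Prop :=
  ∃ U ∈ 𝓝 x, MonotoneOn f (U ∩ Icc a b) ∨ AntitoneOn f (U ∩ Icc a b)

lemma mem_of_accPt {x : ℝ} (hf : Continuous f) (h : AccPt x (𝓟 {z | f z = z})) : f x = x := by
  have hc : IsClosed {z | f z = z} := isClosed_eq hf continuous_id
  have h2 : ClusterPt x (𝓟 {z | f z = z}) := h.clusterPt
  exact (isClosed_iff_clusterPt.1 hc) x h2

theorem lm_case (S : Sys f g a b) (uf : UniformContinuous f) (ug : UniformContinuous g)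
    (H : {x | AccPt x (𝓟 {z | f z = z}) ∧ ¬ LM f a b x}.Countable) :
    ∃ x ∈ Icc a b, ∃ n m, 0 < n ∧ 0 < m ∧ f^[n] x = x ∧ g^[m] x = x := by
  refine perfect_case S uf ug ?_
  intro M hM hMne hMf
  have hMab : M ⊆ Icc a b := fun x hx => by rw [← hMf x hx]; exact S.rf x
  -- `M` is uncountable
  have hunc : ¬ M.Countable := by
    intro hc
    have h7 : Cardinal.mk (ℕ → Bool) = 2 ^ Cardinal.aleph0 := by simp
    obtain ⟨φ, h1, -, h3⟩ := hM.exists_nat_bool_injection hMne
    have h4 : (range φ).Countable := hc.mono h1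
    have h5 : Countable (ℕ → Bool) := by
      have : Countable (range φ) := h4.to_subtype
      exact (Equiv.ofInjective φ h3).injective.countable
    have h6 : Cardinal.mk (ℕ → Bool) ≤ Cardinal.aleph0 := Cardinal.mk_le_aleph0
    rw [h7] at h6
    exact absurd h6 (not_le.2 (Cardinal.cantor _))
  obtain ⟨m, hm, hmL⟩ : ∃ m ∈ M, LM f a b m := by
    by_contra hno
    push Not at hno
    refine hunc (H.mono ?_)
    intro m hm
    exact ⟨(hM.acc m hm).mono (principal_mono.2 fun z hz => hMf z hz), hno m hm⟩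
  obtain ⟨U, hU, hmono⟩ := hmL
  obtain ⟨ε, hε, hεU⟩ := Metric.mem_nhds_iff.1 hU
  have hacc := (hM.acc m hm).nhds_inter (Metric.ball_mem_nhds m hε)
  obtain ⟨x0, x1, x2, x3, m0, m1, m2, -, l01, l12, -⟩ := exists_four (Set.Infinite.of_accPt hacc)
  have hsub : Icc x0 x2 ⊆ U ∩ Icc a b := by
    intro z hz
    refine ⟨hεU ?_, ⟨(hMab m0.2).1.trans hz.1, hz.2.trans (hMab m2.2).2⟩⟩
    have k0 := m0.1
    have k2 := m2.1
    rw [Real.ball_eq_Ioo] at k0 k2 ⊢
    exact ⟨by linarith [k0.1, hz.1], by linarith [k2.2, hz.2]⟩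
  have f0 := hMf _ m0.2
  have f2 := hMf _ m2.2
  have hmon : MonotoneOn f (Icc x0 x2) := by
    rcases hmono with h | h
    · exact h.mono hsub
    · have := h (hsub ⟨le_refl _, by linarith⟩) (hsub ⟨by linarith, le_refl _⟩)
        (by linarith : x0 ≤ x2)
      rw [f0, f2] at this
      linarith
  refine ⟨x0, x2, ⟨x1, ⟨l01, l12⟩, m1.2⟩, ?_⟩
  have : Icc x0 x2 ∩ Icc a b = Icc x0 x2 := inter_eq_left.2 fun z hz => (hsub hz).2
  rw [this]
  exact entropy_mono S.cf (by linarith) f0 f2 hmon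

/-- `C¹` maps are locally monotone at accumulation points of fixed points. -/
lemma lm_of_C1 (cf : Continuous f) (rf : ∀ x, f x ∈ Icc a b) {F : ℝ → ℝ}
    (hF : ContDiffOn ℝ 1 F (Icc a b)) (hFf : ∀ x ∈ Icc a b, F x = f x) {x : ℝ}
    (hx : AccPt x (𝓟 {z | f z = z})) : LM f a b x := by
  have fx : f x = x := mem_of_accPt cf hx
  have hxI : x ∈ Icc a b := by rw [← fx]; exact rf x
  have hfix : {z | f z = z} ⊆ Icc a b := fun z hz => by
    have h : f z = z := hz
    rw [← h]; exact rf z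
  -- a < b
  have hab : a < b := by
    have h1 := hx.nhds_inter (Filter.univ_mem)
    rw [univ_inter] at h1
    have h2 := Set.Infinite.of_accPt h1
    by_contra hle
    push Not at hle
    exact h2 ((Set.subsingleton_Icc_of_ge hle).finite.subset hfix)
  have hU : UniqueDiffOn ℝ (Icc a b) := uniqueDiffOn_Icc hab
  have hdiff : DifferentiableOn ℝ F (Icc a b) := hF.differentiableOn one_ne_zero
  have hFx : F x = x := by rw [hFf x hxI, fx]
  -- the derivative is one
  have hder := (hdiff x hxI).hasDerivWithinAt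
  have hone : derivWithin F (Icc a b) x = 1 := by
    rw [hasDerivWithinAt_iff_tendsto_slope] at hder
    have hle : 𝓝[≠] x ⊓ 𝓟 {z | f z = z} ≤ 𝓝[Icc a b \ {x}] x := by
      rw [nhdsWithin, nhdsWithin, Set.sdiff_eq, ← inf_principal, inf_assoc]
      refine inf_le_inf_left _ ?_
      rw [inf_comm]
      exact inf_le_inf_right _ (principal_mono.2 hfix)
    have : (𝓝[≠] x ⊓ 𝓟 {z | f z = z}).NeBot := hx
    have h1 : Tendsto (slope F x) (𝓝[≠] x ⊓ 𝓟 {z | f z = z}) (𝓝 1) := by
      refine tendsto_const_nhds.congr' ?_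
      have hev : ∀ᶠ z in 𝓝[≠] x ⊓ 𝓟 {z | f z = z}, z ≠ x ∧ f z = z := by
        refine Filter.Eventually.and ?_ ?_
        · exact (inf_le_left : 𝓝[≠] x ⊓ 𝓟 {z | f z = z} ≤ 𝓝[≠] x) self_mem_nhdsWithin
        · exact (inf_le_right : 𝓝[≠] x ⊓ 𝓟 {z | f z = z} ≤ 𝓟 {z | f z = z})
            (mem_principal_self _)
      filter_upwards [hev] with z hz
      rw [slope_def_field, hFx, hFf z (hfix hz.2), hz.2, div_self (sub_ne_zero.2 hz.1)]
    exact tendsto_nhds_unique (hder.mono_left hle) h1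
  have hcont : ContinuousOn (derivWithin F (Icc a b)) (Icc a b) :=
    hF.continuousOn_derivWithin hU le_rfl
  have hev : ∀ᶠ z in 𝓝[Icc a b] x, 0 < derivWithin F (Icc a b) z :=
    (hcont x hxI).eventually (by rw [hone]; exact lt_mem_nhds one_pos)
  rw [eventually_nhdsWithin_iff] at hev
  obtain ⟨ε, hε, hball⟩ := Metric.eventually_nhds_iff_ball.1 hev
  refine ⟨Metric.ball x ε, Metric.ball_mem_nhds x hε, Or.inl ?_⟩
  have hmon : MonotoneOn F (Metric.ball x ε ∩ Icc a b) := by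
    have hint : interior (Metric.ball x ε ∩ Icc a b) ⊆ Metric.ball x ε ∩ Ioo a b := by
      rw [interior_inter, interior_Icc, Metric.isOpen_ball.interior_eq]
    refine monotoneOn_of_deriv_nonneg ((convex_ball x ε).inter (convex_Icc a b))
      (hF.continuousOn.mono inter_subset_right) ?_ ?_
    · intro z hz
      have hz' := hint hz
      exact ((hdiff z (Ioo_subset_Icc_self hz'.2)).differentiableAt
        (Icc_mem_nhds hz'.2.1 hz'.2.2)).differentiableWithinAt
    · intro z hz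
      have hz' := hint hz
      rw [← derivWithin_of_mem_nhds (Icc_mem_nhds hz'.2.1 hz'.2.2)]
      exact (hball z hz'.1 (Ioo_subset_Icc_self hz'.2)).le
  intro u hu v hv huv
  rw [← hFf u hu.2, ← hFf v hv.2]
  exact hmon hu hv huv

end Pool.Agent.MP4545
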