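import Mathlib
import Pool.Agent.Work.MP_4545a8_an.Local

/-!
Transfer between self-maps of `Icc a b` and maps of the line.
-/

namespace Pool.Agent.MP4545

open Set Function Filter Topology Dynamics

section algebra

variable {X : Type*} {f g : X → X}

lemma cancel_iter {h : X → X} {p q : ℕ} {x y : X} (hpq : p < q) (h1 : h^[p] y = x)
    (h2 : h^[q] y = x) : 0 < q - p ∧ h^[q - p] x = x := by
  refine ⟨by omega, ?_⟩
  have : h^[q - p] (h^[p] y) = x := by
    rw [← iterate_add_apply, show q - p + p = q by omega, h2]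
  rwa [h1] at this

lemma mul_iter (hfg : Function.Commute f g) {u v : ℕ} {x : X} (h : f^[u] (g^[v] x) = x) (k : ℕ) :
    f^[k * u] (g^[k * v] x) = x := by
  induction k with
  | zero => simp
  | succ k ih =>
    have hc : Function.Commute f^[k * u] g^[v] := hfg.iterate_iterate _ _
    calc f^[(k + 1) * u] (g^[(k + 1) * v] x)
        = f^[u] (f^[k * u] (g^[v] (g^[k * v] x))) := by
          rw [show (k + 1) * u = u + k * u by ring, show (k + 1) * v = v + k * v by ring,
            iterate_add_apply, iterate_add_apply]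
      _ = f^[u] (g^[v] (f^[k * u] (g^[k * v] x))) := by rw [hc.eq]
      _ = x := by rw [ih, h]

lemma indep (hfg : Function.Commute f g) {s t s' t' : ℕ} (hdet : s * t' ≠ t * s') {x : X}
    {m n : ℕ} (hm : 0 < m) (hn : 0 < n) (h1 : (f^[s] ∘ g^[t])^[m] x = x)
    (h2 : (f^[s'] ∘ g^[t'])^[n] x = x) : x ∈ periodicPts f ∩ periodicPts g := by
  rw [(hfg.iterate_iterate s t).comp_iterate, ← iterate_mul, ← iterate_mul] at h1
  rw [(hfg.iterate_iterate s' t').comp_iterate, ← iterate_mul, ← iterate_mul] at h2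
  have a1 : f^[s * m * n] (g^[t * m * n] x) = x := by
    have := mul_iter hfg h1 n
    rwa [show n * (s * m) = s * m * n by ring, show n * (t * m) = t * m * n by ring] at this
  have a2 : f^[s' * m * n] (g^[t' * m * n] x) = x := by
    have := mul_iter hfg h2 m
    rwa [show m * (s' * n) = s' * m * n by ring, show m * (t' * n) = t' * m * n by ring] at this
  set P := m * n with hP
  have hPpos : 0 < P := Nat.mul_pos hm hn
  rw [mul_assoc, ← hP, mul_assoc, ← hP] at a1 a2
  -- equal powers of `g`
  have b1 := mul_iter hfg a1 (t' * P)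
  have b2 := mul_iter hfg a2 (t * P)
  have e1 : t' * P * (t * P) = t * P * (t' * P) := by ring
  rw [e1] at b1
  -- equal powers of `f`
  have hgf : Function.Commute g f := hfg.symm
  have c1 : g^[t * P] (f^[s * P] x) = x := by
    rw [← (hfg.iterate_iterate (s * P) (t * P)).eq]; exact a1
  have c2 : g^[t' * P] (f^[s' * P] x) = x := by
    rw [← (hfg.iterate_iterate (s' * P) (t' * P)).eq]; exact a2
  have d1 := mul_iter hgf c1 (s' * P)
  have d2 := mul_iter hgf c2 (s * P)
  have e2 : s' * P * (s * P) = s * P * (s' * P) := by ring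
  rw [e2] at d1
  have hne : t' * P * (s * P) ≠ t * P * (s' * P) := by
    intro h
    apply hdet
    have : (s * t') * (P * P) = (t * s') * (P * P) := by linarith [h, mul_comm (t' * P) (s * P)]
    exact Nat.eq_of_mul_eq_mul_right (Nat.mul_pos hPpos hPpos) this
  have hne2 : s' * P * (t * P) ≠ s * P * (t' * P) := by
    intro h
    apply hne
    rw [mul_comm (t' * P), mul_comm (t * P)]
    exact h.symm
  constructor
  · rcases lt_or_gt_of_ne hne with h | h
    · obtain ⟨k1, k2⟩ := cancel_iter h b1 b2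
      exact ⟨_, k1, k2⟩
    · obtain ⟨k1, k2⟩ := cancel_iter h b2 b1
      exact ⟨_, k1, k2⟩
  · rcases lt_or_gt_of_ne hne2 with h | h
    · obtain ⟨k1, k2⟩ := cancel_iter h d1 d2
      exact ⟨_, k1, k2⟩
    · obtain ⟨k1, k2⟩ := cancel_iter h d2 d1
      exact ⟨_, k1, k2⟩

end algebra

section ext

variable {a b : ℝ}

/-- extension of a self-map of `[a,b]` to the line -/
noncomputable def ext (hab : a ≤ b) (φ : Icc a b → Icc a b) : ℝ → ℝ :=
  fun x => (φ (projIcc a b hab x) : ℝ)

variable {hab : a ≤ b} {φ ψ : Icc a b → Icc a b}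

lemma ext_val (x : Icc a b) : ext hab φ (x : ℝ) = (φ x : ℝ) := by
  unfold ext
  rw [projIcc_val]

lemma ext_iter (n : ℕ) (x : Icc a b) : (ext hab φ)^[n] (x : ℝ) = (φ^[n] x : Icc a b) := by
  induction n with
  | zero => rfl
  | succ n ih => rw [iterate_succ_apply', iterate_succ_apply', ih, ext_val]

lemma ext_uc (hφ : Continuous φ) : UniformContinuous (ext hab φ) := by
  have h1 : UniformContinuous φ := CompactSpace.uniformContinuous_of_continuous hφ
  have h2 : UniformContinuous (projIcc a b hab) := (LipschitzWith.projIcc hab).uniformContinuous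
  exact uniformContinuous_subtype_val.comp (h1.comp h2)

lemma ext_sys (hφ : Continuous φ) (hψ : Continuous ψ) (h : Function.Commute φ ψ) :
    Sys (ext hab φ) (ext hab ψ) a b where
  cf := (ext_uc hφ).continuous
  cg := (ext_uc hψ).continuous
  comm x := by
    show ext hab φ ((ψ (projIcc a b hab x) : Icc a b) : ℝ) =
      ext hab ψ ((φ (projIcc a b hab x) : Icc a b) : ℝ)
    rw [ext_val, ext_val, h.eq]
  rf x := (φ _).2
  rg x := (ψ _).2

lemma ext_entropy (J : Set (Icc a b)) :
    coverEntropy (ext hab φ) (Subtype.val '' J) = coverEntropy φ J :=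
  coverEntropy_image_of_comap _ (S := φ) (T := ext hab φ) (φ := Subtype.val)
    (fun x => (ext_val x).symm) J

lemma ext_common {P : Prop} (hφ : Continuous φ)
    (h : ∃ x ∈ Icc a b, ∃ n m, 0 < n ∧ 0 < m ∧ (ext hab φ)^[n] x = x ∧ (ext hab ψ)^[m] x = x)
    (hP : ∀ x : Icc a b, ∀ n m, 0 < n → 0 < m → φ^[n] x = x → ψ^[m] x = x → P) : P := by
  obtain ⟨x, hx, n, m, hn, hm, h1, h2⟩ := h
  refine hP ⟨x, hx⟩ n m hn hm ?_ ?_
  · apply Subtype.ext
    rw [← ext_iter (hab := hab)]; exact h1
  · apply Subtype.ext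
    rw [← ext_iter (hab := hab)]; exact h2

end ext

end Pool.Agent.MP4545
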