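import Mathlib
import Pool.Agent.Work.MP_4545a8_an.Ext

/-!
Zero entropy intervals with two independent coincidences among their images.
-/

namespace Pool.Agent.MP4545

open Set Function Dynamics

variable {f g : ℝ → ℝ} {a b : ℝ}

lemma Sys.iterate_both (S : Sys f g a b) {p q : ℕ} (hp : 0 < p) (hq : 0 < q) :
    Sys f^[p] g^[q] a b := ((S.iterate_right hq).swap.iterate_right hp).swap

lemma uc_iterate {f : ℝ → ℝ} (uf : UniformContinuous f) (n : ℕ) : UniformContinuous f^[n] := by
  induction n with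
  | zero => exact uniformContinuous_id
  | succ n ih => rw [iterate_succ']; exact uf.comp ih

lemma grow_entropy' {F G φ : ℝ → ℝ} {J : Set ℝ} (uF : UniformContinuous F)
    (uG : UniformContinuous G) (hF : Function.Commute φ F) (hG : Function.Commute φ G)
    (h0 : coverEntropy φ J ≤ 0) (n : ℕ) : coverEntropy φ (grow F G J n) ≤ 0 := by
  induction n with
  | zero => exact h0
  | succ n ih =>
    have h1 : coverEntropy φ (F '' grow F G J n) ≤ 0 :=
      (coverEntropy_image_le_of_uniformContinuous (S := φ) (T := φ) (φ := F)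
        (fun x => (hF x).symm) uF _).trans ih
    have h2 : coverEntropy φ (grow F G J n ∪ F '' grow F G J n) ≤ 0 := by
      rw [coverEntropy_union]; exact max_le ih h1
    have h3 : coverEntropy φ (G '' (grow F G J n ∪ F '' grow F G J n)) ≤ 0 :=
      (coverEntropy_image_le_of_uniformContinuous (S := φ) (T := φ) (φ := G)
        (fun x => (hG x).symm) uG _).trans h2
    show coverEntropy φ ((grow F G J n ∪ F '' grow F G J n) ∪
      G '' (grow F G J n ∪ F '' grow F G J n)) ≤ 0
    rw [coverEntropy_union]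
    exact max_le h2 h3

/-- The spreading theorem: `J` meets `f^p J` and `g^q J`, and some word has zero entropy on `J`. -/
theorem spread2 (S : Sys f g a b) (uf : UniformContinuous f) (ug : UniformContinuous g)
    {i j : ℕ} (hij : (i, j) ≠ (0, 0)) {J : Set ℝ} (hJ : IsPreconnected J) (hJab : J ⊆ Icc a b)
    {p q : ℕ} (hp : 0 < p) (hq : 0 < q)
    (hf : (J ∩ f^[p] '' J).Nonempty) (hg : (J ∩ g^[q] '' J).Nonempty)
    (h0 : coverEntropy (f^[i] ∘ g^[j]) J ≤ 0) :
    ∃ x ∈ Icc a b, x ∈ periodicPts f ∩ periodicPts g := by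
  have hfg : Function.Commute f g := fun x => S.comm x
  set F := f^[p] with hFdef
  set G := g^[q] with hGdef
  set φ := f^[i] ∘ g^[j] with hφdef
  have S' : Sys F G a b := S.iterate_both hp hq
  have uF := uc_iterate uf p
  have uG := uc_iterate ug q
  have cφ : Continuous φ := (S.cf.iterate i).comp (S.cg.iterate j)
  have cφF : Function.Commute φ F := by
    have a1 : Function.Commute f^[i] f^[p] := (Function.Commute.refl f).iterate_iterate i p
    have a2 : Function.Commute g^[j] f^[p] := hfg.symm.iterate_iterate j p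
    exact a1.comp_left a2
  have cφG : Function.Commute φ G := by
    have a1 : Function.Commute f^[i] g^[q] := hfg.iterate_iterate i q
    have a2 : Function.Commute g^[j] g^[q] := (Function.Commute.refl g).iterate_iterate j q
    exact a1.comp_left a2
  set B : Set ℝ := ⋃ n, grow F G J n with hB
  have hBab : B ⊆ Icc a b := iUnion_subset fun n => grow_Icc S' hJab n
  have hBF : ∀ x ∈ B, F x ∈ B := by
    intro x hx
    obtain ⟨n, hn⟩ := mem_iUnion.1 hx
    exact mem_iUnion.2 ⟨n + 1, grow_f n (mem_image_of_mem _ hn)⟩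
  have hBG : ∀ x ∈ B, G x ∈ B := by
    intro x hx
    obtain ⟨n, hn⟩ := mem_iUnion.1 hx
    exact mem_iUnion.2 ⟨n + 1, grow_g n (mem_image_of_mem _ hn)⟩
  have hpre : ∀ n, IsPreconnected (grow F G J n) := grow_preconn S' hJ hf hg
  have hBne : B.Nonempty := by
    obtain ⟨x, hx, -⟩ := hf
    exact ⟨x, mem_iUnion.2 ⟨0, hx⟩⟩
  have hBpre : IsPreconnected B := by
    obtain ⟨x, hx, -⟩ := hf
    exact isPreconnected_iUnion ⟨x, mem_iInter.2 fun n => J_sub_grow n hx⟩ hpre
  have hBord : B.OrdConnected := hBpre.ordConnected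
  have hbb : BddBelow B := ⟨a, fun x hx => (hBab hx).1⟩
  have hba : BddAbove B := ⟨b, fun x hx => (hBab hx).2⟩
  set α := sInf B with hα
  set β := sSup B with hβ
  have hsub : B ⊆ Icc α β := fun x hx => ⟨csInf_le hbb hx, le_csSup hba hx⟩
  have hαβ : α ≤ β := by
    obtain ⟨x, hx⟩ := hBne
    exact (hsub hx).1.trans (hsub hx).2
  have hcases : ∀ x ∈ Icc α β, x ∈ B ∨ x = α ∨ x = β := by
    intro x hx
    rcases eq_or_lt_of_le hx.1 with h | h
    · exact Or.inr (Or.inl h.symm)
    rcases eq_or_lt_of_le hx.2 with h' | h'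
    · exact Or.inr (Or.inr h')
    obtain ⟨y, hy, hyx⟩ := exists_lt_of_csInf_lt hBne h
    obtain ⟨z, hz, hxz⟩ := exists_lt_of_lt_csSup hBne h'
    exact Or.inl (hBord.out hy hz ⟨hyx.le, hxz.le⟩)
  have hcl : Icc α β ⊆ closure B := by
    intro x hx
    rcases hcases x hx with h | rfl | rfl
    · exact subset_closure h
    · exact csInf_mem_closure hBne hbb
    · exact csSup_mem_closure hBne hba
  have hcl' : closure B ⊆ Icc α β := closure_minimal hsub isClosed_Icc
  have hαβab : Icc α β ⊆ Icc a b := hcl.trans (closure_minimal hBab isClosed_Icc)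
  have inv_of : ∀ h : ℝ → ℝ, Continuous h → (∀ x ∈ B, h x ∈ B) →
      ∀ x ∈ Icc α β, h x ∈ Icc α β := fun h ch hh x hx =>
    hcl' (map_mem_closure ch (hcl hx) hh)
  have it_inv : ∀ (h : ℝ → ℝ) (C : Set ℝ), (∀ x ∈ C, h x ∈ C) → ∀ N, ∀ x ∈ C, h^[N] x ∈ C := by
    intro h C hC N
    induction N with
    | zero => intro x hx; exact hx
    | succ N ih => intro x hx; rw [iterate_succ_apply']; exact hC _ (ih x hx)
  -- the word `Φ`
  set Φ := φ^[p * q] with hΦ
  have hΦeq : Φ = F^[i * q] ∘ G^[j * p] := by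
    rw [hΦ, hφdef, (hfg.iterate_iterate i j).comp_iterate, ← iterate_mul, ← iterate_mul, hFdef,
      hGdef, ← iterate_mul, ← iterate_mul]
    congr 2 <;> ring_nf
  have cΦ : Continuous Φ := cφ.iterate _
  have hBΦ : ∀ x ∈ B, Φ x ∈ B := by
    intro x hx
    rw [hΦeq]
    exact it_inv F B hBF _ _ (it_inv G B hBG _ _ hx)
  have iΦ := inv_of Φ cΦ hBΦ
  have rΦ : ∀ x, Φ x ∈ Icc a b := by
    intro x
    have hpq : p * q ≠ 0 := (Nat.mul_pos hp hq).ne'
    obtain ⟨k, hk⟩ : ∃ k, p * q = k + 1 := ⟨p * q - 1, by omega⟩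
    rw [hΦ, hk, iterate_succ_apply']
    show f^[i] (g^[j] _) ∈ Icc a b
    rcases Nat.eq_zero_or_pos i with rfl | hi
    · have hj : 0 < j := by
        rcases Nat.eq_zero_or_pos j with rfl | h
        · exact absurd rfl hij
        · exact h
      obtain ⟨l, rfl⟩ : ∃ l, j = l + 1 := ⟨j - 1, by omega⟩
      rw [iterate_zero, id_eq, iterate_succ_apply']
      exact S.rg _
    · obtain ⟨l, rfl⟩ : ∃ l, i = l + 1 := ⟨i - 1, by omega⟩
      rw [iterate_succ_apply']
      exact S.rf _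
  have h3 : ∀ N, 0 < N → ∀ x ∈ Icc α β, Φ^[N] (Φ^[N] (Φ^[N] x)) = x → Φ^[N] x = x := by
    intro N hN x hx h3
    by_contra h1
    set y := Φ^[N] x with hy
    set r := Φ^[N] y with hr
    have hyI : y ∈ Icc α β := it_inv Φ _ iΦ N x hx
    have hrI : r ∈ Icc α β := it_inv Φ _ iΦ N y hyI
    have hyr : y ≠ r := by
      intro h
      have e : Φ^[N] y = y := hr.symm.trans h.symm
      rw [← h] at h3
      exact h1 (e.symm.trans h3)
    have hrx : r ≠ x := by
      intro h
      rw [h] at h3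
      exact h1 h3
    have hBfN : ∀ N, ∀ x ∈ B, Φ^[N] x ∈ B := fun N => it_inv Φ B hBΦ N
    have hxB : x ∉ B := by
      intro hxB
      have hyB : y ∈ B := hBfN N x hxB
      have hrB : r ∈ B := hBfN N y hyB
      obtain ⟨n1, k1⟩ := mem_iUnion.1 hxB
      obtain ⟨n2, k2⟩ := mem_iUnion.1 hyB
      obtain ⟨n3, k3⟩ := mem_iUnion.1 hrB
      have l1 : n1 ≤ n1 + n2 + n3 := by omega
      have l2 : n2 ≤ n1 + n2 + n3 := by omega
      have l3 : n3 ≤ n1 + n2 + n3 := by omega
      have eΦ : Φ^[N] = φ^[p * q * N] := by rw [hΦ, ← iterate_mul]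
      rw [eΦ] at hy hr
      have hpos := entropy_pos_of_cycle cφ (N := p * q * N) (z := x)
        (by rw [← hy, ← hr, ← eΦ]; exact h3) (by rw [← hy]; exact h1)
        (C := grow F G J (n1 + n2 + n3)) (hpre _).ordConnected (grow_mono l1 k1)
        (by rw [← hy]; exact grow_mono l2 k2) (by rw [← hy, ← hr]; exact grow_mono l3 k3)
      exact absurd (grow_entropy' uF uG cφF cφG h0 (n1 + n2 + n3)) (not_le.2 hpos)
    have hrB : r ∉ B := fun h => hxB (by rw [← h3]; exact hBfN N r h)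
    have hyB : y ∉ B := fun h => hrB (hBfN N y h)
    rcases (hcases x hx).resolve_left hxB with e1 | e1 <;>
    rcases (hcases y hyI).resolve_left hyB with e2 | e2 <;>
    rcases (hcases r hrI).resolve_left hrB with e3 | e3 <;>
    first
      | exact h1 (e2.trans e1.symm)
      | exact hyr (e2.trans e3.symm)
      | exact hrx (e3.trans e1.symm)
  rcases Nat.eq_zero_or_pos j with hj0 | hjpos
  · -- `j = 0`: pair `(Φ, G)`
    have hi0 : 0 < i := by
      rcases Nat.eq_zero_or_pos i with h | h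
      · exact absurd (by rw [h, hj0]) hij
      · exact h
    have S2 : Sys Φ G a b := ⟨cΦ, S'.cg, fun x => (cφG.iterate_left (p * q)) x, rΦ, S'.rg⟩
    obtain ⟨x, hx, n, m, hn, hm, h1, h2⟩ := core_on S2 hαβ iΦ (inv_of G S'.cg hBG) h3
    refine ⟨x, hαβab hx, ?_⟩
    have e1 : (f^[i] ∘ g^[j])^[p * q * n] x = x := by
      rw [iterate_mul]; exact h1
    have e2 : (f^[0] ∘ g^[1])^[q * m] x = x := by
      have : (f^[0] ∘ g^[1]) = g := by simp
      rw [this, iterate_mul]; exact h2
    exact indep hfg (by rw [hj0]; simp; omega) (Nat.mul_pos (Nat.mul_pos hp hq) hn)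
      (Nat.mul_pos hq hm) e1 e2
  · have S2 : Sys Φ F a b := ⟨cΦ, S'.cf, fun x => (cφF.iterate_left (p * q)) x, rΦ, S'.rf⟩
    obtain ⟨x, hx, n, m, hn, hm, h1, h2⟩ := core_on S2 hαβ iΦ (inv_of F S'.cf hBF) h3
    refine ⟨x, hαβab hx, ?_⟩
    have e1 : (f^[i] ∘ g^[j])^[p * q * n] x = x := by
      rw [iterate_mul]; exact h1
    have e2 : (f^[1] ∘ g^[0])^[p * m] x = x := by
      have : (f^[1] ∘ g^[0]) = f := by simp
      rw [this, iterate_mul]; exact h2
    exact indep hfg (by simp; omega) (Nat.mul_pos (Nat.mul_pos hp hq) hn)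
      (Nat.mul_pos hp hm) e1 e2

/-- image of `J` under the word `f^s ∘ g^t` -/
def Jw (f g : ℝ → ℝ) (J : Set ℝ) (u : ℕ × ℕ) : Set ℝ := (f^[u.1] ∘ g^[u.2]) '' J

/-- two images of `J` lie in one interval of zero `φ`-entropy -/
def Link (f g φ : ℝ → ℝ) (a b : ℝ) (J : Set ℝ) (u v : ℕ × ℕ) : Prop :=
  ∃ C : Set ℝ, IsPreconnected C ∧ C ⊆ Icc a b ∧ coverEntropy φ C ≤ 0 ∧ Jw f g J u ⊆ C ∧
    Jw f g J v ⊆ C

section link

variable {φ : ℝ → ℝ} {J : Set ℝ}

/-- standing assumptions for the linking argument -/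
structure LK (f g φ : ℝ → ℝ) (a b : ℝ) (J : Set ℝ) : Prop where
  S : Sys f g a b
  uf : UniformContinuous f
  ug : UniformContinuous g
  cf : Function.Commute φ f
  cg : Function.Commute φ g
  pre : IsPreconnected J
  sub : J ⊆ Icc a b
  ne : J.Nonempty
  ent : coverEntropy φ J ≤ 0

lemma word_commute (K : LK f g φ a b J) (w : ℕ × ℕ) : Function.Commute φ (f^[w.1] ∘ g^[w.2]) :=
  (K.cf.iterate_right w.1).comp_right (K.cg.iterate_right w.2)

lemma word_uc (K : LK f g φ a b J) (w : ℕ × ℕ) : UniformContinuous (f^[w.1] ∘ g^[w.2]) :=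
  (uc_iterate K.uf w.1).comp (uc_iterate K.ug w.2)

lemma word_maps (K : LK f g φ a b J) (w : ℕ × ℕ) {x : ℝ} (hx : x ∈ Icc a b) :
    (f^[w.1] ∘ g^[w.2]) x ∈ Icc a b := by
  have h1 : ∀ n, ∀ y ∈ Icc a b, f^[n] y ∈ Icc a b := by
    intro n
    induction n with
    | zero => intro y hy; exact hy
    | succ n ih => intro y hy; rw [iterate_succ_apply']; exact K.S.rf _
  have h2 : ∀ n, ∀ y ∈ Icc a b, g^[n] y ∈ Icc a b := by
    intro n
    induction n with
    | zero => intro y hy; exact hy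
    | succ n ih => intro y hy; rw [iterate_succ_apply']; exact K.S.rg _
  exact h1 _ _ (h2 _ _ hx)

lemma word_add (K : LK f g φ a b J) (u w : ℕ × ℕ) :
    f^[(u + w).1] ∘ g^[(u + w).2] = (f^[w.1] ∘ g^[w.2]) ∘ (f^[u.1] ∘ g^[u.2]) := by
  have hfg : Function.Commute f g := fun x => K.S.comm x
  funext x
  simp only [Prod.fst_add, Prod.snd_add, comp_apply]
  rw [add_comm u.1, add_comm u.2, iterate_add_apply, iterate_add_apply]
  have := (hfg.iterate_iterate u.1 w.2).eq (g^[u.2] x)
  rw [← this]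

lemma word_entropy (K : LK f g φ a b J) (w : ℕ × ℕ) {C : Set ℝ} (h : coverEntropy φ C ≤ 0) :
    coverEntropy φ ((f^[w.1] ∘ g^[w.2]) '' C) ≤ 0 :=
  (coverEntropy_image_le_of_uniformContinuous (S := φ) (T := φ) (φ := f^[w.1] ∘ g^[w.2])
    (fun x => (word_commute K w x).symm) (word_uc K w) _).trans h

lemma Jw_ne (K : LK f g φ a b J) (u : ℕ × ℕ) : (Jw f g J u).Nonempty := K.ne.image _

lemma Jw_pre (K : LK f g φ a b J) (u : ℕ × ℕ) : IsPreconnected (Jw f g J u) :=
  K.pre.image _ (word_uc K u).continuous.continuousOn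

lemma Jw_sub (K : LK f g φ a b J) (u : ℕ × ℕ) : Jw f g J u ⊆ Icc a b := by
  rintro _ ⟨x, hx, rfl⟩
  exact word_maps K u (K.sub hx)

lemma Link.of_rel (K : LK f g φ a b J) {u v : ℕ × ℕ}
    (h : (Jw f g J u ∩ Jw f g J v).Nonempty) : Link f g φ a b J u v := by
  obtain ⟨x, hx1, hx2⟩ := h
  refine ⟨Jw f g J u ∪ Jw f g J v, (Jw_pre K u).union x hx1 hx2 (Jw_pre K v),
    union_subset (Jw_sub K u) (Jw_sub K v), ?_, subset_union_left, subset_union_right⟩
  rw [coverEntropy_union]
  exact max_le (word_entropy K u K.ent) (word_entropy K v K.ent)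

lemma Link.refl (K : LK f g φ a b J) (u : ℕ × ℕ) : Link f g φ a b J u u :=
  Link.of_rel K (by rw [inter_self]; exact Jw_ne K u)

lemma Link.symm {u v : ℕ × ℕ} (h : Link f g φ a b J u v) : Link f g φ a b J v u := by
  obtain ⟨C, h1, h2, h3, h4, h5⟩ := h
  exact ⟨C, h1, h2, h3, h5, h4⟩

lemma Link.trans (K : LK f g φ a b J) {u v w : ℕ × ℕ} (h : Link f g φ a b J u v)
    (h' : Link f g φ a b J v w) : Link f g φ a b J u w := by
  obtain ⟨C, h1, h2, h3, h4, h5⟩ := h
  obtain ⟨C', h1', h2', h3', h4', h5'⟩ := h'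
  obtain ⟨x, hx⟩ := Jw_ne K v
  refine ⟨C ∪ C', h1.union x (h5 hx) (h4' hx) h1', union_subset h2 h2', ?_,
    h4.trans subset_union_left, h5'.trans subset_union_right⟩
  rw [coverEntropy_union]
  exact max_le h3 h3'

lemma Link.add (K : LK f g φ a b J) {u v : ℕ × ℕ} (h : Link f g φ a b J u v) (w : ℕ × ℕ) :
    Link f g φ a b J (u + w) (v + w) := by
  obtain ⟨C, h1, h2, h3, h4, h5⟩ := h
  have e : ∀ u : ℕ × ℕ, Jw f g J (u + w) = (f^[w.1] ∘ g^[w.2]) '' Jw f g J u := by
    intro u
    unfold Jw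
    rw [word_add K u w, image_comp]
  refine ⟨(f^[w.1] ∘ g^[w.2]) '' C, h1.image _ (word_uc K w).continuous.continuousOn, ?_,
    word_entropy K w h3, ?_, ?_⟩
  · rintro _ ⟨x, hx, rfl⟩
    exact word_maps K w (h2 hx)
  · rw [e]; exact image_mono h4
  · rw [e]; exact image_mono h5

lemma Link.nsmul (K : LK f g φ a b J) {u v : ℕ × ℕ} (h : Link f g φ a b J u v) (n : ℕ) :
    Link f g φ a b J (n • u) (n • v) := by
  induction n with
  | zero => simpa using Link.refl K (0 : ℕ × ℕ)
  | succ n ih =>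
    rw [succ_nsmul, succ_nsmul]
    refine Link.trans K (ih.add K u) ?_
    rw [add_comm (n • v) u, add_comm (n • v) v]
    exact h.add K (n • v)

/-- elimination of one coordinate -/
lemma Link.elim (K : LK f g φ a b J) {u u' v v' : ℕ × ℕ} (h1 : Link f g φ a b J u u')
    (h2 : Link f g φ a b J v v')
    (hdet : ((u'.1 : ℤ) - u.1) * ((v'.2 : ℤ) - v.2) ≠ ((u'.2 : ℤ) - u.2) * ((v'.1 : ℤ) - v.1)) :
    (∃ w : ℕ × ℕ, ∃ D, 0 < D ∧ Link f g φ a b J w (w + (D, 0))) ∧
    (∃ w : ℕ × ℕ, ∃ D, 0 < D ∧ Link f g φ a b J w (w + (0, D))) := by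
  -- general combination
  have comb : ∀ c d : ℕ, ∀ u u' v v' : ℕ × ℕ, Link f g φ a b J u u' → Link f g φ a b J v v' →
      Link f g φ a b J (c • u' + d • v) (c • u + d • v') := by
    intro c d u u' v v' h1 h2
    refine Link.trans K (((h1.nsmul K c).symm).add K (d • v)) ?_
    rw [add_comm (c • u), add_comm (c • u)]
    exact (h2.nsmul K d).add K (c • u)
  constructor
  · -- WLOG second coordinates increase
    have key : ∀ u u' v v' : ℕ × ℕ, Link f g φ a b J u u' → Link f g φ a b J v v' →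
        ((u'.1 : ℤ) - u.1) * ((v'.2 : ℤ) - v.2) ≠ ((u'.2 : ℤ) - u.2) * ((v'.1 : ℤ) - v.1) →
        u.2 ≤ u'.2 → v.2 ≤ v'.2 →
        ∃ w : ℕ × ℕ, ∃ D, 0 < D ∧ Link f g φ a b J w (w + (D, 0)) := by
      intro u u' v v' h1 h2 hdet k1 k2
      obtain ⟨d, hd⟩ := Nat.exists_eq_add_of_le k1
      obtain ⟨c, hc⟩ := Nat.exists_eq_add_of_le k2
      have hL := comb c d u u' v v' h1 h2
      set U := c • u' + d • v with hU
      set V := c • u + d • v' with hV
      have e2 : U.2 = V.2 := by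
        simp only [hU, hV, Prod.snd_add, Prod.smul_snd, smul_eq_mul]
        rw [hd, hc]; ring
      have e1 : U.1 ≠ V.1 := by
        simp only [hU, hV, Prod.fst_add, Prod.smul_fst, smul_eq_mul]
        intro h
        apply hdet
        have : ((c * u'.1 + d * v.1 : ℕ) : ℤ) = ((c * u.1 + d * v'.1 : ℕ) : ℤ) := by rw [h]
        push_cast at this
        rw [hd, hc]
        push_cast
        linarith
      rcases lt_or_gt_of_ne e1 with h | h
      · refine ⟨U, V.1 - U.1, by omega, ?_⟩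
        have : U + (V.1 - U.1, 0) = V := by
          ext
          · simp; omega
          · simp [e2]
        rw [this]; exact hL
      · refine ⟨V, U.1 - V.1, by omega, ?_⟩
        have : V + (U.1 - V.1, 0) = U := by
          ext
          · simp; omega
          · simp [e2]
        rw [this]; exact hL.symm
    rcases le_total u.2 u'.2 with k1 | k1 <;> rcases le_total v.2 v'.2 with k2 | k2
    · exact key u u' v v' h1 h2 hdet k1 k2
    · exact key u u' v' v h1 h2.symm (fun h => hdet (by linarith)) k1 k2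
    · exact key u' u v v' h1.symm h2 (fun h => hdet (by linarith)) k1 k2
    · exact key u' u v' v h1.symm h2.symm (fun h => hdet (by linarith)) k1 k2
  · have key : ∀ u u' v v' : ℕ × ℕ, Link f g φ a b J u u' → Link f g φ a b J v v' →
        ((u'.1 : ℤ) - u.1) * ((v'.2 : ℤ) - v.2) ≠ ((u'.2 : ℤ) - u.2) * ((v'.1 : ℤ) - v.1) →
        u.1 ≤ u'.1 → v.1 ≤ v'.1 →
        ∃ w : ℕ × ℕ, ∃ D, 0 < D ∧ Link f g φ a b J w (w + (0, D)) := by
      intro u u' v v' h1 h2 hdet k1 k2
      obtain ⟨d, hd⟩ := Nat.exists_eq_add_of_le k1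
      obtain ⟨c, hc⟩ := Nat.exists_eq_add_of_le k2
      have hL := comb c d u u' v v' h1 h2
      set U := c • u' + d • v with hU
      set V := c • u + d • v' with hV
      have e2 : U.1 = V.1 := by
        simp only [hU, hV, Prod.fst_add, Prod.smul_fst, smul_eq_mul]
        rw [hd, hc]; ring
      have e1 : U.2 ≠ V.2 := by
        simp only [hU, hV, Prod.snd_add, Prod.smul_snd, smul_eq_mul]
        intro h
        apply hdet
        have : ((c * u'.2 + d * v.2 : ℕ) : ℤ) = ((c * u.2 + d * v'.2 : ℕ) : ℤ) := by rw [h]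
        push_cast at this
        rw [hd, hc]
        push_cast
        linarith
      rcases lt_or_gt_of_ne e1 with h | h
      · refine ⟨U, V.2 - U.2, by omega, ?_⟩
        have : U + (0, V.2 - U.2) = V := by
          ext
          · simp [e2]
          · simp; omega
        rw [this]; exact hL
      · refine ⟨V, U.2 - V.2, by omega, ?_⟩
        have : V + (0, U.2 - V.2) = U := by
          ext
          · simp [e2]
          · simp; omega
        rw [this]; exact hL.symm
    rcases le_total u.1 u'.1 with k1 | k1 <;> rcases le_total v.1 v'.1 with k2 | k2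
    · exact key u u' v v' h1 h2 hdet k1 k2
    · exact key u u' v' v h1 h2.symm (fun h => hdet (by linarith)) k1 k2
    · exact key u' u v v' h1.symm h2 (fun h => hdet (by linarith)) k1 k2
    · exact key u' u v' v h1.symm h2.symm (fun h => hdet (by linarith)) k1 k2

end link

/-- Rank two theorem on the line. -/
theorem rank_two (S : Sys f g a b) (uf : UniformContinuous f) (ug : UniformContinuous g)
    {i j : ℕ} (hij : (i, j) ≠ (0, 0)) {J : Set ℝ} (hJ : IsPreconnected J) (hJab : J ⊆ Icc a b)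
    (h0 : coverEntropy (f^[i] ∘ g^[j]) J ≤ 0) {u u' v v' : ℕ × ℕ}
    (h1 : (Jw f g J u ∩ Jw f g J u').Nonempty) (h2 : (Jw f g J v ∩ Jw f g J v').Nonempty)
    (hdet : ((u'.1 : ℤ) - u.1) * ((v'.2 : ℤ) - v.2) ≠ ((u'.2 : ℤ) - u.2) * ((v'.1 : ℤ) - v.1)) :
    ∃ x ∈ Icc a b, x ∈ periodicPts f ∩ periodicPts g := by
  have hfg : Function.Commute f g := fun x => S.comm x
  set φ := f^[i] ∘ g^[j] with hφ
  have cφf : Function.Commute φ f := by
    have a1 : Function.Commute f^[i] f := (Function.Commute.refl f).iterate_left i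
    have a2 : Function.Commute g^[j] f := hfg.symm.iterate_left j
    exact a1.comp_left a2
  have cφg : Function.Commute φ g := by
    have a1 : Function.Commute f^[i] g := hfg.iterate_left i
    have a2 : Function.Commute g^[j] g := (Function.Commute.refl g).iterate_left j
    exact a1.comp_left a2
  have hJne : J.Nonempty := by
    obtain ⟨x, ⟨y, hy, -⟩, -⟩ := h1
    exact ⟨y, hy⟩
  have K : LK f g φ a b J := ⟨S, uf, ug, cφf, cφg, hJ, hJab, hJne, h0⟩
  obtain ⟨⟨w1, D1, hD1, L1⟩, ⟨w2, D2, hD2, L2⟩⟩ :=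
    Link.elim K (Link.of_rel K h1) (Link.of_rel K h2) hdet
  have L1' := L1.add K w2
  have L2' := L2.add K w1
  rw [show w1 + (D1, 0) + w2 = (w1 + w2) + (D1, 0) by abel] at L1'
  rw [show w2 + (0, D2) + w1 = (w1 + w2) + (0, D2) by abel, add_comm w2 w1] at L2'
  set w := w1 + w2 with hw
  obtain ⟨C1, p1, s1, n1, i1, k1⟩ := L1'
  obtain ⟨C2, p2, s2, n2, i2, k2⟩ := L2'
  obtain ⟨x, hx⟩ := Jw_ne K w
  have hwx : ∀ D : ℕ × ℕ, Jw f g J (w + D) = (f^[D.1] ∘ g^[D.2]) '' Jw f g J w := by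
    intro D
    unfold Jw
    rw [word_add K w D, image_comp]
  have hC : IsPreconnected (C1 ∪ C2) := p1.union x (i1 hx) (i2 hx) p2
  have hent : coverEntropy φ (C1 ∪ C2) ≤ 0 := by
    rw [coverEntropy_union]; exact max_le n1 n2
  refine spread2 S uf ug hij hC (union_subset s1 s2) hD1 hD2 ?_ ?_ hent
  · refine ⟨f^[D1] x, Or.inl (k1 ?_), x, Or.inl (i1 hx), rfl⟩
    rw [hwx]
    exact ⟨x, hx, rfl⟩
  · refine ⟨g^[D2] x, Or.inr (k2 ?_), x, Or.inl (i1 hx), rfl⟩
    rw [hwx]
    exact ⟨x, hx, rfl⟩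

end Pool.Agent.MP4545
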