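import Mathlib
import Pool.Agent.Work.MP_4545a8_an.Rank

/-!
Minimal sets of the semigroup generated by `f` and `g`.
-/

namespace Pool.Agent.MP4545

open Set Function Filter Topology Dynamics

variable {f g : ℝ → ℝ} {a b : ℝ}

/-- joint minimal set inside `A` -/
structure JMin (f g : ℝ → ℝ) (A M : Set ℝ) : Prop where
  closed : IsClosed M
  ne : M.Nonempty
  sub : M ⊆ A
  invf : ∀ x ∈ M, f x ∈ M
  invg : ∀ x ∈ M, g x ∈ M
  min : ∀ C : Set ℝ, IsClosed C → C.Nonempty → C ⊆ M → (∀ x ∈ C, f x ∈ C) → (∀ x ∈ C, g x ∈ C) →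
    M ⊆ C

theorem exists_jmin {A : Set ℝ} (hA : IsClosed A) (hAne : A.Nonempty) (hAab : A ⊆ Icc a b)
    (hfA : ∀ x ∈ A, f x ∈ A) (hgA : ∀ x ∈ A, g x ∈ A) : ∃ M, JMin f g A M := by
  let 𝒞 : Set (Set ℝ) :=
    {C | IsClosed C ∧ C.Nonempty ∧ C ⊆ A ∧ (∀ y ∈ C, f y ∈ C) ∧ (∀ y ∈ C, g y ∈ C)}
  have hcomp : ∀ C ∈ 𝒞, IsCompact C := fun C hC =>
    (isCompact_Icc (a := a) (b := b)).of_isClosed_subset hC.1 (hC.2.2.1.trans hAab)
  obtain ⟨M, hM⟩ := zorn_superset 𝒞 (by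
    intro c hc hchain
    rcases c.eq_empty_or_nonempty with rfl | hne
    · exact ⟨A, ⟨hA, hAne, Subset.rfl, hfA, hgA⟩, by simp⟩
    · have : Nonempty c := hne.to_subtype
      refine ⟨⋂₀ c, ⟨isClosed_sInter fun C hC => (hc hC).1, ?_, ?_, ?_, ?_⟩,
        fun s hs => sInter_subset_of_mem hs⟩
      · apply IsCompact.nonempty_sInter_of_directed_nonempty_isCompact_isClosed
        · intro s hs t ht
          rcases hchain.total hs ht with h | h
          · exact ⟨s, hs, Subset.rfl, h⟩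
          · exact ⟨t, ht, h, Subset.rfl⟩
        · exact fun U hU => (hc hU).2.1
        · exact fun U hU => hcomp U (hc hU)
        · exact fun U hU => (hc hU).1
      · obtain ⟨C, hC⟩ := hne
        exact (sInter_subset_of_mem hC).trans (hc hC).2.2.1
      · intro y hy C hC
        exact (hc hC).2.2.2.1 y (hy C hC)
      · intro y hy C hC
        exact (hc hC).2.2.2.2 y (hy C hC))
  have hMm : M ∈ 𝒞 := hM.prop
  refine ⟨M, hMm.1, hMm.2.1, hMm.2.2.1, hMm.2.2.2.1, hMm.2.2.2.2, ?_⟩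
  intro C h1 h2 h3 h4 h5
  exact hM.le_of_le ⟨h1, h2, h3.trans hMm.2.2.1, h4, h5⟩ h3

section
variable {A M : Set ℝ}

lemma JMin.word (h : JMin f g A M) (s t : ℕ) {x : ℝ} (hx : x ∈ M) : f^[s] (g^[t] x) ∈ M := by
  have h1 : ∀ n, ∀ y ∈ M, f^[n] y ∈ M := by
    intro n
    induction n with
    | zero => intro y hy; exact hy
    | succ n ih => intro y hy; rw [iterate_succ_apply']; exact h.invf _ (ih y hy)
  have h2 : ∀ n, ∀ y ∈ M, g^[n] y ∈ M := by
    intro n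
    induction n with
    | zero => intro y hy; exact hy
    | succ n ih => intro y hy; rw [iterate_succ_apply']; exact h.invg _ (ih y hy)
  exact h1 _ _ (h2 _ _ hx)

/-- joint orbits are dense in `M` -/
lemma JMin.enter (S : Sys f g a b) (h : JMin f g A M) {O : Set ℝ} (hO : IsOpen O)
    (hOM : (O ∩ M).Nonempty) {x : ℝ} (hx : x ∈ M) :
    ∃ w : ℕ × ℕ, f^[w.1] (g^[w.2] x) ∈ O := by
  have hfg : Function.Commute f g := fun x => S.comm x
  set R : Set ℝ := range (fun w : ℕ × ℕ => f^[w.1] (g^[w.2] x)) with hR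
  have hsub : closure R ⊆ M := closure_minimal (by
    rintro _ ⟨w, rfl⟩; exact h.word _ _ hx) h.closed
  have hf : ∀ y ∈ closure R, f y ∈ closure R := fun y hy =>
    map_mem_closure S.cf hy (by
      rintro _ ⟨w, rfl⟩
      exact ⟨(w.1 + 1, w.2), by simp only [iterate_succ_apply']⟩)
  have hg : ∀ y ∈ closure R, g y ∈ closure R := fun y hy =>
    map_mem_closure S.cg hy (by
      rintro _ ⟨w, rfl⟩
      refine ⟨(w.1, w.2 + 1), ?_⟩
      simp only [iterate_succ_apply']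
      exact (hfg.iterate_left w.1).eq _)
  have hne : (closure R).Nonempty := ⟨x, subset_closure ⟨(0, 0), rfl⟩⟩
  have hM := h.min _ isClosed_closure hne hsub hf hg
  obtain ⟨y, hyO, hyM⟩ := hOM
  obtain ⟨_, hzO, ⟨w, rfl⟩⟩ := mem_closure_iff.1 (hM hyM) O hO hyO
  exact ⟨w, hzO⟩

/-- `f` and `g` returns to an open set meeting `M` -/
lemma JMin.ret (S : Sys f g a b) (hAab : A ⊆ Icc a b) (h : JMin f g A M) {O : Set ℝ}
    (hO : IsOpen O) (hOM : (O ∩ M).Nonempty) :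
    (∃ p, 0 < p ∧ ∃ y ∈ M, y ∈ O ∧ f^[p] y ∈ O) ∧ (∃ q, 0 < q ∧ ∃ y ∈ M, y ∈ O ∧ g^[q] y ∈ O) := by
  have hfg : Function.Commute f g := fun x => S.comm x
  have hMc : IsCompact M := (isCompact_Icc (a := a) (b := b)).of_isClosed_subset h.closed
    (h.sub.trans hAab)
  obtain ⟨t, ht⟩ := hMc.elim_finite_subcover (fun w : ℕ × ℕ => (f^[w.1] ∘ g^[w.2]) ⁻¹' O)
    (fun w => hO.preimage ((S.cf.iterate w.1).comp (S.cg.iterate w.2)))
    (fun x hx => mem_iUnion.2 (h.enter S hO hOM hx))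
  obtain ⟨m, hm⟩ := h.ne
  have hcov : ∀ x ∈ M, ∃ w : t, f^[w.1.1] (g^[w.1.2] x) ∈ O := by
    intro x hx
    obtain ⟨w, hw, hxw⟩ := mem_iUnion₂.1 (ht hx)
    exact ⟨⟨w, hw⟩, hxw⟩
  have gen : ∀ h' : ℝ → ℝ, (∀ n, ∀ x ∈ M, h'^[n] x ∈ M) →
      (∀ s t : ℕ, ∀ x, f^[s] (g^[t] (h' x)) = h' (f^[s] (g^[t] x))) →
      ∃ p, 0 < p ∧ ∃ y ∈ M, y ∈ O ∧ h'^[p] y ∈ O := by
    intro h' hinv hcomm
    have hcomm' : ∀ n, ∀ s t : ℕ, ∀ x, f^[s] (g^[t] (h'^[n] x)) = h'^[n] (f^[s] (g^[t] x)) := by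
      intro n s t
      induction n with
      | zero => intro x; rfl
      | succ n ih => intro x; rw [iterate_succ_apply', hcomm, ih, iterate_succ_apply']
    choose w hw using fun n => hcov (h'^[n] m) (hinv n m hm)
    have key : ∀ n n', n < n' → w n = w n' → ∃ p, 0 < p ∧ ∃ y ∈ M, y ∈ O ∧ h'^[p] y ∈ O := by
      intro n n' hlt heq
      refine ⟨n' - n, by omega, _, h.word (w n).1.1 (w n).1.2 (hinv n m hm), hw n, ?_⟩
      rw [← hcomm', ← iterate_add_apply, show n' - n + n = n' by omega, heq]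
      exact hw n'
    obtain ⟨n, n', hne, heq⟩ := Finite.exists_ne_map_eq_of_infinite w
    rcases lt_or_gt_of_ne hne with hlt | hlt
    · exact key n n' hlt heq
    · exact key n' n hlt heq.symm
  refine ⟨gen f (fun n x hx => h.word n 0 hx) ?_, gen g (fun n x hx => h.word 0 n hx) ?_⟩
  · intro s t x
    have h1 : g^[t] (f x) = f (g^[t] x) := ((hfg.symm.iterate_left t).eq x)
    rw [h1, ← iterate_succ_apply, iterate_succ_apply']
  · intro s t x
    rw [← iterate_succ_apply, iterate_succ_apply']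
    exact (hfg.iterate_left s).eq _

/-- Theorem on invariant closed sets -/
theorem perfect_joint (S : Sys f g a b) (uf : UniformContinuous f) (ug : UniformContinuous g)
    (hA : IsClosed A) (hAne : A.Nonempty) (hAab : A ⊆ Icc a b) (hfA : ∀ x ∈ A, f x ∈ A)
    (hgA : ∀ x ∈ A, g x ∈ A)
    (H : ∀ M ⊆ A, Perfect M → M.Nonempty → ∃ x y : ℝ, (Ioo x y ∩ M).Nonempty ∧
      ∃ k l : ℕ, (k, l) ≠ (0, 0) ∧ coverEntropy (f^[k] ∘ g^[l]) (Icc x y ∩ Icc a b) ≤ 0) :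
    ∃ x ∈ Icc a b, x ∈ periodicPts f ∩ periodicPts g := by
  by_contra hcon
  push Not at hcon
  obtain ⟨M, hM⟩ := exists_jmin hA hAne hAab hfA hgA
  have hMab : M ⊆ Icc a b := hM.sub.trans hAab
  have hperf : Perfect M := by
    refine ⟨hM.closed, ?_⟩
    rw [preperfect_iff_nhds]
    intro m hm U hU
    by_contra hno
    push Not at hno
    obtain ⟨O, hOU, hO, hmO⟩ := mem_nhds_iff.1 hU
    have huniq : ∀ y ∈ M, y ∈ O → y = m := fun y hy hyO => hno y ⟨hOU hyO, hy⟩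
    obtain ⟨⟨p, hp, y, hy, hyO, hpO⟩, ⟨q, hq, z, hz, hzO, hqO⟩⟩ :=
      hM.ret S hAab hO ⟨m, hmO, hm⟩
    have e1 := huniq y hy hyO
    have e2 := huniq _ (hM.word p 0 hy) hpO
    have e3 := huniq z hz hzO
    have e4 := huniq _ (hM.word 0 q hz) hqO
    rw [e1] at e2
    rw [e3] at e4
    exact hcon m (hMab hm) ⟨⟨p, hp, e2⟩, ⟨q, hq, e4⟩⟩
  obtain ⟨x, y, hxy, k, l, hkl, h0⟩ := H M hM.sub hperf hM.ne
  obtain ⟨⟨p, hp, u, hu, huO, hpO⟩, ⟨q, hq, v, hv, hvO, hqO⟩⟩ :=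
    hM.ret S hAab isOpen_Ioo hxy
  obtain ⟨z, hz, hzP⟩ := spread2 S uf ug hkl
    (J := Icc x y ∩ Icc a b) (ordConnected_Icc.inter ordConnected_Icc).isPreconnected
    inter_subset_right hp hq
    ⟨f^[p] u, ⟨Ioo_subset_Icc_self hpO, hMab (hM.word p 0 hu)⟩, u,
      ⟨Ioo_subset_Icc_self huO, hMab hu⟩, rfl⟩
    ⟨g^[q] v, ⟨Ioo_subset_Icc_self hqO, hMab (hM.word 0 q hv)⟩, v,
      ⟨Ioo_subset_Icc_self hvO, hMab hv⟩, rfl⟩ h0
  exact hcon z hz hzP

end

end Pool.Agent.MP4545
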