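import Mathlib
import Pool.Agent.Work.MP_4545a8_an.Ext

set_option autoImplicit false

/-!
# Common periodic points of commuting interval maps: positive entropy at every perfect set

`f, g : [a,b] → [a,b]` continuous, commuting, `φ = f^i ∘ g^j` with `(i,j) ≠ (0,0)`.
Topological entropy is Mathlib's `Dynamics.coverEntropy`.
-/

namespace Pool.Agent.Work.MP_4545a8_an.Criteria

open Set Function Filter Topology Dynamics
open Pool.Agent.MP4545

/-- `φ` is monotone (increasing or decreasing) on some neighbourhood of `x`. -/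
def LocMono {a b : ℝ} (φ : Icc a b → Icc a b) (x : Icc a b) : Prop :=
  ∃ U ∈ 𝓝 x, MonotoneOn φ U ∨ AntitoneOn φ U

variable {a b : ℝ}

/-- criterion of independent returns -/
lemma returns (hab : a ≤ b) (f g : C(Icc a b, Icc a b)) (hfg : Function.Commute ⇑f ⇑g)
    {i j k l : ℕ} (hdet : i * l ≠ j * k) {φ : Icc a b → Icc a b} (hφ : φ = f^[i] ∘ g^[j])
    {J : Set (Icc a b)} (hJ : J.OrdConnected)
    (h1 : (J ∩ φ '' J).Nonempty) (h2 : (J ∩ (f^[k] ∘ g^[l]) '' J).Nonempty)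
    (h0 : coverEntropy φ J = 0) :
    (periodicPts ⇑f ∩ periodicPts ⇑g).Nonempty := by
  subst hφ
  have cφ : Continuous ((⇑f)^[i] ∘ (⇑g)^[j]) :=
    (f.continuous.iterate i).comp (g.continuous.iterate j)
  have cψ : Continuous ((⇑f)^[k] ∘ (⇑g)^[l]) :=
    (f.continuous.iterate k).comp (g.continuous.iterate l)
  have hc : Function.Commute ((⇑f)^[i] ∘ (⇑g)^[j]) ((⇑f)^[k] ∘ (⇑g)^[l]) := by
    have a1 : Function.Commute ((⇑f)^[i]) ((⇑f)^[k] ∘ (⇑g)^[l]) :=
      ((Function.Commute.refl _).iterate_iterate i k).comp_right (hfg.iterate_iterate i l)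
    have a2 : Function.Commute ((⇑g)^[j]) ((⇑f)^[k] ∘ (⇑g)^[l]) :=
      (hfg.symm.iterate_iterate j k).comp_right ((Function.Commute.refl _).iterate_iterate j l)
    exact a1.comp_left a2
  have key := spread (ext_sys (hab := hab) cφ cψ hc) (ext_uc cφ) (ext_uc cψ)
    (J := Subtype.val '' J) ?_ ?_ ?_ ?_ ?_
  · exact ext_common cφ key fun x n m hn hm e1 e2 => ⟨x, indep hfg hdet hn hm e1 e2⟩
  · refine ⟨?_⟩
    rintro _ ⟨x, hx, rfl⟩ _ ⟨y, hy, rfl⟩ z hz
    exact ⟨⟨z, x.2.1.trans hz.1, hz.2.trans y.2.2⟩, hJ.out hx hy ⟨hz.1, hz.2⟩, rfl⟩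
  · rintro _ ⟨x, -, rfl⟩; exact x.2
  · obtain ⟨x, hx, y, hy, e⟩ := h1
    exact ⟨x, ⟨x, hx, rfl⟩, y, ⟨y, hy, rfl⟩, by rw [ext_val, e]⟩
  · obtain ⟨x, hx, y, hy, e⟩ := h2
    exact ⟨x, ⟨x, hx, rfl⟩, y, ⟨y, hy, rfl⟩, by rw [ext_val, e]⟩
  · rw [ext_entropy, h0]

/-- the local criteria for a pair `φ, ψ` of independent elements -/
lemma perfect_crit (hab : a ≤ b) (f g : C(Icc a b, Icc a b)) (hfg : Function.Commute ⇑f ⇑g)
    {i j k l : ℕ} (hdet : i * l ≠ j * k) {φ : Icc a b → Icc a b} (hφ : φ = f^[i] ∘ g^[j])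
    (H : (∀ M : Set (Icc a b), Perfect M → M.Nonempty → (∀ x ∈ M, φ x = x) →
        ∃ U : Set (Icc a b), IsOpen U ∧ (U ∩ M).Nonempty ∧ coverEntropy φ U = 0) ∨
      {x | AccPt x (𝓟 (fixedPoints φ)) ∧ ¬ LocMono φ x}.Countable ∨
      (∃ F : ℝ → ℝ, ContDiffOn ℝ 1 F (Icc a b) ∧ ∀ x : Icc a b, F x = φ x)) :
    (periodicPts ⇑f ∩ periodicPts ⇑g).Nonempty := by
  set ψ : Icc a b → Icc a b := (⇑f)^[k] ∘ (⇑g)^[l] with hψ
  have cφ : Continuous φ := by
    rw [hφ]; exact (f.continuous.iterate i).comp (g.continuous.iterate j)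
  have cψ : Continuous ψ := (f.continuous.iterate k).comp (g.continuous.iterate l)
  have hc : Function.Commute φ ψ := by
    have a1 : Function.Commute ((⇑f)^[i]) ((⇑f)^[k] ∘ (⇑g)^[l]) :=
      ((Function.Commute.refl _).iterate_iterate i k).comp_right (hfg.iterate_iterate i l)
    have a2 : Function.Commute ((⇑g)^[j]) ((⇑f)^[k] ∘ (⇑g)^[l]) :=
      (hfg.symm.iterate_iterate j k).comp_right ((Function.Commute.refl _).iterate_iterate j l)
    rw [hφ]
    exact a1.comp_left a2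
  have S := ext_sys (hab := hab) cφ cψ hc
  refine ext_common (hab := hab) (φ := φ) (ψ := ψ) cφ ?_
    fun x n m hn hm e1 e2 => ⟨x, indep hfg hdet hn hm (by rw [← hφ]; exact e1) e2⟩
  have uf := ext_uc (hab := hab) cφ
  have ug := ext_uc (hab := hab) cψ
  have hfixI : ∀ x, ext hab φ x = x → x ∈ Icc a b := fun x hx => by
    rw [← hx]; exact S.rf x
  rcases H with H | H | ⟨F, hF, hFφ⟩
  · refine perfect_case S uf ug ?_
    intro M hM hMne hMf
    have hMab : M ⊆ Icc a b := fun x hx => hfixI x (hMf x hx)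
    have hperf : Perfect ((Subtype.val : Icc a b → ℝ) ⁻¹' M) := by
      refine ⟨hM.closed.preimage continuous_subtype_val, ?_⟩
      rw [preperfect_iff_nhds]
      intro x hx U hU
      obtain ⟨ε, hε, hεU⟩ := Metric.mem_nhds_iff.1 hU
      obtain ⟨y, hy, hyx⟩ := preperfect_iff_nhds.1 hM.acc (x : ℝ) hx _
        (Metric.ball_mem_nhds (x : ℝ) hε)
      refine ⟨⟨y, hMab hy.2⟩, ⟨hεU hy.1, hy.2⟩, ?_⟩
      intro h
      exact hyx (congrArg Subtype.val h)
    obtain ⟨U, hUo, ⟨m, hmU, hmM⟩, h0⟩ := H _ hperf (by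
      obtain ⟨x, hx⟩ := hMne
      exact ⟨⟨x, hMab hx⟩, hx⟩) (fun x hx => by
        apply Subtype.ext
        have h1 : ext hab φ x = x := hMf x hx
        rwa [ext_val] at h1)
    obtain ⟨ε, hε, hεU⟩ := Metric.mem_nhds_iff.1 (hUo.mem_nhds hmU)
    refine ⟨(m : ℝ) - ε / 2, m + ε / 2, ⟨m, ⟨by linarith, by linarith⟩, hmM⟩, ?_⟩
    rw [← h0, ← ext_entropy (hab := hab) (φ := φ) U]
    refine coverEntropy_monotone _ ?_
    intro z hz
    refine ⟨⟨z, hz.2⟩, hεU ?_, rfl⟩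
    rw [Metric.mem_ball, Subtype.dist_eq, Real.dist_eq, abs_lt]
    exact ⟨by linarith [hz.1.1], by linarith [hz.1.2]⟩
  · refine lm_case S uf ug ?_
    refine (H.image Subtype.val).mono ?_
    rintro x ⟨hx, hLM⟩
    have fx : ext hab φ x = x := mem_of_accPt S.cf hx
    have hxI := hfixI x fx
    refine ⟨⟨x, hxI⟩, ⟨?_, ?_⟩, rfl⟩
    · rw [accPt_iff_nhds]
      intro U hU
      obtain ⟨ε, hε, hεU⟩ := Metric.mem_nhds_iff.1 hU
      obtain ⟨y, hy, hyx⟩ := accPt_iff_nhds.1 hx _ (Metric.ball_mem_nhds x hε)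
      have hyf : ext hab φ y = y := hy.2
      have hyI := hfixI y hyf
      refine ⟨⟨y, hyI⟩, ⟨hεU hy.1, ?_⟩, ?_⟩
      · apply Subtype.ext
        rw [← ext_val (hab := hab)]
        exact hyf
      · intro h
        exact hyx (congrArg Subtype.val h)
    · rintro ⟨U, hU, hmono⟩
      obtain ⟨ε, hε, hεU⟩ := Metric.mem_nhds_iff.1 hU
      apply hLM
      refine ⟨Metric.ball x ε, Metric.ball_mem_nhds x hε, ?_⟩
      rcases hmono with h | h
      · left
        intro u hu v hv huv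
        have := h (hεU (show (⟨u, hu.2⟩ : Icc a b) ∈ Metric.ball (⟨x, hxI⟩ : Icc a b) ε from hu.1))
          (hεU (show (⟨v, hv.2⟩ : Icc a b) ∈ Metric.ball (⟨x, hxI⟩ : Icc a b) ε from hv.1)) huv
        have e1 := ext_val (hab := hab) (φ := φ) ⟨u, hu.2⟩
        have e2 := ext_val (hab := hab) (φ := φ) ⟨v, hv.2⟩
        show ext hab φ u ≤ ext hab φ v
        exact (e1.trans_le this).trans e2.ge
      · right
        intro u hu v hv huv
        have := h (hεU (show (⟨u, hu.2⟩ : Icc a b) ∈ Metric.ball (⟨x, hxI⟩ : Icc a b) ε from hu.1))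
          (hεU (show (⟨v, hv.2⟩ : Icc a b) ∈ Metric.ball (⟨x, hxI⟩ : Icc a b) ε from hv.1)) huv
        have e1 := ext_val (hab := hab) (φ := φ) ⟨u, hu.2⟩
        have e2 := ext_val (hab := hab) (φ := φ) ⟨v, hv.2⟩
        show ext hab φ v ≤ ext hab φ u
        exact (e2.trans_le this).trans e1.ge
  · refine lm_case S uf ug ?_
    have : {x | AccPt x (𝓟 {z | ext hab φ z = z}) ∧ ¬ LM (ext hab φ) a b x} = ∅ := by
      refine eq_empty_of_forall_notMem ?_
      rintro x ⟨hx, hLM⟩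
      refine hLM (lm_of_C1 S.cf S.rf hF ?_ hx)
      intro z hz
      have := ext_val (hab := hab) (φ := φ) ⟨z, hz⟩
      exact (hFφ ⟨z, hz⟩).trans this.symm
    rw [this]
    exact countable_empty

/-- Let `f, g` be commuting continuous self-maps of `[a,b]` and `φ = f^i ∘ g^j` with
`(i,j) ≠ (0,0)`. Then `f` and `g` have a common periodic point if at least one of the following
holds:
(1) `φ` has topological entropy zero;
(2) some interval `J` on which `φ` has entropy zero meets both `φ(J)` and `ψ(J)` for some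
    `ψ = f^k ∘ g^l` with `il ≠ jk`;
(3) every nonempty perfect set of fixed points of `φ` meets an open set on which `φ` has entropy
    zero;
(4) `φ` is locally monotone at all but countably many of the accumulation points of its set of
    fixed points;
(5) `φ` is continuously differentiable. -/
theorem result (a b : ℝ) (hab : a ≤ b) (f g : C(Icc a b, Icc a b)) (hfg : ⇑f ∘ ⇑g = ⇑g ∘ ⇑f)
    (i j : ℕ) (hij : (i, j) ≠ (0, 0)) (φ : Icc a b → Icc a b) (hφ : φ = f^[i] ∘ g^[j])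
    (H : coverEntropy φ univ = 0 ∨
      (∃ k l : ℕ, i * l ≠ j * k ∧ ∃ J : Set (Icc a b), J.OrdConnected ∧
        (J ∩ φ '' J).Nonempty ∧ (J ∩ (f^[k] ∘ g^[l]) '' J).Nonempty ∧ coverEntropy φ J = 0) ∨
      (∀ M : Set (Icc a b), Perfect M → M.Nonempty → (∀ x ∈ M, φ x = x) →
        ∃ U : Set (Icc a b), IsOpen U ∧ (U ∩ M).Nonempty ∧ coverEntropy φ U = 0) ∨
      {x | AccPt x (𝓟 (fixedPoints φ)) ∧ ¬ LocMono φ x}.Countable ∨
      (∃ F : ℝ → ℝ, ContDiffOn ℝ 1 F (Icc a b) ∧ ∀ x : Icc a b, F x = φ x)) :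
    (periodicPts ⇑f ∩ periodicPts ⇑g).Nonempty := by
  have hc : Function.Commute ⇑f ⇑g := fun x => congrFun hfg x
  obtain ⟨k, l, hkl⟩ : ∃ k l : ℕ, i * l ≠ j * k := by
    rcases Nat.eq_zero_or_pos j with rfl | hj
    · refine ⟨0, 1, ?_⟩
      intro h
      apply hij
      simp only [mul_one, mul_zero] at h
      rw [h]
    · refine ⟨1, 0, ?_⟩
      simp only [mul_zero, mul_one]
      omega
  have hne : (univ : Set (Icc a b)).Nonempty := ⟨⟨a, le_refl _, hab⟩, mem_univ _⟩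
  rcases H with H | ⟨k', l', hkl', J, hJ, h1, h2, h0⟩ | H
  · refine returns hab f g hc hkl hφ (J := univ) ordConnected_univ ?_ ?_ H
    · obtain ⟨x, -⟩ := hne
      exact ⟨_, mem_univ _, x, mem_univ _, rfl⟩
    · obtain ⟨x, -⟩ := hne
      exact ⟨_, mem_univ _, x, mem_univ _, rfl⟩
  · exact returns hab f g hc hkl' hφ hJ h1 h2 h0
  · exact perfect_crit hab f g hc hkl hφ H

end Pool.Agent.Work.MP_4545a8_an.Criteria
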