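import Mathlib
import Pool.Agent.Work.MP_4545a8_an.Min

set_option autoImplicit false

/-!
Closed intervals invariant under the composition `h = f ∘ g` of two commuting maps without common
periodic point: if they contain a fixed point `x` of `h` and `f x`, they contain the whole
orbit of `x` under `f` and `g`.
-/

namespace Pool.Agent.MP4545

open Set Function Filter Topology

/-- the smallest closed order connected `h`-invariant set containing `p` and `q` -/
def Hull (h : ℝ → ℝ) (p q : ℝ) : Set ℝ :=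
  ⋂₀ {A : Set ℝ | IsClosed A ∧ OrdConnected A ∧ (∀ x ∈ A, h x ∈ A) ∧ p ∈ A ∧ q ∈ A}

lemma hull_closed (h : ℝ → ℝ) (p q : ℝ) : IsClosed (Hull h p q) :=
  isClosed_sInter fun _ hA => hA.1

lemma hull_ord (h : ℝ → ℝ) (p q : ℝ) : OrdConnected (Hull h p q) :=
  ordConnected_sInter fun _ hA => hA.2.1

lemma hull_inv (h : ℝ → ℝ) (p q : ℝ) : ∀ x ∈ Hull h p q, h x ∈ Hull h p q :=
  fun x hx A hA => hA.2.2.1 x (hx A hA)

lemma left_mem_hull (h : ℝ → ℝ) (p q : ℝ) : p ∈ Hull h p q := fun _ hA => hA.2.2.2.1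

lemma right_mem_hull (h : ℝ → ℝ) (p q : ℝ) : q ∈ Hull h p q := fun _ hA => hA.2.2.2.2

lemma hull_sub {h : ℝ → ℝ} {p q : ℝ} {A : Set ℝ} (h1 : IsClosed A) (h2 : OrdConnected A)
    (h3 : ∀ x ∈ A, h x ∈ A) (h4 : p ∈ A) (h5 : q ∈ A) : Hull h p q ⊆ A :=
  sInter_subset_of_mem ⟨h1, h2, h3, h4, h5⟩

lemma hull_symm (h : ℝ → ℝ) (p q : ℝ) : Hull h p q = Hull h q p := by
  apply Subset.antisymm
  · exact hull_sub (hull_closed _ _ _) (hull_ord _ _ _) (hull_inv _ _ _) (right_mem_hull _ _ _)
      (left_mem_hull _ _ _)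
  · exact hull_sub (hull_closed _ _ _) (hull_ord _ _ _) (hull_inv _ _ _) (right_mem_hull _ _ _)
      (left_mem_hull _ _ _)

lemma hull_mono {h : ℝ → ℝ} {p q p' q' : ℝ} (h1 : p ∈ Hull h p' q') (h2 : q ∈ Hull h p' q') :
    Hull h p q ⊆ Hull h p' q' :=
  hull_sub (hull_closed _ _ _) (hull_ord _ _ _) (hull_inv _ _ _) h1 h2

section
variable {f g : ℝ → ℝ} {a b : ℝ}

lemma swap_comp (S : Sys f g a b) : g ∘ f = f ∘ g := funext fun x => (S.comm x).symm

lemma K_swap (S : Sys f g a b) : K g f = K f g := by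
  ext x
  show g (f x) = x ↔ f (g x) = x
  rw [S.comm]

lemma noCommon_swap (hno : NoCommon f g) : NoCommon g f :=
  fun x n m hn hm h1 h2 => hno x m n hm hn h2 h1

lemma hull_bdd (S : Sys f g a b) {p q : ℝ} (hp : p ∈ K f g) (hq : q ∈ K f g) :
    Hull (f ∘ g) p q ⊆ Icc a b :=
  hull_sub isClosed_Icc ordConnected_Icc (fun _ _ => S.rf _) (K_subset S hp) (K_subset S hq)

lemma hull_compact (S : Sys f g a b) {p q : ℝ} (hp : p ∈ K f g) (hq : q ∈ K f g) :
    IsCompact (Hull (f ∘ g) p q) :=
  isCompact_Icc.of_isClosed_subset (hull_closed _ _ _) (hull_bdd S hp hq)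

lemma img_sup (S : Sys f g a b) {p q : ℝ} (hp : p ∈ K f g) (hq : q ∈ K f g) :
    Hull (f ∘ g) (f p) (f q) ⊆ f '' Hull (f ∘ g) p q := by
  apply hull_sub
  · exact ((hull_compact S hp hq).image S.cf).isClosed
  · have h1 : IsPreconnected (Hull (f ∘ g) p q) :=
      isPreconnected_iff_ordConnected.2 (hull_ord _ _ _)
    exact isPreconnected_iff_ordConnected.1 (h1.image f S.cf.continuousOn)
  · rintro _ ⟨x, hx, rfl⟩
    refine ⟨f (g x), hull_inv _ _ _ x hx, ?_⟩
    show f (f (g x)) = f (g (f x))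
    rw [← S.comm x]
  · exact mem_image_of_mem f (left_mem_hull _ _ _)
  · exact mem_image_of_mem f (right_mem_hull _ _ _)

lemma img (S : Sys f g a b) {p q : ℝ} (hp : p ∈ K f g) (hq : q ∈ K f g) :
    f '' Hull (f ∘ g) p q = Hull (f ∘ g) (f p) (f q) := by
  apply Subset.antisymm _ (img_sup S hp hq)
  have h1 := img_sup S.swap (p := f p) (q := f q) (by rw [K_swap S]; exact K_f S hp)
    (by rw [K_swap S]; exact K_f S hq)
  rw [swap_comp S, gf S hp, gf S hq] at h1
  rintro _ ⟨x, hx, rfl⟩
  obtain ⟨y, hy, rfl⟩ := h1 hx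
  exact hull_inv _ _ _ y hy

lemma img' (S : Sys f g a b) {p q : ℝ} (hp : p ∈ K f g) (hq : q ∈ K f g) :
    g '' Hull (f ∘ g) p q = Hull (f ∘ g) (g p) (g q) := by
  have h1 := img S.swap (p := p) (q := q) (by rw [K_swap S]; exact hp)
    (by rw [K_swap S]; exact hq)
  rwa [swap_comp S] at h1

/-- Lemma A. -/
lemma trapA (S : Sys f g a b) (hno : NoCommon f g) {x : ℝ} (hx : x ∈ K f g) :
    f^[2] x ∈ Hull (f ∘ g) x (f x) ∨ x ∈ Hull (f ∘ g) (f x) (f^[2] x) := by
  by_contra hc
  push Not at hc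
  obtain ⟨h1, h2⟩ := hc
  have hK : ∀ n, f^[n] x ∈ K f g := fun n => K_fn S hx n
  have h1' : ∀ n, f^[n+2] x ∉ Hull (f ∘ g) (f^[n] x) (f^[n+1] x) := by
    intro n
    induction n with
    | zero => exact h1
    | succ n ih =>
      intro h
      apply ih
      have := mem_image_of_mem g h
      rw [img' S (hK _) (hK _)] at this
      have e : ∀ k, g (f^[k+1] x) = f^[k] x := fun k => by
        rw [iterate_succ_apply', gf S (hK k)]
      rw [e n, show n + 1 + 2 = (n + 2) + 1 from rfl, e (n + 2), e (n + 1)] at this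
      exact this
  have h2' : ∀ n, f^[n] x ∉ Hull (f ∘ g) (f^[n+1] x) (f^[n+2] x) := by
    intro n
    induction n with
    | zero => exact h2
    | succ n ih =>
      intro h
      apply ih
      have := mem_image_of_mem g h
      rw [img' S (hK _) (hK _)] at this
      have e : ∀ k, g (f^[k+1] x) = f^[k] x := fun k => by
        rw [iterate_succ_apply', gf S (hK k)]
      rw [e n, show n + 1 + 2 = (n + 2) + 1 from rfl, e (n + 2), e (n + 1)] at this
      exact this
  have hbetween : ∀ n, (f^[n] x < f^[n+1] x ∧ f^[n+1] x < f^[n+2] x) ∨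
      (f^[n+2] x < f^[n+1] x ∧ f^[n+1] x < f^[n] x) := by
    intro n
    have a1 := h1' n
    have a2 := h2' n
    have c1 : ∀ u ∈ uIcc (f^[n] x) (f^[n+1] x), u ≠ f^[n+2] x := by
      rintro u hu rfl
      exact a1 ((hull_ord _ _ _).uIcc_subset (left_mem_hull _ _ _) (right_mem_hull _ _ _) hu)
    have c2 : ∀ u ∈ uIcc (f^[n+1] x) (f^[n+2] x), u ≠ f^[n] x := by
      rintro u hu rfl
      exact a2 ((hull_ord _ _ _).uIcc_subset (left_mem_hull _ _ _) (right_mem_hull _ _ _) hu)
    have d1 : ¬ f^[n+2] x ∈ uIcc (f^[n] x) (f^[n+1] x) := fun h => c1 _ h rfl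
    have d2 : ¬ f^[n] x ∈ uIcc (f^[n+1] x) (f^[n+2] x) := fun h => c2 _ h rfl
    rw [mem_uIcc] at d1 d2
    push Not at d1 d2
    rcases le_total (f^[n] x) (f^[n+1] x) with h | h
    · left
      rcases le_or_gt (f^[n] x) (f^[n+2] x) with h3 | h3
      · have h4 := d1.1 h3
        refine ⟨lt_of_le_of_ne h ?_, h4⟩
        intro h5
        have := d2.1 (by rw [h5])
        linarith
      · exfalso
        have := d2.2 h3.le
        linarith
    · right
      rcases le_or_gt (f^[n+2] x) (f^[n] x) with h3 | h3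
      · have h4 : f^[n+2] x < f^[n+1] x := by
          by_contra h5
          push Not at h5
          have := d1.2 h5
          linarith
        refine ⟨h4, lt_of_le_of_ne h ?_⟩
        intro h5
        have := d2.2 h3
        linarith
      · exfalso
        have := d2.1 h
        linarith
  have hmono : (∀ n, f^[n] x < f^[n+1] x) ∨ (∀ n, f^[n+1] x < f^[n] x) := by
    rcases hbetween 0 with h | h
    · left
      intro n
      induction n with
      | zero => exact h.1
      | succ n ih =>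
        rcases hbetween n with h' | h'
        · exact h'.2
        · exact absurd ih (not_lt.2 h'.2.le)
    · right
      intro n
      induction n with
      | zero => exact h.2
      | succ n ih =>
        rcases hbetween n with h' | h'
        · exact absurd ih (not_lt.2 h'.1.le)
        · exact h'.1
  have hb : ∀ n, f^[n] x ∈ Icc a b := fun n => K_subset S (hK n)
  obtain ⟨l, hl⟩ : ∃ l, Tendsto (fun n => f^[n] x) atTop (𝓝 l) := by
    rcases hmono with h | h
    · exact ⟨_, tendsto_atTop_ciSup (monotone_nat_of_le_succ fun n => (h n).le)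
        ⟨b, by rintro _ ⟨n, rfl⟩; exact (hb n).2⟩⟩
    · exact ⟨_, tendsto_atTop_ciInf (antitone_nat_of_succ_le fun n => (h n).le)
        ⟨a, by rintro _ ⟨n, rfl⟩; exact (hb n).1⟩⟩
  have hlK : l ∈ K f g := (isClosed_K S).mem_of_tendsto hl (Eventually.of_forall hK)
  have hfl : f l = l := by
    have e1 : Tendsto (fun n => f (f^[n] x)) atTop (𝓝 (f l)) := (S.cf.tendsto l).comp hl
    have e2 : Tendsto (fun n => f^[n+1] x) atTop (𝓝 l) := hl.comp (tendsto_add_atTop_nat 1)
    have e3 : (fun n => f (f^[n] x)) = fun n => f^[n+1] x := by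
      funext n
      rw [iterate_succ_apply']
    rw [e3] at e1
    exact tendsto_nhds_unique e1 e2
  exact not_per S hno hlK (n := 1) one_pos hfl

/-- Lemma B. -/
lemma trapB (S : Sys f g a b) (hno : NoCommon f g) {x : ℝ} (hx : x ∈ K f g)
    (hsub : Hull (f ∘ g) (f x) (f^[2] x) ⊆ Hull (f ∘ g) x (f x)) :
    Hull (f ∘ g) (f x) (f^[2] x) = Hull (f ∘ g) x (f x) := by
  have hK : ∀ n, f^[n] x ∈ K f g := fun n => K_fn S hx n
  set H : ℕ → Set ℝ := fun n => Hull (f ∘ g) (f^[n] x) (f^[n+1] x) with hH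
  have e : ∀ k, g (f^[k+1] x) = f^[k] x := fun k => by
    rw [iterate_succ_apply', gf S (hK k)]
  have hfH : ∀ n, f '' H n = H (n + 1) := by
    intro n
    rw [hH]
    simp only
    rw [img S (hK n) (hK (n + 1)), ← iterate_succ_apply' f, ← iterate_succ_apply' f]
  have hgH : ∀ n, g '' H (n + 1) = H n := by
    intro n
    rw [hH]
    simp only
    rw [img' S (hK (n + 1)) (hK (n + 1 + 1)), e n, e (n + 1)]
  have hdec : ∀ n, H (n + 1) ⊆ H n := by
    intro n
    induction n with
    | zero => exact hsub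
    | succ n ih =>
      calc H (n + 1 + 1) = f '' H (n + 1) := (hfH (n + 1)).symm
        _ ⊆ f '' H n := image_mono ih
        _ = H (n + 1) := hfH n
  have hanti : Antitone H := antitone_nat_of_succ_le hdec
  set D : Set ℝ := ⋂ n, H n with hD
  have hDclosed : IsClosed D := isClosed_iInter fun n => hull_closed _ _ _
  have hDord : OrdConnected D := ordConnected_iInter fun n => hull_ord _ _ _
  have hDinv : ∀ y ∈ D, (f ∘ g) y ∈ D := fun y hy => mem_iInter.2 fun n =>
    hull_inv _ _ _ y (mem_iInter.1 hy n)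
  have hDf : ∀ y ∈ D, f y ∈ D := fun y hy => mem_iInter.2 fun n => by
    apply hdec n
    rw [← hfH n]
    exact mem_image_of_mem f (mem_iInter.1 hy n)
  by_cases hex : ∃ n, f^[n] x ∈ D
  · obtain ⟨n, hn⟩ := hex
    have hn1 : f^[n+1] x ∈ D := by
      rw [iterate_succ_apply']; exact hDf _ hn
    have h1 : H n ⊆ H (n + 1) :=
      (hull_sub hDclosed hDord hDinv hn hn1).trans (iInter_subset _ (n + 1))
    have h2 : ∀ k, k ≤ n → H (n - k) ⊆ H (n - k + 1) := by
      intro k
      induction k with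
      | zero => intro _; exact h1
      | succ k ih =>
        intro hk
        have h3 := ih (by omega)
        obtain ⟨j, hj⟩ : ∃ j, n - k = j + 1 := ⟨n - k - 1, by omega⟩
        have hj2 : n - (k + 1) = j := by omega
        rw [hj] at h3
        rw [hj2]
        calc H j = g '' H (j + 1) := (hgH j).symm
          _ ⊆ g '' H (j + 1 + 1) := image_mono h3
          _ = H (j + 1) := hgH (j + 1)
    have h3 := h2 n le_rfl
    rw [Nat.sub_self] at h3
    exact Subset.antisymm hsub h3
  · exfalso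
    push Not at hex
    have hbH : ∀ n, H n ⊆ Icc a b := fun n => hull_bdd S (hK n) (hK (n + 1))
    have hWD : W (fun n => f^[n] x) ⊆ D := by
      intro y hy
      refine mem_iInter.2 fun n => ?_
      by_contra hyn
      obtain ⟨m, hm, hm2⟩ := mem_W_iff.1 hy _ ((hull_closed _ _ _).isOpen_compl.mem_nhds hyn) n
      exact hm2 (hanti hm (left_mem_hull _ _ _))
    have hWne : (W (fun n => f^[n] x)).Nonempty :=
      W_nonempty isCompact_Icc (fun n => K_subset S (hK n))
    have hDne : D.Nonempty := hWne.mono hWD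
    have hDb : D ⊆ Icc a b := (iInter_subset _ 0).trans (hbH 0)
    have hDc : IsCompact D := isCompact_Icc.of_isClosed_subset hDclosed hDb
    obtain ⟨c, hc⟩ := hDc.exists_isLeast hDne
    obtain ⟨d, hd⟩ := hDc.exists_isGreatest hDne
    have hWcd : ∀ y ∈ W (fun n => f^[n] x), y = c ∨ y = d := by
      intro y hy
      have hyD := hWD hy
      by_contra hcon
      push Not at hcon
      have h1 : c < y := lt_of_le_of_ne (hc.2 hyD) (Ne.symm hcon.1)
      have h2 : y < d := lt_of_le_of_ne (hd.2 hyD) hcon.2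
      obtain ⟨m, -, hm⟩ := mem_W_iff.1 hy _ (Icc_mem_nhds h1 h2) 0
      exact hex m (hDord.out hc.1 hd.1 hm)
    have hWf : ∀ y ∈ W (fun n => f^[n] x), f y ∈ W (fun n => f^[n] x) := fun y hy =>
      W_map S.cf (fun n => by
        show f (f^[n] x) = f^[n+1] x
        rw [iterate_succ_apply']) hy
    have hWK : W (fun n => f^[n] x) ⊆ K f g := W_subset (isClosed_K S) hK
    obtain ⟨y, hy⟩ := hWne
    have hy1 := hWf _ hy
    have hy2 := hWf _ hy1
    have n1 : f y ≠ y := not_per S hno (hWK hy) (n := 1) one_pos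
    have n2 : f (f y) ≠ y := not_per S hno (hWK hy) (n := 2) two_pos
    have n3 : f (f y) ≠ f y := not_per S hno (hWK hy1) (n := 1) one_pos
    rcases hWcd _ hy with h | h <;> rcases hWcd _ hy1 with h' | h' <;>
      rcases hWcd _ hy2 with h'' | h''
    · exact n1 (h'.trans h.symm)
    · exact n1 (h'.trans h.symm)
    · exact n2 (h''.trans h.symm)
    · exact n3 (h''.trans h'.symm)
    · exact n3 (h''.trans h'.symm)
    · exact n2 (h''.trans h.symm)
    · exact n1 (h'.trans h.symm)
    · exact n1 (h'.trans h.symm)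

/-- Lemma C. -/
lemma trapC (S : Sys f g a b) (hno : NoCommon f g) {x : ℝ} (hx : x ∈ K f g) :
    Hull (f ∘ g) (f x) (f^[2] x) = Hull (f ∘ g) x (f x) := by
  rcases trapA S hno hx with h | h
  · exact trapB S hno hx (hull_mono (right_mem_hull _ _ _) h)
  · have hsub : Hull (f ∘ g) x (f x) ⊆ Hull (f ∘ g) (f x) (f^[2] x) :=
      hull_mono h (left_mem_hull _ _ _)
    have hy : f^[2] x ∈ K g f := by rw [K_swap S]; exact K_fn S hx 2
    have e1 : g (f^[2] x) = f x := by
      show g (f (f x)) = f x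
      rw [gf S (K_f S hx)]
    have e2 : g^[2] (f^[2] x) = x := by
      show g (g (f (f x))) = x
      rw [gf S (K_f S hx), gf S hx]
    have hB := trapB S.swap (noCommon_swap hno) hy (by
      rw [e1, e2, swap_comp S, hull_symm _ (f x) x, hull_symm _ (f^[2] x) (f x)]
      exact hsub)
    rw [e1, e2, swap_comp S, hull_symm _ (f x) x, hull_symm _ (f^[2] x) (f x)] at hB
    exact hB.symm

/-- Theorem D. -/
theorem trapD (S : Sys f g a b) (hno : NoCommon f g) {x : ℝ} (hx : x ∈ K f g) {A : Set ℝ}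
    (hA1 : IsClosed A) (hA2 : OrdConnected A) (hA3 : ∀ y ∈ A, f (g y) ∈ A) (h0 : x ∈ A)
    (h1 : f x ∈ A) (n : ℕ) : f^[n] x ∈ A ∧ g^[n] x ∈ A := by
  have hsub : Hull (f ∘ g) x (f x) ⊆ A := hull_sub hA1 hA2 hA3 h0 h1
  have hC := trapC S hno hx
  have hf : f '' Hull (f ∘ g) x (f x) = Hull (f ∘ g) x (f x) := by
    rw [img S hx (K_f S hx)]; exact hC
  have hg : g '' Hull (f ∘ g) x (f x) = Hull (f ∘ g) x (f x) := by
    have := img' S (K_f S hx) (K_fn S hx 2)
    rw [gf S hx, show g (f^[2] x) = f x from gf S (K_f S hx), hC] at this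
    exact this
  constructor
  · apply hsub
    induction n with
    | zero => exact left_mem_hull _ _ _
    | succ n ih =>
      rw [iterate_succ_apply', ← hf]
      exact mem_image_of_mem f ih
  · apply hsub
    induction n with
    | zero => exact left_mem_hull _ _ _
    | succ n ih =>
      rw [iterate_succ_apply', ← hg]
      exact mem_image_of_mem g ih

lemma sys_iter (S : Sys f g a b) {m : ℕ} (hm : 0 < m) : Sys f^[m] g^[m] a b where
  cf := S.cf.iterate m
  cg := S.cg.iterate m
  comm x := ((show Function.Commute f g from S.comm).iterate_iterate m m).eq x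
  rf x := by
    obtain ⟨k, rfl⟩ : ∃ k, m = k + 1 := ⟨m - 1, by omega⟩
    rw [iterate_succ_apply']; exact S.rf _
  rg x := by
    obtain ⟨k, rfl⟩ : ∃ k, m = k + 1 := ⟨m - 1, by omega⟩
    rw [iterate_succ_apply']; exact S.rg _

lemma noCommon_iter (hno : NoCommon f g) {m : ℕ} (hm : 0 < m) : NoCommon f^[m] g^[m] := by
  intro x n k hn hk h1 h2
  rw [← iterate_mul] at h1 h2
  exact hno x _ _ (Nat.mul_pos hm hn) (Nat.mul_pos hm hk) h1 h2

lemma K_iter (S : Sys f g a b) {x : ℝ} (hx : x ∈ K f g) (m : ℕ) : x ∈ K f^[m] g^[m] :=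
  fn_gn S hx m

lemma iter_inv (S : Sys f g a b) {A : Set ℝ} (hA3 : ∀ y ∈ A, f (g y) ∈ A) (m : ℕ) :
    ∀ y ∈ A, f^[m] (g^[m] y) ∈ A := by
  intro y hy
  have h1 : f^[m] (g^[m] y) = (f ∘ g)^[m] y := by
    rw [(show Function.Commute f g from S.comm).comp_iterate]; rfl
  rw [h1]
  exact (show MapsTo (f ∘ g) A A from fun y hy => hA3 y hy).iterate m hy

/-- Theorem D for arithmetic progressions. -/
theorem trap (S : Sys f g a b) (hno : NoCommon f g) {x : ℝ} (hx : x ∈ K f g) {A : Set ℝ}
    (hA1 : IsClosed A) (hA2 : OrdConnected A) (hA3 : ∀ y ∈ A, f (g y) ∈ A) (h0 : x ∈ A)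
    {m : ℕ} (hm : 0 < m) (h1 : f^[m] x ∈ A) (n : ℕ) :
    f^[m * n] x ∈ A ∧ g^[m * n] x ∈ A := by
  rw [iterate_mul, iterate_mul]
  exact trapD (sys_iter S hm) (noCommon_iter hno hm) (K_iter S hx m) hA1 hA2
    (iter_inv S hA3 m) h0 h1 n

/-- Theorem S: the return times form an arithmetic progression. -/
theorem returnTimes (S : Sys f g a b) (hno : NoCommon f g) {x : ℝ} (hx : x ∈ K f g) {A : Set ℝ}
    (hA1 : IsClosed A) (hA2 : OrdConnected A) (hA3 : ∀ y ∈ A, f (g y) ∈ A) :
    {n : ℕ | f^[n] x ∈ A}.Subsingleton ∨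
      ∃ d r : ℕ, 0 < d ∧ {n : ℕ | f^[n] x ∈ A} = {n | n ≡ r [MOD d]} := by
  by_cases hsub : {n : ℕ | f^[n] x ∈ A}.Subsingleton
  · exact Or.inl hsub
  right
  -- the key step
  have key : ∀ i d, 0 < d → f^[i] x ∈ A → f^[i + d] x ∈ A → ∀ n, f^[i + d * n] x ∈ A ∧
      (d * n ≤ i → f^[i - d * n] x ∈ A) := by
    intro i d hd hi hj n
    have h1 : f^[d] (f^[i] x) ∈ A := by
      rw [← iterate_add_apply, Nat.add_comm]; exact hj
    obtain ⟨h2, h3⟩ := trap S hno (K_fn S hx i) hA1 hA2 hA3 hi hd h1 n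
    refine ⟨by rw [Nat.add_comm, iterate_add_apply]; exact h2, fun hle => ?_⟩
    have h4 : g^[d * n] (f^[i] x) = f^[i - d * n] x := by
      have h5 : f^[i] x = f^[d * n] (f^[i - d * n] x) := by
        rw [← iterate_add_apply, show d * n + (i - d * n) = i by omega]
      rw [h5, gn_fn S (K_fn S hx _)]
    rw [← h4]; exact h3
  have hexd : ∃ d, 0 < d ∧ ∃ i, f^[i] x ∈ A ∧ f^[i + d] x ∈ A := by
    simp only [Set.Subsingleton, mem_ofPred_eq, not_forall] at hsub
    obtain ⟨i, hi, j, hj, hij⟩ := hsub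
    rcases lt_or_gt_of_ne hij with h | h
    · exact ⟨j - i, by omega, i, hi, by rw [show i + (j - i) = j by omega]; exact hj⟩
    · exact ⟨i - j, by omega, j, hj, by rw [show j + (i - j) = i by omega]; exact hi⟩
  classical
  obtain ⟨hd, i, hi, hj⟩ := Nat.find_spec hexd
  set d := Nat.find hexd with hdd
  have hmin : ∀ k, 0 < k → (∃ i, f^[i] x ∈ A ∧ f^[i + k] x ∈ A) → d ≤ k :=
    fun k hk h => Nat.find_min' hexd ⟨hk, h⟩
  set r := i % d with hr
  have hrlt : r < d := Nat.mod_lt _ hd
  have hir : i - d * (i / d) = r := by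
    have := Nat.mod_add_div i d
    omega
  have hrA : f^[r] x ∈ A := by
    have := (key i d hd hi hj (i / d)).2 (Nat.mul_div_le i d)
    rwa [hir] at this
  have hprog : ∀ n, f^[r + d * n] x ∈ A := by
    intro n
    have h1 : f^[r + d] x ∈ A := by
      rcases Nat.lt_or_ge i d with h | h
      · have : r = i := Nat.mod_eq_of_lt h
        rw [this]; exact hj
      · have h2 : 1 ≤ i / d := (Nat.one_le_div_iff hd).2 h
        have h3 := (key i d hd hi hj (i / d - 1)).2 (by
          calc d * (i / d - 1) ≤ d * (i / d) := Nat.mul_le_mul_left _ (by omega)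
            _ ≤ i := Nat.mul_div_le i d)
        have h4 : i - d * (i / d - 1) = r + d := by
          obtain ⟨t, ht⟩ : ∃ t, i / d = t + 1 := ⟨i / d - 1, by omega⟩
          rw [ht] at hir ⊢
          have h5 : d * (t + 1) ≤ i := by
            rw [← ht]; exact Nat.mul_div_le i d
          have h6 : d * (t + 1) = d * t + d := by ring
          simp only [Nat.add_sub_cancel]
          omega
        rwa [h4] at h3
    exact (key r d hd hrA h1 n).1
  refine ⟨d, r, hd, ?_⟩
  ext n
  simp only [mem_ofPred_eq]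
  constructor
  · intro hn
    rcases Nat.lt_or_ge n r with h | h
    · exfalso
      have := hmin (r - n) (by omega) ⟨n, hn, by rw [show n + (r - n) = r by omega]; exact hrA⟩
      omega
    · have h1 := hprog ((n - r) / d)
      have h2 := Nat.mod_add_div (n - r) d
      have h3 := Nat.mod_lt (n - r) hd
      rcases Nat.eq_zero_or_pos ((n - r) % d) with h4 | h4
      · have h5 : n = r + d * ((n - r) / d) := by omega
        rw [h5]
        exact (Nat.modEq_iff_dvd' (by omega)).2 ⟨(n - r) / d, by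
          omega⟩ |>.symm
      · exfalso
        have := hmin ((n - r) % d) h4 ⟨r + d * ((n - r) / d), h1, by
          rw [show r + d * ((n - r) / d) + (n - r) % d = n by omega]; exact hn⟩
        omega
  · intro hn
    have h1 : n % d = r % d := hn
    rw [Nat.mod_eq_of_lt hrlt] at h1
    have h2 := Nat.mod_add_div n d
    rw [← h2, h1]
    exact hprog _

end

end Pool.Agent.MP4545
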