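import Mathlib
import Pool.Agent.Work.MP_4545a8_an.Trap
import Pool.Agent.Work.MP_4545a8_an.Ext

set_option autoImplicit false

/-!
Uncountably many points of a minimal set at which `h = f ∘ g` does not cross are impossible when
`f` and `g` have no common periodic point.
-/

namespace Pool.Agent.MP4545

open Set Function Filter Topology

/-- the points `z` such that `h` keeps both sides of `z` in the `δ`-neighbourhood -/
def NC (h : ℝ → ℝ) (δ : ℝ) : Set ℝ := {z | ∀ u, |u - z| < δ → 0 ≤ (h u - z) * (u - z)}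

lemma exists_two_sided {T : Set ℝ} (hT : ¬ T.Countable) :
    ∃ z ∈ T, ∃ p ∈ T, ∃ q ∈ T, p < z ∧ z < q ∧ (T ∩ Ioo p z).Nonempty ∧
      (T ∩ Ioo z q).Nonempty := by
  have h1 := (countable_setOfPred_isolated_right_within (s := T)).union
    (countable_setOfPred_isolated_left_within (s := T))
  obtain ⟨z, hz, hz2⟩ : ∃ z ∈ T, z ∉ ({ x ∈ T | 𝓝[T ∩ Ioi x] x = ⊥ } ∪
      { x ∈ T | 𝓝[T ∩ Iio x] x = ⊥ } : Set ℝ) := by
    by_contra hc
    push Not at hc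
    exact hT (h1.mono hc)
  have hr : 𝓝[T ∩ Ioi z] z ≠ ⊥ := fun h => hz2 (Or.inl ⟨hz, h⟩)
  have hl : 𝓝[T ∩ Iio z] z ≠ ⊥ := fun h => hz2 (Or.inr ⟨hz, h⟩)
  have hr' : ∀ U ∈ 𝓝 z, (U ∩ (T ∩ Ioi z)).Nonempty := by
    intro U hU
    have : (𝓝[T ∩ Ioi z] z).NeBot := ⟨hr⟩
    exact nonempty_of_mem (inter_mem (mem_nhdsWithin_of_mem_nhds hU) self_mem_nhdsWithin)
  have hl' : ∀ U ∈ 𝓝 z, (U ∩ (T ∩ Iio z)).Nonempty := by
    intro U hU
    have : (𝓝[T ∩ Iio z] z).NeBot := ⟨hl⟩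
    exact nonempty_of_mem (inter_mem (mem_nhdsWithin_of_mem_nhds hU) self_mem_nhdsWithin)
  obtain ⟨q, -, hq, hzq⟩ := hr' univ univ_mem
  obtain ⟨p, -, hp, hpz⟩ := hl' univ univ_mem
  obtain ⟨q', hq'1, hq'2, hq'3⟩ := hr' (Iio q) (Iio_mem_nhds hzq)
  obtain ⟨p', hp'1, hp'2, hp'3⟩ := hl' (Ioi p) (Ioi_mem_nhds hpz)
  exact ⟨z, hz, p, hp, q, hq, hpz, hzq, ⟨p', hp'2, hp'1, hp'3⟩, ⟨q', hq'2, hq'3, hq'1⟩⟩

/-- an uncountable set has an uncountable part of small diameter -/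
lemma exists_small {T : Set ℝ} (hT : ¬ T.Countable) {δ : ℝ} (hδ : 0 < δ) :
    ∃ T' ⊆ T, ¬ T'.Countable ∧ ∀ x ∈ T', ∀ y ∈ T', |x - y| < δ := by
  by_contra hc
  push Not at hc
  apply hT
  have hcov : T ⊆ ⋃ j : ℤ, T ∩ {x | ⌊x / δ⌋ = j} := by
    intro x hx
    exact mem_iUnion.2 ⟨⌊x / δ⌋, hx, rfl⟩
  refine (countable_iUnion fun j => ?_).mono hcov
  by_contra hj
  obtain ⟨x, hx, y, hy, hxy⟩ := hc _ inter_subset_left hj
  apply absurd hxy
  push Not
  have h1 : ⌊x / δ⌋ = j := hx.2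
  have h2 : ⌊y / δ⌋ = j := hy.2
  have a1 := Int.floor_le (x / δ)
  have a2 := Int.lt_floor_add_one (x / δ)
  have b1 := Int.floor_le (y / δ)
  have b2 := Int.lt_floor_add_one (y / δ)
  rw [h1] at a1 a2
  rw [h2] at b1 b2
  have c1 : (j : ℝ) * δ ≤ x := by rwa [le_div_iff₀ hδ] at a1
  have c2 : x < (j + 1) * δ := by rwa [div_lt_iff₀ hδ] at a2
  have c3 : (j : ℝ) * δ ≤ y := by rwa [le_div_iff₀ hδ] at b1
  have c4 : y < (j + 1) * δ := by rwa [div_lt_iff₀ hδ] at b2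
  rw [abs_lt]
  constructor <;> nlinarith

variable {f g : ℝ → ℝ} {a b : ℝ}

/-- Criterion E. -/
theorem criterionE (S : Sys f g a b) (hno : NoCommon f g) {z p q : ℝ} (hz : z ∈ K f g)
    (hp : ∀ u ∈ Icc p z, f (g u) ∈ Icc p z) (hq : ∀ u ∈ Icc z q, f (g u) ∈ Icc z q)
    {m m' : ℕ} (hm : f^[m] z ∈ Ioc z q) (hm' : f^[m'] z ∈ Ico p z) : False := by
  have hm0 : 0 < m := by
    rcases Nat.eq_zero_or_pos m with h | h
    · rw [h] at hm; exact absurd hm.1 (lt_irrefl _)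
    · exact h
  have hm'0 : 0 < m' := by
    rcases Nat.eq_zero_or_pos m' with h | h
    · rw [h] at hm'; exact absurd hm'.2 (lt_irrefl _)
    · exact h
  have hzq : z ≤ q := hm.1.le.trans hm.2
  have hpz : p ≤ z := hm'.1.trans hm'.2.le
  have h1 := (trap S hno hz isClosed_Icc ordConnected_Icc hq ⟨le_rfl, hzq⟩ hm0
    ⟨hm.1.le, hm.2⟩ m').1
  have h2 := (trap S hno hz isClosed_Icc ordConnected_Icc hp ⟨hpz, le_rfl⟩ hm'0
    ⟨hm'.1, hm'.2.le⟩ m).1
  rw [Nat.mul_comm m' m] at h2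
  exact not_per S hno hz (Nat.mul_pos hm0 hm'0) (le_antisymm h2.2 h1.1)

theorem min_noncross (S : Sys f g a b) (hno : NoCommon f g) {M : Set ℝ} (hM : MinSet f g M)
    {T : Set ℝ} (hTM : T ⊆ M) (hT : ¬ T.Countable) {δ : ℝ} (hδ : 0 < δ)
    (hTδ : T ⊆ NC (f ∘ g) δ) : False := by
  obtain ⟨T', hT'T, hT', hdiam⟩ := exists_small hT hδ
  obtain ⟨z, hz, p, hp, q, hq, hpz, hzq, ⟨p', hp', hp'2⟩, ⟨q', hq', hq'2⟩⟩ :=
    exists_two_sided hT'
  have hfix : ∀ y ∈ T', f (g y) = y := fun y hy => hM.sub (hTM (hT'T hy))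
  have hnc : ∀ y ∈ T', ∀ u, |u - y| < δ → 0 ≤ (f (g u) - y) * (u - y) :=
    fun y hy => hTδ (hT'T hy)
  have upper : ∀ y ∈ T', ∀ u, u ≤ y → |u - y| < δ → f (g u) ≤ y := by
    intro y hy u hu hd
    rcases eq_or_lt_of_le hu with h | h
    · rw [h, hfix y hy]
    · have := hnc y hy u hd
      by_contra hc
      push Not at hc
      nlinarith
  have lower : ∀ y ∈ T', ∀ u, y ≤ u → |u - y| < δ → y ≤ f (g u) := by
    intro y hy u hu hd
    rcases eq_or_lt_of_le hu with h | h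
    · rw [← h, hfix y hy]
    · have := hnc y hy u hd
      by_contra hc
      push Not at hc
      nlinarith
  have dpz := hdiam p hp z hz
  have dzq := hdiam z hz q hq
  rw [abs_lt] at dpz dzq
  obtain ⟨m, hm⟩ := hM.dense z (hTM (hT'T hz)) (Ioo z q) isOpen_Ioo
    ⟨q', hq'2, hTM (hT'T hq')⟩
  obtain ⟨m', hm'⟩ := hM.dense z (hTM (hT'T hz)) (Ioo p z) isOpen_Ioo
    ⟨p', hp'2, hTM (hT'T hp')⟩
  refine criterionE S hno (hM.sub (hTM (hT'T hz))) (p := p) (q := q) ?_ ?_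
    ⟨hm.1, hm.2.le⟩ ⟨hm'.1.le, hm'.2⟩
  · intro u hu
    exact ⟨lower p hp u hu.1 (by rw [abs_lt]; constructor <;> linarith [hu.1, hu.2]),
      upper z hz u hu.2 (by rw [abs_lt]; constructor <;> linarith [hu.1, hu.2])⟩
  · intro u hu
    exact ⟨lower z hz u hu.1 (by rw [abs_lt]; constructor <;> linarith [hu.1, hu.2]),
      upper q hq u hu.2 (by rw [abs_lt]; constructor <;> linarith [hu.1, hu.2])⟩

lemma MinSet.it {M : Set ℝ} (hM : MinSet f g M) (n : ℕ) {x : ℝ} (hx : x ∈ M) :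
    f^[n] x ∈ M := by
  induction n with
  | zero => exact hx
  | succ n ih => rw [iterate_succ_apply']; exact hM.inv _ ih

lemma MinSet.compact (S : Sys f g a b) {M : Set ℝ} (hM : MinSet f g M) : IsCompact M :=
  (isCompact_Icc (a := a) (b := b)).of_isClosed_subset hM.closed (hM.sub.trans (K_subset S))

lemma MinSet.surj (S : Sys f g a b) {M : Set ℝ} (hM : MinSet f g M) : f '' M = M := by
  apply Subset.antisymm
  · rintro _ ⟨x, hx, rfl⟩
    exact hM.inv x hx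
  · intro m hm
    have hcl : IsClosed (f '' M) := ((hM.compact S).image S.cf).isClosed
    rw [← hcl.closure_eq, mem_closure_iff]
    intro O hO hmO
    obtain ⟨k, hk⟩ := hM.dense (f m) (hM.inv m hm) O hO ⟨m, hmO, hm⟩
    refine ⟨_, hk, f^[k] m, hM.it k hm, ?_⟩
    rw [← iterate_succ_apply' f, ← iterate_succ_apply f]

lemma MinSet.acc (S : Sys f g a b) (hno : NoCommon f g) {M : Set ℝ} (hM : MinSet f g M)
    {m : ℝ} (hm : m ∈ M) {O : Set ℝ} (hO : IsOpen O) (hmO : m ∈ O) :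
    ∃ y ∈ O ∩ M, y ≠ m := by
  obtain ⟨k, hk⟩ := hM.dense (f m) (hM.inv m hm) O hO ⟨m, hmO, hm⟩
  refine ⟨_, ⟨hk, hM.it k (hM.inv m hm)⟩, ?_⟩
  rw [← iterate_succ_apply f]
  exact not_per S hno (hM.sub hm) (Nat.succ_pos k)

lemma sys_word (S : Sys f g a b) (k : ℕ) {l : ℕ} (hl : 0 < l) :
    Sys f (f^[k] ∘ g^[l]) a b := by
  have hfg : Function.Commute f g := fun x => S.comm x
  have hg : ∀ x, g^[l] x ∈ Icc a b := by
    intro x
    obtain ⟨j, rfl⟩ : ∃ j, l = j + 1 := ⟨l - 1, by omega⟩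
    rw [iterate_succ_apply']; exact S.rg _
  refine ⟨S.cf, (S.cf.iterate k).comp (S.cg.iterate l), ?_, S.rf, ?_⟩
  · intro x
    show f (f^[k] (g^[l] x)) = f^[k] (g^[l] (f x))
    rw [← (hfg.iterate_right l).eq, ← iterate_succ_apply' f, iterate_succ_apply f]
  · intro x
    show f^[k] (g^[l] x) ∈ Icc a b
    have : MapsTo f (Icc a b) (Icc a b) := fun y _ => S.rf y
    exact this.iterate k (hg x)

lemma noCommon_word (S : Sys f g a b) (k : ℕ) {l : ℕ} (hl : 0 < l)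
    (hno : ∀ x ∈ Icc a b, x ∉ periodicPts f ∩ periodicPts g) :
    NoCommon f (f^[k] ∘ g^[l]) := by
  intro x n m hn hm h1 h2
  have hx : x ∈ Icc a b := by
    obtain ⟨j, rfl⟩ : ∃ j, n = j + 1 := ⟨n - 1, by omega⟩
    rw [← h1, iterate_succ_apply']; exact S.rf _
  apply hno x hx
  exact indep (f := f) (g := g) (fun x => S.comm x) (s := 1) (t := 0) (s' := k) (t' := l)
    (by omega) hn hm (by simpa using h1) h2

lemma word_comp (k l : ℕ) : f ∘ (f^[k] ∘ g^[l]) = f^[k+1] ∘ g^[l] := by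
  funext x
  show f (f^[k] (g^[l] x)) = f^[k+1] (g^[l] x)
  rw [iterate_succ_apply']

lemma fix_nonempty (S : Sys f g a b) : (K f g).Nonempty := by
  have hab : a ≤ b := (S.rf 0).1.trans (S.rf 0).2
  have c : Continuous (fun x => f (g x) - x) := (S.cf.comp S.cg).sub continuous_id
  obtain ⟨x, -, hx⟩ := ivt_zero c hab (by linarith [(S.rf (g a)).1])
    (by linarith [(S.rf (g b)).2])
  exact ⟨x, by show f (g x) = x; linarith⟩

/-- images of a minimal set under powers of `g` -/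
lemma min_image (S : Sys f g a b) {k l : ℕ} (hl : 0 < l) {M : Set ℝ}
    (hM : MinSet f (f^[k] ∘ g^[l]) M) (i : ℕ) :
    MinSet f (f^[k] ∘ g^[l]) (g^[i] '' M) := by
  have S' := sys_word S k hl
  have hfg : Function.Commute f g := fun x => S.comm x
  have hcomm : ∀ x, f (g^[i] x) = g^[i] (f x) := (hfg.iterate_right i).eq
  have hcommn : ∀ n x, f^[n] (g^[i] x) = g^[i] (f^[n] x) := fun n =>
    (hfg.iterate_iterate n i).eq
  refine ⟨((hM.compact S').image (S.cg.iterate i)).isClosed, hM.ne.image _, ?_, ?_, ?_⟩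
  · rintro _ ⟨x, hx, rfl⟩
    show f (f^[k] (g^[l] (g^[i] x))) = g^[i] x
    have h1 : f (f^[k] (g^[l] x)) = x := hM.sub hx
    have h2 : g^[l] (g^[i] x) = g^[i] (g^[l] x) := by
      rw [← iterate_add_apply, Nat.add_comm, iterate_add_apply]
    rw [h2, hcommn, hcomm, h1]
  · rintro _ ⟨x, hx, rfl⟩
    exact ⟨f x, hM.inv x hx, (hcomm x).symm⟩
  · rintro _ ⟨x, hx, rfl⟩ O hO ⟨y, hyO, ⟨w, hw, rfl⟩⟩
    obtain ⟨n, hn⟩ := hM.dense x hx ((g^[i]) ⁻¹' O) (hO.preimage (S.cg.iterate i)) ⟨w, hyO, hw⟩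
    exact ⟨n, by rw [hcommn]; exact hn⟩

/-- Theorem T'. -/
theorem nonCross_main (S : Sys f g a b) {k l : ℕ} (hk : 0 < k) (hl : 0 < l)
    (H : ∀ M : Set ℝ, M ⊆ Icc a b → Perfect M → M.Nonempty → (∀ x ∈ M, f^[k] (g^[l] x) = x) →
      f '' M = M → g '' M = M →
      (∀ C ⊆ M, IsClosed C → C.Nonempty → (∀ x ∈ C, f x ∈ C) → (∀ x ∈ C, g x ∈ C) → C = M) →
      ¬ (M ∩ {z | ∃ δ > 0, z ∈ NC (f^[k] ∘ g^[l]) δ}).Countable) :
    ∃ x ∈ Icc a b, x ∈ periodicPts f ∩ periodicPts g := by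
  by_contra hcon
  push Not at hcon
  obtain ⟨k, rfl⟩ : ∃ j, k = j + 1 := ⟨k - 1, by omega⟩
  have hfg : Function.Commute f g := fun x => S.comm x
  have S' := sys_word S k hl
  have hno := noCommon_word S k hl hcon
  obtain ⟨x0, hx0⟩ := fix_nonempty S'
  obtain ⟨M0, hM0, -⟩ := exists_min S' hx0
  have hMi := fun i => min_image S hl hM0 i
  set M : Set ℝ := ⋃ i ∈ Finset.range l, g^[i] '' M0 with hMdef
  have hMmem : ∀ x, x ∈ M ↔ ∃ i < l, x ∈ g^[i] '' M0 := by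
    intro x
    simp only [hMdef, mem_iUnion, Finset.mem_range, exists_prop]
  have hMcl : IsClosed M := by
    apply Set.Finite.isClosed_biUnion (Finset.finite_toSet _)
    intro i _
    exact (hMi i).closed
  have hMper : Perfect M := by
    refine ⟨hMcl, ?_⟩
    rw [preperfect_iff_nhds]
    intro x hx U hU
    obtain ⟨i, hi, hxi⟩ := (hMmem x).1 hx
    obtain ⟨O, hOU, hO, hxO⟩ := mem_nhds_iff.1 hU
    obtain ⟨y, ⟨hyO, hyM⟩, hne⟩ := (hMi i).acc S' hno hxi hO hxO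
    exact ⟨y, ⟨hOU hyO, (hMmem y).2 ⟨i, hi, hyM⟩⟩, hne⟩
  have hMne : M.Nonempty := by
    obtain ⟨m, hm⟩ := hM0.ne
    exact ⟨m, (hMmem m).2 ⟨0, hl, m, hm, rfl⟩⟩
  have hMK : ∀ x ∈ M, f^[k+1] (g^[l] x) = x := by
    intro x hx
    obtain ⟨i, hi, hxi⟩ := (hMmem x).1 hx
    have : f (f^[k] (g^[l] x)) = x := (hMi i).sub hxi
    rwa [← iterate_succ_apply' f] at this
  have hMab : M ⊆ Icc a b := by
    intro x hx
    obtain ⟨i, hi, hxi⟩ := (hMmem x).1 hx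
    exact K_subset S' ((hMi i).sub hxi)
  have hfM : f '' M = M := by
    apply Subset.antisymm
    · rintro _ ⟨x, hx, rfl⟩
      obtain ⟨i, hi, hxi⟩ := (hMmem x).1 hx
      exact (hMmem _).2 ⟨i, hi, (hMi i).inv x hxi⟩
    · intro x hx
      obtain ⟨i, hi, hxi⟩ := (hMmem x).1 hx
      rw [← (hMi i).surj S'] at hxi
      obtain ⟨y, hy, rfl⟩ := hxi
      exact ⟨y, (hMmem _).2 ⟨i, hi, hy⟩, rfl⟩
  -- `g^l` preserves `M0`
  have hgl : ∀ m ∈ M0, g^[l] m ∈ M0 := by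
    intro m hm
    have hs : ∀ n, ∀ m ∈ M0, ∃ m' ∈ M0, f^[n] m' = m := by
      intro n
      induction n with
      | zero => intro m hm; exact ⟨m, hm, rfl⟩
      | succ n ih =>
        intro m hm
        rw [← hM0.surj S'] at hm
        obtain ⟨y, hy, rfl⟩ := hm
        obtain ⟨y', hy', rfl⟩ := ih y hy
        exact ⟨y', hy', by rw [iterate_succ_apply']⟩
    obtain ⟨m', hm', rfl⟩ := hs (k + 1) m hm
    have h1 : g^[l] (f^[k+1] m') = m' := by
      rw [← (hfg.iterate_iterate (k+1) l).eq]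
      have : f (f^[k] (g^[l] m')) = m' := hM0.sub hm'
      rwa [← iterate_succ_apply' f] at this
    rw [h1]; exact hm'
  have hgl' : ∀ m ∈ M0, ∃ m' ∈ M0, g^[l] m' = m := by
    intro m hm
    refine ⟨f^[k+1] m, hM0.it _ hm, ?_⟩
    rw [← (hfg.iterate_iterate (k+1) l).eq]
    have : f (f^[k] (g^[l] m)) = m := hM0.sub hm
    rwa [← iterate_succ_apply' f] at this
  have hgM : g '' M = M := by
    apply Subset.antisymm
    · rintro _ ⟨x, hx, rfl⟩
      obtain ⟨i, hi, m, hm, rfl⟩ := (hMmem x).1 hx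
      rw [hMmem]
      rcases Nat.lt_or_ge (i + 1) l with h | h
      · exact ⟨i + 1, h, m, hm, by rw [iterate_succ_apply']⟩
      · have : i + 1 = l := by omega
        refine ⟨0, hl, g^[l] m, hgl m hm, ?_⟩
        rw [← this, iterate_succ_apply']; rfl
    · intro x hx
      obtain ⟨i, hi, m, hm, rfl⟩ := (hMmem x).1 hx
      rcases Nat.eq_zero_or_pos i with h | h
      · obtain ⟨m', hm', rfl⟩ := hgl' m hm
        refine ⟨g^[l - 1] m', (hMmem _).2 ⟨l - 1, by omega, m', hm', rfl⟩, ?_⟩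
        rw [h, ← iterate_succ_apply' g, show (l - 1).succ = l by omega]; rfl
      · refine ⟨g^[i - 1] m, (hMmem _).2 ⟨i - 1, by omega, m, hm, rfl⟩, ?_⟩
        rw [← iterate_succ_apply' g, show (i - 1).succ = i by omega]
  have hmin : ∀ C ⊆ M, IsClosed C → C.Nonempty → (∀ x ∈ C, f x ∈ C) → (∀ x ∈ C, g x ∈ C) →
      C = M := by
    intro C hCM hC hCne hCf hCg
    apply Subset.antisymm hCM
    obtain ⟨x, hx⟩ := hCne
    obtain ⟨i, hi, hxi⟩ := (hMmem x).1 (hCM hx)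
    have hCfn : ∀ n, ∀ y ∈ C, f^[n] y ∈ C := fun n y hy =>
      (show MapsTo f C C from fun y hy => hCf y hy).iterate n hy
    have hCgn : ∀ n, ∀ y ∈ C, g^[n] y ∈ C := fun n y hy =>
      (show MapsTo g C C from fun y hy => hCg y hy).iterate n hy
    have h1 : g^[i] '' M0 ⊆ C := by
      intro y hy
      rw [← hC.closure_eq, mem_closure_iff]
      intro O hO hyO
      obtain ⟨n, hn⟩ := (hMi i).dense x hxi O hO ⟨y, hyO, hy⟩
      exact ⟨_, hn, hCfn n x hx⟩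
    have h2 : M0 ⊆ C := by
      intro m hm
      obtain ⟨m', hm', rfl⟩ := hgl' m hm
      have h3 : g^[l] m' = g^[l - i] (g^[i] m') := by
        rw [← iterate_add_apply, show l - i + i = l by omega]
      rw [h3]
      exact hCgn _ _ (h1 ⟨m', hm', rfl⟩)
    intro y hy
    obtain ⟨j, hj, m, hm, rfl⟩ := (hMmem y).1 hy
    exact hCgn j m (h2 hm)
  apply H M hMab hMper hMne hMK hfM hgM hmin
  have hcov : M ∩ {z | ∃ δ > 0, z ∈ NC (f^[k+1] ∘ g^[l]) δ} ⊆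
      ⋃ i : ℕ, ⋃ n : ℕ, (g^[i] '' M0 ∩ NC (f^[k+1] ∘ g^[l]) (1 / ((n : ℝ) + 1))) := by
    rintro z ⟨hzM, δ, hδ, hzδ⟩
    obtain ⟨i, hi, hzi⟩ := (hMmem z).1 hzM
    obtain ⟨n, hn⟩ := exists_nat_one_div_lt hδ
    refine mem_iUnion.2 ⟨i, mem_iUnion.2 ⟨n, hzi, fun u hu => hzδ u (hu.trans hn)⟩⟩
  refine (countable_iUnion fun i => countable_iUnion fun n => ?_).mono hcov
  by_contra hnc
  refine min_noncross S' hno (hMi i) inter_subset_left hnc
    (δ := 1 / ((n : ℝ) + 1)) (by positivity) ?_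
  rw [word_comp]
  exact inter_subset_right

end Pool.Agent.MP4545
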