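import Mathlib
import Pool.Agent.Work.MP_4545a8_an.NonCross

set_option autoImplicit false

/-!
At a two-sided accumulation point of fixed points, a continuous map which is differentiable or has
an isolated fibre does not cross.
-/

namespace Pool.Agent.MP4545

open Set Function Filter Topology

/-- points of `T` which are not two-sided accumulation points of `T` are countably many -/
lemma two_sided_countable (T : Set ℝ) :
    {z ∈ T | ¬ ((∀ δ > 0, ∃ y ∈ T, z < y ∧ y < z + δ) ∧
      (∀ δ > 0, ∃ y ∈ T, z - δ < y ∧ y < z))}.Countable := by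
  refine ((countable_setOfPred_isolated_right_within (s := T)).union
    (countable_setOfPred_isolated_left_within (s := T))).mono ?_
  rintro z ⟨hz, hc⟩
  by_contra hn
  apply hc
  have hr : 𝓝[T ∩ Ioi z] z ≠ ⊥ := fun h => hn (Or.inl ⟨hz, h⟩)
  have hl : 𝓝[T ∩ Iio z] z ≠ ⊥ := fun h => hn (Or.inr ⟨hz, h⟩)
  constructor
  · intro δ hδ
    have : (𝓝[T ∩ Ioi z] z).NeBot := ⟨hr⟩
    obtain ⟨y, h1, h2, h3⟩ := Filter.nonempty_of_mem
      (inter_mem (mem_nhdsWithin_of_mem_nhds (Iio_mem_nhds (show z < z + δ by linarith)))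
        (self_mem_nhdsWithin (a := z) (s := T ∩ Ioi z)))
    exact ⟨y, h2, h3, h1⟩
  · intro δ hδ
    have : (𝓝[T ∩ Iio z] z).NeBot := ⟨hl⟩
    obtain ⟨y, h1, h2, h3⟩ := Filter.nonempty_of_mem
      (inter_mem (mem_nhdsWithin_of_mem_nhds (Ioi_mem_nhds (show z - δ < z by linarith)))
        (self_mem_nhdsWithin (a := z) (s := T ∩ Iio z)))
    exact ⟨y, h2, h1, h3⟩

variable {h : ℝ → ℝ} {T : Set ℝ} {z : ℝ}

/-- isolated fibre -/
lemma nc_of_isolated (hc : Continuous h) (hT : ∀ y ∈ T, h y = y)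
    (hr : ∀ δ > 0, ∃ y ∈ T, z < y ∧ y < z + δ) (hl : ∀ δ > 0, ∃ y ∈ T, z - δ < y ∧ y < z)
    (hi : ∃ δ > 0, ∀ u, |u - z| < δ → h u = z → u = z) : ∃ δ > 0, z ∈ NC h δ := by
  obtain ⟨δ, hδ, hiso⟩ := hi
  refine ⟨δ, hδ, ?_⟩
  intro u hu
  rw [abs_lt] at hu
  obtain ⟨y, hy, hy1, hy2⟩ := hr δ hδ
  obtain ⟨w, hw, hw1, hw2⟩ := hl δ hδ
  have ey := hT y hy
  have ew := hT w hw
  rcases lt_trichotomy u z with h1 | h1 | h1
  · -- left side
    have : h u ≤ z := by
      by_contra hcon
      push Not at hcon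
      -- between u and w there is a zero of h - z
      rcases le_total u w with h2 | h2
      · obtain ⟨v, hv, ev⟩ := ivt_zero (F := fun x => h x - z) (by fun_prop) h2
          (by linarith) (by simp only [ew]; linarith)
        have := hiso v (by rw [abs_lt]; constructor <;> linarith [hv.1, hv.2]) (by linarith)
        linarith [hv.2]
      · obtain ⟨v, hv, ev⟩ := ivt_zero' (F := fun x => h x - z) (by fun_prop) h2
          (by simp only [ew]; linarith) (by linarith)
        have := hiso v (by rw [abs_lt]; constructor <;> linarith [hv.1, hv.2]) (by linarith)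
        linarith [hv.2]
    nlinarith
  · rw [h1]; simp
  · have : z ≤ h u := by
      by_contra hcon
      push Not at hcon
      rcases le_total u y with h2 | h2
      · obtain ⟨v, hv, ev⟩ := ivt_zero' (F := fun x => h x - z) (by fun_prop) h2
          (by linarith) (by simp only [ey]; linarith)
        have := hiso v (by rw [abs_lt]; constructor <;> linarith [hv.1, hv.2]) (by linarith)
        linarith [hv.1]
      · obtain ⟨v, hv, ev⟩ := ivt_zero (F := fun x => h x - z) (by fun_prop) h2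
          (by simp only [ey]; linarith) (by linarith)
        have := hiso v (by rw [abs_lt]; constructor <;> linarith [hv.1, hv.2]) (by linarith)
        linarith [hv.1]
    nlinarith

/-- differentiability -/
lemma nc_of_diff {a b : ℝ} (hTab : T ⊆ Icc a b) (hT : ∀ y ∈ T, h y = y) (hz : h z = z)
    (hr : ∀ δ > 0, ∃ y ∈ T, z < y ∧ y < z + δ) (hl : ∀ δ > 0, ∃ y ∈ T, z - δ < y ∧ y < z)
    (hd : DifferentiableWithinAt ℝ h (Icc a b) z) : ∃ δ > 0, z ∈ NC h δ := by
  obtain ⟨y, hy, hy1, hy2⟩ := hr 1 one_pos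
  obtain ⟨w, hw, hw1, hw2⟩ := hl 1 one_pos
  have haz : a < z := lt_of_le_of_lt (hTab hw).1 hw2
  have hzb : z < b := lt_of_lt_of_le hy1 (hTab hy).2
  have hd' : DifferentiableAt ℝ h z := hd.differentiableAt (Icc_mem_nhds haz hzb)
  obtain ⟨h', hh'⟩ : ∃ h', HasDerivAt h h' z := ⟨_, hd'.hasDerivAt⟩
  have hs := hasDerivAt_iff_tendsto_slope.1 hh'
  -- the derivative is one
  have h1 : h' = 1 := by
    by_contra hne
    have hne' : ∀ᶠ x in 𝓝[≠] z, slope h z x ≠ 1 := hs.eventually_ne hne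
    rw [eventually_nhdsWithin_iff, Metric.eventually_nhds_iff] at hne'
    obtain ⟨δ, hδ, hδ'⟩ := hne'
    obtain ⟨y, hy, hy1, hy2⟩ := hr δ hδ
    apply hδ' (y := y) (by rw [Real.dist_eq, abs_lt]; constructor <;> linarith)
      (by simp only [mem_compl_iff, mem_singleton_iff]; exact hy1.ne')
    rw [slope_def_field, hT y hy, hz]
    exact div_self (by linarith)
  rw [h1] at hs
  have hpos : ∀ᶠ x in 𝓝[≠] z, 0 < slope h z x := hs.eventually_const_lt one_pos
  rw [eventually_nhdsWithin_iff, Metric.eventually_nhds_iff] at hpos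
  obtain ⟨δ, hδ, hδ'⟩ := hpos
  refine ⟨δ, hδ, fun u hu => ?_⟩
  rcases eq_or_ne u z with h2 | h2
  · rw [h2]; simp
  · have := hδ' (y := u) (by rw [Real.dist_eq]; exact hu)
      (by simp only [mem_compl_iff, mem_singleton_iff]; exact h2)
    rw [slope_def_field, hz] at this
    have h3 : h u - z = (h u - z) / (u - z) * (u - z) := by
      rw [div_mul_cancel₀]; exact sub_ne_zero.2 h2
    rw [h3]
    have h4 : (h u - z) / (u - z) * (u - z) * (u - z) = (h u - z) / (u - z) * (u - z) ^ 2 := by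
      ring
    rw [h4]
    positivity

/-- a nonempty perfect set of reals is uncountable -/
lemma perfect_uncountable {M : Set ℝ} (hM : Perfect M) (hne : M.Nonempty) : ¬ M.Countable := by
  intro hc
  have h4 : Cardinal.mk (ℕ → Bool) = Cardinal.continuum := by simp
  obtain ⟨φ, hφ, -, hinj⟩ := hM.exists_nat_bool_injection hne
  have h1 : (range φ).Countable := hc.mono hφ
  have h2 : Countable (ℕ → Bool) := by
    have : Countable (range φ) := h1.to_subtype
    exact (Equiv.ofInjective φ hinj).countable_iff.2 this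
  have h3 := Cardinal.mk_le_aleph0 (α := ℕ → Bool)
  rw [h4] at h3
  exact absurd h3 (not_le.2 Cardinal.aleph0_lt_continuum)

/-- Corollary of Theorem T'. -/
theorem nonCross_cor {f g : ℝ → ℝ} {a b : ℝ} (S : Sys f g a b) {k l : ℕ} (hk : 0 < k)
    (hl : 0 < l)
    (H : {z | f^[k] (g^[l] z) = z ∧
      ¬ (DifferentiableWithinAt ℝ (f^[k] ∘ g^[l]) (Icc a b) z ∨
        ∃ δ > 0, ∀ u ∈ Icc a b, |u - z| < δ → f^[k] (g^[l] u) = z → u = z)}.Countable) :
    ∃ x ∈ Icc a b, x ∈ periodicPts f ∩ periodicPts g := by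
  apply nonCross_main S hk hl
  intro M hMab hM hMne hMfix _ _ _ hcount
  apply perfect_uncountable hM hMne
  refine ((hcount.union H).union (two_sided_countable M)).mono ?_
  intro z hz
  by_contra hcon
  have h1 : ¬ ∃ δ > 0, z ∈ NC (f^[k] ∘ g^[l]) δ := fun h => hcon (Or.inl (Or.inl ⟨hz, h⟩))
  have h2 : DifferentiableWithinAt ℝ (f^[k] ∘ g^[l]) (Icc a b) z ∨
        ∃ δ > 0, ∀ u ∈ Icc a b, |u - z| < δ → f^[k] (g^[l] u) = z → u = z := by
    by_contra h
    exact hcon (Or.inl (Or.inr ⟨hMfix z hz, h⟩))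
  have h3 : (∀ δ > 0, ∃ y ∈ M, z < y ∧ y < z + δ) ∧ (∀ δ > 0, ∃ y ∈ M, z - δ < y ∧ y < z) := by
    by_contra h
    exact hcon (Or.inr ⟨hz, h⟩)
  apply h1
  rcases h2 with h2 | h2
  · exact nc_of_diff hMab hMfix (hMfix z hz) h3.1 h3.2 h2
  · obtain ⟨δ, hδ, hiso⟩ := h2
    obtain ⟨y, hy, hy1, hy2⟩ := h3.1 δ hδ
    obtain ⟨w, hw, hw1, hw2⟩ := h3.2 δ hδ
    have hya := hMab hy
    have hwa := hMab hw
    refine nc_of_isolated ((S.cf.iterate k).comp (S.cg.iterate l)) hMfix h3.1 h3.2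
      ⟨min (y - z) (z - w), lt_min (by linarith) (by linarith), ?_⟩
    intro u hu hfu
    rw [lt_min_iff, abs_lt, abs_lt] at hu
    exact hiso u ⟨by linarith [hu.2.1, hwa.1], by linarith [hu.1.2, hya.2]⟩
      (by rw [abs_lt]; constructor <;> linarith [hu.2.1, hu.1.2]) hfu

end Pool.Agent.MP4545
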